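import Pool.Agent.Helper43.Halv.Hits

/-!
# Assembling signings, parity, null relations
-/

open Finset

namespace Pool.Agent.Helper43.Halving

theorem eS_union {F G : Finset (Finset ℕ)} (h : Disjoint F G) (x : Finset ℕ → ℤ)
    (T : Finset ℕ) : eS (F ∪ G) x T = eS F x T + eS G x T := by
  unfold eS
  rw [filter_union, sum_union (disjoint_filter_filter h)]

theorem eS_smul (F : Finset (Finset ℕ)) (c : ℤ) (x : Finset ℕ → ℤ) (T : Finset ℕ) :
    eS F (fun B => c * x B) T = c * eS F x T := by
  unfold eS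
  rw [mul_sum]

theorem assemble {ι : Type*} [DecidableEq ι] (R : Finset (Finset ℕ)) (xr : Finset ℕ → ℤ)
    (hxr : ∀ B ∈ R, xr B = 1 ∨ xr B = -1) (G : ι → Finset (Finset ℕ)) (y : ι → Finset ℕ → ℤ)
    (I : Finset ι) :
    (∀ i ∈ I, ∀ j ∈ I, i ≠ j → Disjoint (G i) (G j)) → (∀ i ∈ I, Disjoint R (G i)) →
    (∀ i ∈ I, ∀ B ∈ G i, y i B = 1 ∨ y i B = -1) →
    ∃ x : Finset ℕ → ℤ, (∀ B ∈ R ∪ I.biUnion G, x B = 1 ∨ x B = -1) ∧
      ∀ T, eS (R ∪ I.biUnion G) x T = eS R xr T + ∑ i ∈ I, eS (G i) (y i) T := by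
  induction I using Finset.induction_on with
  | empty =>
    intro _ _ _
    refine ⟨xr, by simpa using hxr, fun T => by simp⟩
  | insert i₀ I hi₀ ih =>
    intro hG hR hy
    obtain ⟨x, h1, h2⟩ := ih
      (fun i hi j hj => hG i (mem_insert_of_mem hi) j (mem_insert_of_mem hj))
      (fun i hi => hR i (mem_insert_of_mem hi)) (fun i hi => hy i (mem_insert_of_mem hi))
    have hdis : Disjoint (G i₀) (R ∪ I.biUnion G) := by
      rw [disjoint_union_right]
      refine ⟨(hR i₀ (mem_insert_self _ _)).symm, ?_⟩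
      rw [disjoint_biUnion_right]
      intro i hi
      exact hG i₀ (mem_insert_self _ _) i (mem_insert_of_mem hi) (fun h => hi₀ (h ▸ hi))
    have hset : R ∪ (insert i₀ I).biUnion G = G i₀ ∪ (R ∪ I.biUnion G) := by
      rw [biUnion_insert, union_left_comm]
    refine ⟨fun B => if B ∈ G i₀ then y i₀ B else x B, ?_, ?_⟩
    · intro B hB
      rw [hset, mem_union] at hB
      by_cases h : B ∈ G i₀
      · simp only [h, if_true]
        exact hy i₀ (mem_insert_self _ _) B h
      · simp only [h, if_false]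
        exact h1 B (hB.resolve_left h)
    · intro T
      rw [hset, eS_union hdis, sum_insert hi₀,
        eS_congr (F := G i₀) (y := y i₀) (fun B hB => by simp [hB]) T,
        eS_congr (F := R ∪ I.biUnion G) (y := x)
          (fun B hB => by simp only [disjoint_right.1 hdis hB, if_false]) T, h2]
      ring

theorem eS_parity {F : Finset (Finset ℕ)} {x : Finset ℕ → ℤ}
    (h : ∀ B ∈ F, x B = 1 ∨ x B = -1) (T : Finset ℕ)
    (he : Even (F.filter (fun B => T ⊆ B)).card) : Even (eS F x T) := by
  unfold eS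
  have e : ∑ B ∈ F.filter (fun B => T ⊆ B), x B =
      ∑ B ∈ F.filter (fun B => T ⊆ B), (x B - 1) + (F.filter (fun B => T ⊆ B)).card := by
    rw [sum_sub_distrib]
    simp
  rw [e]
  refine Even.add (even_sum _ fun B hB => ?_) (by exact_mod_cast he)
  rcases h B (mem_filter.1 hB).1 with h | h <;> rw [h] <;> decide

theorem card_above {v k : ℕ} {T : Finset ℕ} (hT : T ⊆ range v) (hTk : T.card ≤ k) :
    ((powersetCard k (range v)).filter (fun B => T ⊆ B)).card =
      (v - T.card).choose (k - T.card) := by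
  have h1 : (range v \ T).card = v - T.card := by
    rw [card_sdiff_of_subset hT, card_range]
  rw [← h1, ← card_powersetCard]
  refine card_nbij' (fun B => B \ T) (fun B => B ∪ T) ?_ ?_ ?_ ?_
  · intro B hB
    rw [mem_coe, mem_filter, mem_powersetCard] at hB
    rw [mem_coe, mem_powersetCard]
    exact ⟨sdiff_subset_sdiff hB.1.1 (Subset.refl T),
      by rw [card_sdiff_of_subset hB.2, hB.1.2]⟩
  · intro B hB
    rw [mem_coe, mem_powersetCard] at hB
    rw [mem_coe, mem_filter, mem_powersetCard]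
    refine ⟨⟨union_subset (hB.1.trans sdiff_subset) hT, ?_⟩, subset_union_right⟩
    rw [card_union_of_disjoint, hB.2]
    · omega
    · rw [disjoint_left]
      intro a ha
      exact (mem_sdiff.1 (hB.1 ha)).2
  · intro B hB
    rw [mem_coe, mem_filter] at hB
    exact sdiff_union_of_subset hB.2
  · intro B hB
    rw [mem_coe, mem_powersetCard] at hB
    show (B ∪ T) \ T = B
    rw [union_sdiff_right]
    refine sdiff_eq_self_of_disjoint ?_
    rw [disjoint_left]
    intro a ha
    exact (mem_sdiff.1 (hB.1 ha)).2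

theorem null_rel {v k : ℕ} (x : Finset ℕ → ℤ) {S : Finset ℕ} :
    ∑ a ∈ range v \ S, eS (powersetCard k (range v)) x (insert a S) =
      (k - S.card) * eS (powersetCard k (range v)) x S := by
  unfold eS
  rw [mul_sum]
  have h1 : ∀ a ∈ range v \ S, ∑ B ∈ (powersetCard k (range v)).filter
      (fun B => insert a S ⊆ B), x B = ∑ B ∈ (powersetCard k (range v)).filter
      (fun B => S ⊆ B), if a ∈ B then x B else 0 := by
    intro a _
    rw [← sum_filter, filter_filter]
    refine sum_congr ?_ fun _ _ => rfl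
    ext B
    simp only [mem_filter, insert_subset_iff]
    tauto
  rw [sum_congr rfl h1, sum_comm]
  refine sum_congr rfl fun B hB => ?_
  rw [mem_filter, mem_powersetCard] at hB
  rw [← sum_filter, sum_const, nsmul_eq_mul]
  congr 1
  have h2 : (range v \ S).filter (fun a => a ∈ B) = B \ S := by
    ext a
    simp only [mem_filter, mem_sdiff]
    constructor
    · rintro ⟨⟨_, h⟩, h'⟩
      exact ⟨h', h⟩
    · rintro ⟨h, h'⟩
      exact ⟨⟨hB.1.1 h, h'⟩, h⟩
  rw [h2, card_sdiff_of_subset hB.2, hB.1.2, Nat.cast_sub]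
  rw [← hB.1.2]
  exact card_le_card hB.2

/-- restricted null relation -/
theorem null_rel' {v k : ℕ} (x : Finset ℕ → ℤ) {S A : Finset ℕ}
    (hf : eS (powersetCard k (range v)) x S = 0) (hA : A ⊆ range v \ S)
    (h0 : ∀ a ∈ range v, a ∉ S → a ∉ A → eS (powersetCard k (range v)) x (insert a S) = 0) :
    ∑ a ∈ A, eS (powersetCard k (range v)) x (insert a S) = 0 := by
  have h := null_rel (v := v) (k := k) x (S := S)
  rw [hf, mul_zero] at h
  rw [← h]
  refine sum_subset hA fun a ha ha' => ?_
  rw [mem_sdiff] at ha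
  exact h0 a ha.1 ha.2 ha'

end Pool.Agent.Helper43.Halving
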