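import Pool.Agent.Helper43.Halv.Assemble

/-!
# Pigeonhole signings and parity of binomial coefficients
-/

open Finset

namespace Pool.Agent.Helper43.Halving

theorem card_small (v : ℕ) :
    ((range v).powerset.filter (fun T => T.card ≤ 3)).card ≤ (v + 1) ^ 3 := by
  have hsub : (range v).powerset.filter (fun T => T.card ≤ 3) ⊆
      (range (v + 1) ×ˢ (range (v + 1) ×ˢ range (v + 1))).image
        (fun p => ({p.1, p.2.1, p.2.2} : Finset ℕ) ∩ range v) := by
    intro T hT
    rw [mem_filter, mem_powerset] at hT
    obtain ⟨hT1, hT2⟩ := hT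
    rw [mem_image]
    have hT' : T.card = 0 ∨ T.card = 1 ∨ T.card = 2 ∨ T.card = 3 := by omega
    rcases hT' with hT' | hT' | hT' | hT'
    · rw [card_eq_zero] at hT'
      refine ⟨(v, v, v), by simp, ?_⟩
      rw [hT']
      ext a
      simp
    · rw [card_eq_one] at hT'
      obtain ⟨a, rfl⟩ := hT'
      simp only [singleton_subset_iff, mem_range] at hT1
      refine ⟨(a, v, v), by simp; omega, ?_⟩
      ext b
      simp only [mem_inter, mem_insert, mem_singleton, mem_range]
      omega
    · rw [card_eq_two] at hT'
      obtain ⟨a, b, _, rfl⟩ := hT'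
      simp only [insert_subset_iff, singleton_subset_iff, mem_range] at hT1
      refine ⟨(a, b, v), by simp; omega, ?_⟩
      ext c
      simp only [mem_inter, mem_insert, mem_singleton, mem_range]
      omega
    · rw [card_eq_three] at hT'
      obtain ⟨a, b, c, _, _, _, rfl⟩ := hT'
      simp only [insert_subset_iff, singleton_subset_iff, mem_range] at hT1
      refine ⟨(a, b, c), by simp; omega, ?_⟩
      ext d
      simp only [mem_inter, mem_insert, mem_singleton, mem_range]
      omega
  refine (card_le_card hsub).trans (card_image_le.trans ?_)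
  rw [card_product, card_product, card_range]
  exact le_of_eq (by ring)

theorem eS_one (F : Finset (Finset ℕ)) (T : Finset ℕ) :
    eS F (fun _ => 1) T = (F.filter (fun B => T ⊆ B)).card := by
  unfold eS
  simp

theorem eS_neg_one (F : Finset (Finset ℕ)) (T : Finset ℕ) :
    eS F (fun _ => -1) T = -(F.filter (fun B => T ⊆ B)).card := by
  unfold eS
  simp

theorem pigeon {v D : ℕ} (hD : (D + 1) ^ ((v + 1) ^ 3) < 2 ^ D) :
    ∀ (n : ℕ) (F : Finset (Finset ℕ)), F.card = n → (∀ B ∈ F, B ⊆ range v) →
      ∃ x : Finset ℕ → ℤ, (∀ B ∈ F, x B = 1 ∨ x B = -1) ∧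
      ∀ T : Finset ℕ, T.card ≤ 3 → |eS F x T| ≤ D := by
  intro n
  induction n using Nat.strong_induction_on with
  | _ n ih =>
  intro F hFn hF
  rcases Nat.lt_or_ge D F.card with hlt | hge
  · obtain ⟨W, hWF, hW⟩ := exists_subset_card_eq (Nat.le_of_lt hlt)
    set 𝒯 := (range v).powerset.filter (fun T => T.card ≤ 3) with h𝒯
    have hcard : (𝒯.pi (fun _ => range (D + 1))).card < W.powerset.card := by
      rw [card_pi, card_powerset, hW]
      simp only [card_range, prod_const]
      exact lt_of_le_of_lt (Nat.pow_le_pow_right (Nat.succ_pos D) (card_small v)) hD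
    obtain ⟨A, hA, A', hA', hne, heq⟩ := exists_ne_map_eq_of_card_lt_of_maps_to hcard
      (f := fun A => fun T (_ : T ∈ 𝒯) => (A.filter (fun B => T ⊆ B)).card) (by
        intro A hA
        rw [mem_coe, mem_powerset] at hA
        rw [mem_coe, mem_pi]
        intro T _
        rw [mem_range]
        show (A.filter (fun B => T ⊆ B)).card < D + 1
        have : (A.filter (fun B => T ⊆ B)).card ≤ W.card :=
          (card_le_card (filter_subset _ _)).trans (card_le_card hA)
        omega)
    rw [mem_powerset] at hA hA'
    set P := A \ A' with hP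
    set Q := A' \ A with hQ
    have hPQ : Disjoint P Q := by
      rw [disjoint_left]
      intro B hB hB'
      exact (mem_sdiff.1 hB').2 (mem_sdiff.1 hB).1
    have hPF : P ⊆ F := sdiff_subset.trans (hA.trans hWF)
    have hQF : Q ⊆ F := sdiff_subset.trans (hA'.trans hWF)
    have hne' : (P ∪ Q).Nonempty := by
      rw [nonempty_iff_ne_empty]
      intro h
      rw [union_eq_empty, hP, hQ, sdiff_eq_empty_iff_subset, sdiff_eq_empty_iff_subset] at h
      exact hne (h.1.antisymm h.2)
    have hPQF : P ∪ Q ⊆ F := union_subset hPF hQF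
    obtain ⟨x', hx1, hx2⟩ := ih (F \ (P ∪ Q)).card (by
      rw [card_sdiff_of_subset hPQF, ← hFn]
      have h1 := hne'.card_pos
      have h2 := card_le_card hPQF
      omega) (F \ (P ∪ Q)) rfl (fun B hB => hF B (mem_sdiff.1 hB).1)
    refine ⟨fun B => if B ∈ P then 1 else if B ∈ Q then -1 else x' B, ?_, ?_⟩
    · intro B hB
      by_cases h1 : B ∈ P
      · left; simp [h1]
      · by_cases h2 : B ∈ Q
        · right; simp [h1, h2]
        · simp only [h1, h2, if_false]
          exact hx1 B (mem_sdiff.2 ⟨hB, by simp [h1, h2]⟩)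
    · intro T hT
      have hsplit : F = (F \ (P ∪ Q)) ∪ (P ∪ Q) := (sdiff_union_of_subset hPQF).symm
      by_cases hTv : T ⊆ range v
      · have hT𝒯 : T ∈ 𝒯 := mem_filter.2 ⟨mem_powerset.2 hTv, hT⟩
        have hc : (A.filter (fun B => T ⊆ B)).card = (A'.filter (fun B => T ⊆ B)).card :=
          congrFun (congrFun heq T) hT𝒯
        have c1 : (A.filter (fun B => T ⊆ B)).card = (P.filter (fun B => T ⊆ B)).card +
            ((A ∩ A').filter (fun B => T ⊆ B)).card := by
          rw [← card_union_of_disjoint, ← filter_union]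
          · rw [hP, sdiff_union_inter]
          · refine disjoint_filter_filter ?_
            rw [disjoint_left]
            intro B hB hB'
            exact (mem_sdiff.1 hB).2 (mem_inter.1 hB').2
        have c2 : (A'.filter (fun B => T ⊆ B)).card = (Q.filter (fun B => T ⊆ B)).card +
            ((A ∩ A').filter (fun B => T ⊆ B)).card := by
          rw [← card_union_of_disjoint, ← filter_union]
          · rw [hQ, inter_comm A A', sdiff_union_inter]
          · refine disjoint_filter_filter ?_
            rw [disjoint_left]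
            intro B hB hB'
            exact (mem_sdiff.1 hB).2 (mem_inter.1 hB').1
        rw [hsplit, eS_union sdiff_disjoint, eS_union hPQ]
        have e1 : eS (F \ (P ∪ Q)) (fun B => if B ∈ P then 1 else if B ∈ Q then -1 else x' B) T =
            eS (F \ (P ∪ Q)) x' T := by
          refine eS_congr (fun B hB => ?_) T
          rw [mem_sdiff, mem_union, not_or] at hB
          simp only [hB.2.1, hB.2.2, if_false]
        have e2 : eS P (fun B => if B ∈ P then 1 else if B ∈ Q then -1 else x' B) T =
            (P.filter (fun B => T ⊆ B)).card := by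
          rw [← eS_one]
          refine eS_congr (fun B hB => ?_) T
          simp only [hB, if_true]
        have e3 : eS Q (fun B => if B ∈ P then 1 else if B ∈ Q then -1 else x' B) T =
            -(Q.filter (fun B => T ⊆ B)).card := by
          rw [← eS_neg_one]
          refine eS_congr (fun B hB => ?_) T
          simp only [disjoint_right.1 hPQ hB, hB, if_true, if_false]
        rw [e1, e2, e3]
        have : ((P.filter (fun B => T ⊆ B)).card : ℤ) = (Q.filter (fun B => T ⊆ B)).card := by
          omega
        rw [this, add_neg_cancel, add_zero]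
        exact hx2 T hT
      · unfold eS
        rw [filter_eq_empty_iff.2, sum_empty]
        · simp
        · intro B hB hTB
          exact hTv (hTB.trans (hF B hB))
  · refine ⟨fun _ => 1, fun _ _ => Or.inl rfl, fun T _ => ?_⟩
    rw [eS_one, Nat.abs_cast]
    have : (F.filter (fun B => T ⊆ B)).card ≤ F.card := card_le_card (filter_subset _ _)
    exact_mod_cast this.trans hge

/-! ### parity of binomial coefficients -/

private theorem mod_succ (n l : ℕ) : n % 2 ^ (l + 1) = 2 * (n / 2 % 2 ^ l) + n % 2 := by
  rw [pow_succ, mul_comm (2 ^ l) 2, Nat.mod_mul]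
  ring

theorem even_of_level : ∀ {l n m : ℕ}, n % 2 ^ l < m % 2 ^ l → Even (n.choose m) := by
  intro l
  induction l with
  | zero => intro n m h; simp [Nat.mod_one] at h
  | succ l ih =>
    intro n m h
    rw [mod_succ, mod_succ] at h
    have hL := Choose.choose_modEq_choose_mod_mul_choose_div_nat (n := n) (k := m) (p := 2)
    rw [Nat.even_iff]
    rcases Nat.lt_or_ge (n / 2 % 2 ^ l) (m / 2 % 2 ^ l) with h1 | h1
    · have h2 := Nat.even_iff.1 (ih h1)
      unfold Nat.ModEq at hL
      rw [hL, Nat.mul_mod, h2, mul_zero, Nat.zero_mod]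
    · have h3 : n % 2 = 0 := by omega
      have h4 : m % 2 = 1 := by omega
      unfold Nat.ModEq at hL
      rw [hL, h3, h4]
      simp

theorem odd_of_levels : ∀ (n m : ℕ), (∀ l, m % 2 ^ l ≤ n % 2 ^ l) → Odd (n.choose m) := by
  intro n
  induction n using Nat.strong_induction_on with
  | _ n ih =>
  intro m h
  rcases Nat.eq_zero_or_pos n with rfl | hn
  · have h1 := h m
    rw [Nat.mod_eq_of_lt Nat.lt_two_pow_self, Nat.zero_mod] at h1
    have : m = 0 := by omega
    subst this
    decide
  · have h1 : m % 2 ≤ n % 2 := by simpa using h 1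
    have h2 : ∀ l, m / 2 % 2 ^ l ≤ n / 2 % 2 ^ l := by
      intro l
      have := h (l + 1)
      rw [mod_succ, mod_succ] at this
      omega
    have h3 := Nat.odd_iff.1 (ih (n / 2) (by omega) (m / 2) h2)
    have hL := Choose.choose_modEq_choose_mod_mul_choose_div_nat (n := n) (k := m) (p := 2)
    unfold Nat.ModEq at hL
    rw [Nat.odd_iff, hL, Nat.mul_mod, h3]
    rcases Nat.mod_two_eq_zero_or_one n with h4 | h4 <;>
      rcases Nat.mod_two_eq_zero_or_one m with h5 | h5
    · rw [h4, h5]; decide
    · omega
    · rw [h4, h5]; decide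
    · rw [h4, h5]; decide

theorem exists_level {v k : ℕ} (hk : 3 < k) (hv : k < v)
    (h : ∀ i ∈ range 4, Even ((v - i).choose (k - i))) :
    ∃ l, 3 ≤ v % 2 ^ l ∧ v % 2 ^ l < k % 2 ^ l := by
  by_contra hcon
  push Not at hcon
  by_cases hb : ∃ l, v % 2 ^ l < k % 2 ^ l
  · -- the largest borrow level
    have hbd : ∀ l, v % 2 ^ l < k % 2 ^ l → l ≤ v := by
      intro l hl
      by_contra hlv
      push Not at hlv
      have h1 : v < 2 ^ l := lt_of_lt_of_le Nat.lt_two_pow_self
        (Nat.pow_le_pow_right (by norm_num) hlv.le)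
      rw [Nat.mod_eq_of_lt h1, Nat.mod_eq_of_lt (hv.trans h1)] at hl
      omega
    classical
    obtain ⟨l₀, hl₀⟩ := hb
    set l := Nat.findGreatest (fun l => v % 2 ^ l < k % 2 ^ l) v with hl
    have hl1 : v % 2 ^ l < k % 2 ^ l :=
      Nat.findGreatest_spec (P := fun l => v % 2 ^ l < k % 2 ^ l) (hbd l₀ hl₀) hl₀
    have hl2 : ∀ l', l < l' → k % 2 ^ l' ≤ v % 2 ^ l' := by
      intro l' hl'
      by_contra hc
      push Not at hc
      have := Nat.le_findGreatest (P := fun l => v % 2 ^ l < k % 2 ^ l) (hbd l' hc) hc
      omega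
    have hl3 : v % 2 ^ l ≤ 2 := by
      by_contra hc
      push Not at hc
      have := hcon l hc
      omega
    set i := v % 2 ^ l + 1 with hi
    have hodd : Odd ((v - i).choose (k - i)) := by
      refine odd_of_levels _ _ fun l' => ?_
      rcases Nat.lt_or_ge l l' with hll | hll
      · -- high levels
        have h1 := hl2 l' hll
        have hdvd : 2 ^ l ∣ 2 ^ l' := Nat.pow_dvd_pow 2 hll.le
        have h2 : v % 2 ^ l' % 2 ^ l = v % 2 ^ l := Nat.mod_mod_of_dvd v hdvd
        have h3 : k % 2 ^ l' % 2 ^ l = k % 2 ^ l := Nat.mod_mod_of_dvd k hdvd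
        have h4 : k % 2 ^ l ≤ k % 2 ^ l' := by
          rw [← h3]
          exact Nat.mod_le _ _
        have h5 : i ≤ k % 2 ^ l' := by omega
        have h6 : i ≤ v % 2 ^ l' := by omega
        have h7 : (k - i) % 2 ^ l' = k % 2 ^ l' - i := by
          have e : k - i = (k % 2 ^ l' - i) + 2 ^ l' * (k / 2 ^ l') := by
            have := Nat.mod_add_div k (2 ^ l')
            omega
          rw [e, Nat.add_mul_mod_self_left, Nat.mod_eq_of_lt]
          have := Nat.mod_lt k (Nat.two_pow_pos l')
          omega
        have h8 : (v - i) % 2 ^ l' = v % 2 ^ l' - i := by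
          have e : v - i = (v % 2 ^ l' - i) + 2 ^ l' * (v / 2 ^ l') := by
            have := Nat.mod_add_div v (2 ^ l')
            omega
          rw [e, Nat.add_mul_mod_self_left, Nat.mod_eq_of_lt]
          have := Nat.mod_lt v (Nat.two_pow_pos l')
          omega
        rw [h7, h8]
        omega
      · -- low levels
        have h1 : (v - i) % 2 ^ l' = 2 ^ l' - 1 := by
          have h2 : v - i + 1 = 2 ^ l * (v / 2 ^ l) := by
            have := Nat.mod_add_div v (2 ^ l)
            omega
          have h3 : 2 ^ l' ∣ v - i + 1 := by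
            rw [h2]
            exact (Nat.pow_dvd_pow 2 hll).mul_right _
          obtain ⟨c, hc⟩ := h3
          have hc0 : c ≠ 0 := by
            rintro rfl
            omega
          obtain ⟨d, rfl⟩ := Nat.exists_eq_succ_of_ne_zero hc0
          have h4 : v - i = (2 ^ l' - 1) + 2 ^ l' * d := by
            have h5 : 2 ^ l' * (d + 1) = 2 ^ l' * d + 2 ^ l' := by ring
            have h6 := Nat.two_pow_pos l'
            rw [Nat.succ_eq_add_one, h5] at hc
            omega
          rw [h4, Nat.add_mul_mod_self_left, Nat.mod_eq_of_lt]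
          have := Nat.two_pow_pos l'
          omega
        rw [h1]
        have := Nat.mod_lt (k - i) (Nat.two_pow_pos l')
        omega
    have heven := h i (by rw [mem_range]; omega)
    exact (Nat.not_even_iff_odd.2 hodd) heven
  · push Not at hb
    have hodd := odd_of_levels v k hb
    have heven := h 0 (by simp)
    rw [Nat.sub_zero, Nat.sub_zero] at heven
    exact (Nat.not_even_iff_odd.2 hodd) heven

end Pool.Agent.Helper43.Halving
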