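import Mathlib

/-!
# Signings of set families with vanishing sums (halving conjecture, t = 3)
-/

open Finset

namespace Pool.Agent.Helper43.Halving

/-- signed count of the members of `F` containing `T` -/
def eS (F : Finset (Finset ℕ)) (x : Finset ℕ → ℤ) (T : Finset ℕ) : ℤ :=
  ∑ B ∈ F.filter (fun B => T ⊆ B), x B

/-- `F` has a signing all of whose `T`-sums with `|T| < s` vanish -/
def HF (s : ℕ) (F : Finset (Finset ℕ)) : Prop :=
  ∃ x : Finset ℕ → ℤ, (∀ B ∈ F, x B = 1 ∨ x B = -1) ∧
    ∀ T : Finset ℕ, T.card < s → eS F x T = 0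

theorem HF.mono {s s' : ℕ} {F : Finset (Finset ℕ)} (h : HF s F) (hs : s' ≤ s) : HF s' F := by
  obtain ⟨x, h1, h2⟩ := h
  exact ⟨x, h1, fun T hT => h2 T (by omega)⟩

theorem HF_empty (s : ℕ) : HF s ∅ := ⟨fun _ => 1, by simp, by simp [eS]⟩

theorem HF_zero (F : Finset (Finset ℕ)) : HF 0 F :=
  ⟨fun _ => 1, by simp, fun T hT => absurd hT (by omega)⟩

theorem eS_congr {F : Finset (Finset ℕ)} {x y : Finset ℕ → ℤ} (h : ∀ B ∈ F, x B = y B)
    (T : Finset ℕ) : eS F x T = eS F y T := by
  unfold eS
  exact sum_congr rfl fun B hB => h B (mem_filter.1 hB).1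

theorem HF_fiber {ι : Type*} [DecidableEq ι] {s : ℕ} (F : Finset (Finset ℕ))
    (κ : Finset ℕ → ι) (h : ∀ i, HF s (F.filter (fun B => κ B = i))) : HF s F := by
  choose x hx1 hx2 using h
  refine ⟨fun B => x (κ B) B, ?_, ?_⟩
  · intro B hB
    exact hx1 (κ B) B (mem_filter.2 ⟨hB, rfl⟩)
  · intro T hT
    unfold eS
    rw [← sum_fiberwise_of_maps_to (s := F.filter (fun B => T ⊆ B)) (t := F.image κ) (g := κ)
      (fun B hB => mem_image_of_mem κ (mem_filter.1 hB).1)]
    refine sum_eq_zero fun i _ => ?_
    rw [← hx2 i T hT]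
    unfold eS
    rw [filter_filter, filter_filter]
    refine sum_congr ?_ ?_
    · ext B
      simp only [mem_filter]
      tauto
    · intro B hB
      rw [mem_filter] at hB
      rw [hB.2.1]

theorem HF_congr_set {s : ℕ} {F G : Finset (Finset ℕ)} (h : F = G) (hF : HF s F) : HF s G :=
  h ▸ hF

/-- transport along an injection -/
theorem HF_image {s k : ℕ} {X : Finset ℕ} (φ : ℕ → ℕ) (hφ : Set.InjOn φ X)
    (h : HF s (powersetCard k X)) : HF s (powersetCard k (X.image φ)) := by
  obtain ⟨x, h1, h2⟩ := h
  set ψ : ℕ → ℕ := Function.invFunOn φ X with hψ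
  have hψφ : ∀ a ∈ X, ψ (φ a) = a := fun a ha => hφ.leftInvOn_invFunOn ha
  have hφψ : ∀ b ∈ X.image φ, φ (ψ b) = b := by
    intro b hb
    obtain ⟨a, ha, rfl⟩ := mem_image.1 hb
    rw [hψφ a ha]
  have hψX : ∀ b ∈ X.image φ, ψ b ∈ X := by
    intro b hb
    obtain ⟨a, ha, rfl⟩ := mem_image.1 hb
    rw [hψφ a ha]; exact ha
  have hψinj : Set.InjOn ψ (X.image φ) := by
    intro b hb c hc hbc
    rw [← hφψ b hb, ← hφψ c hc, hbc]
  have im1 : ∀ B, B ⊆ X.image φ → (B.image ψ).image φ = B := by
    intro B hB
    rw [image_image]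
    ext b
    simp only [mem_image, Function.comp]
    constructor
    · rintro ⟨c, hc, rfl⟩
      rw [hφψ c (hB hc)]; exact hc
    · intro hb
      exact ⟨b, hb, hφψ b (hB hb)⟩
  have im2 : ∀ A, A ⊆ X → (A.image φ).image ψ = A := by
    intro A hA
    rw [image_image]
    ext a
    simp only [mem_image, Function.comp]
    constructor
    · rintro ⟨c, hc, rfl⟩
      rw [hψφ c (hA hc)]; exact hc
    · intro ha
      exact ⟨a, ha, hψφ a (hA ha)⟩
  have sub1 : ∀ B, B ⊆ X.image φ → B.image ψ ⊆ X := by
    intro B hB a ha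
    obtain ⟨b, hb, rfl⟩ := mem_image.1 ha
    exact hψX b (hB hb)
  have c1 : ∀ B, B ⊆ X.image φ → (B.image ψ).card = B.card := fun B hB =>
    card_image_of_injOn (hψinj.mono (by exact_mod_cast hB))
  have c2 : ∀ A, A ⊆ X → (A.image φ).card = A.card := fun A hA =>
    card_image_of_injOn (hφ.mono (by exact_mod_cast hA))
  refine ⟨fun B => x (B.image ψ), ?_, ?_⟩
  · intro B hB
    rw [mem_powersetCard] at hB
    exact h1 _ (mem_powersetCard.2 ⟨sub1 B hB.1, (c1 B hB.1).trans hB.2⟩)
  · intro T hT
    by_cases hTX : T ⊆ X.image φ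
    · rw [← h2 (T.image ψ) (by rw [c1 T hTX]; exact hT)]
      unfold eS
      refine sum_nbij' (fun B => B.image ψ) (fun A => A.image φ) ?_ ?_ ?_ ?_ ?_
      · intro B hB
        rw [mem_filter, mem_powersetCard] at hB ⊢
        exact ⟨⟨sub1 B hB.1.1, (c1 B hB.1.1).trans hB.1.2⟩, image_subset_image hB.2⟩
      · intro A hA
        rw [mem_filter, mem_powersetCard] at hA ⊢
        refine ⟨⟨image_subset_image hA.1.1, (c2 A hA.1.1).trans hA.1.2⟩, ?_⟩
        rw [← im1 T hTX]
        exact image_subset_image hA.2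
      · intro B hB
        rw [mem_filter, mem_powersetCard] at hB
        exact im1 B hB.1.1
      · intro A hA
        rw [mem_filter, mem_powersetCard] at hA
        exact im2 A hA.1.1
      · intro B _
        rfl
    · unfold eS
      rw [filter_eq_empty_iff.2, sum_empty]
      intro B hB hTB
      exact hTX (hTB.trans (mem_powersetCard.1 hB).1)

theorem HF_card {s k : ℕ} {X Y : Finset ℕ} (hc : X.card = Y.card)
    (h : HF s (powersetCard k X)) : HF s (powersetCard k Y) := by
  let e : X ≃ Y := Finset.equivOfCardEq hc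
  let φ : ℕ → ℕ := fun n => if hn : n ∈ X then (e ⟨n, hn⟩ : ℕ) else n
  have hφ : Set.InjOn φ X := by
    intro a ha b hb hab
    have ha' : a ∈ X := ha
    have hb' : b ∈ X := hb
    simp only [φ, ha', hb', dif_pos] at hab
    have := e.injective (Subtype.ext hab)
    exact congrArg Subtype.val this
  have himg : X.image φ = Y := by
    ext b
    simp only [mem_image]
    constructor
    · rintro ⟨a, ha, rfl⟩
      simp only [φ, ha, dif_pos]
      exact (e ⟨a, ha⟩).2
    · intro hb
      refine ⟨(e.symm ⟨b, hb⟩ : ℕ), (e.symm ⟨b, hb⟩).2, ?_⟩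
      simp only [φ, (e.symm ⟨b, hb⟩).2, dif_pos]
      simp
  rw [← himg]
  exact HF_image φ hφ h

/-- Halving statement on `n` points. -/
def H (s k n : ℕ) : Prop := HF s (powersetCard k (range n))

theorem H.of_card {s k n : ℕ} (h : H s k n) {X : Finset ℕ} (hX : X.card = n) :
    HF s (powersetCard k X) :=
  HF_card (by rw [card_range, hX]) h

theorem H_of_gt {s k n : ℕ} (h : n < k) : H s k n := by
  unfold H
  rw [powersetCard_eq_empty.2 (by simpa using h)]
  exact HF_empty s

/-- derived -/
theorem H.derived {s k n : ℕ} (h : H (s + 1) (k + 1) (n + 1)) : H s k n := by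
  obtain ⟨x, h1, h2⟩ := h
  refine ⟨fun B => x (insert n B), ?_, ?_⟩
  · intro B hB
    rw [mem_powersetCard] at hB
    have hn : n ∉ B := fun h => by simpa using hB.1 h
    refine h1 _ (mem_powersetCard.2 ⟨?_, by rw [card_insert_of_notMem hn, hB.2]⟩)
    rw [range_add_one]
    exact insert_subset_insert _ hB.1
  · intro T hT
    by_cases hnT : T ⊆ range n
    · have hn : n ∉ T := fun h => by simpa using hnT h
      rw [← h2 (insert n T) (by rw [card_insert_of_notMem hn]; omega)]
      unfold eS
      refine sum_nbij' (fun B => insert n B) (fun B => B.erase n) ?_ ?_ ?_ ?_ ?_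
      · intro B hB
        rw [mem_filter, mem_powersetCard] at hB ⊢
        have hn : n ∉ B := fun h => by simpa using hB.1.1 h
        refine ⟨⟨?_, by rw [card_insert_of_notMem hn, hB.1.2]⟩, insert_subset_insert _ hB.2⟩
        rw [range_add_one]
        exact insert_subset_insert _ hB.1.1
      · intro B hB
        rw [mem_filter, mem_powersetCard] at hB ⊢
        have hnB : n ∈ B := hB.2 (mem_insert_self _ _)
        refine ⟨⟨?_, by rw [card_erase_of_mem hnB, hB.1.2]; rfl⟩, ?_⟩
        · intro a ha
          rw [mem_erase] at ha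
          have := hB.1.1 ha.2
          rw [mem_range] at this ⊢
          omega
        · intro a ha
          rw [mem_erase]
          exact ⟨fun h => hn (h ▸ ha), hB.2 (mem_insert_of_mem ha)⟩
      · intro B hB
        rw [mem_filter, mem_powersetCard] at hB
        have hn : n ∉ B := fun h => by simpa using hB.1.1 h
        exact erase_insert hn
      · intro B hB
        rw [mem_filter, mem_powersetCard] at hB
        exact insert_erase (hB.2 (mem_insert_self _ _))
      · intro B _
        rfl
    · unfold eS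
      rw [filter_eq_empty_iff.2, sum_empty]
      intro B hB hTB
      exact hnT (hTB.trans (mem_powersetCard.1 hB).1)

/-- residual -/
theorem H.residual {s k n : ℕ} (h : H (s + 1) k (n + 1)) : H s k n := by
  obtain ⟨x, h1, h2⟩ := h
  have hsub : powersetCard k (range n) ⊆ powersetCard k (range (n + 1)) :=
    powersetCard_mono (range_subset_range.2 (Nat.le_succ n))
  refine ⟨x, fun B hB => h1 B (hsub hB), ?_⟩
  intro T hT
  by_cases hnT : T ⊆ range n
  · have hn : n ∉ T := fun h => by simpa using hnT h
    have e1 := h2 T (by omega)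
    have e2 := h2 (insert n T) (by rw [card_insert_of_notMem hn]; omega)
    unfold eS at e1 e2 ⊢
    have hsplit : (powersetCard k (range (n + 1))).filter (fun B => T ⊆ B) =
        (powersetCard k (range n)).filter (fun B => T ⊆ B) ∪
        (powersetCard k (range (n + 1))).filter (fun B => insert n T ⊆ B) := by
      ext B
      simp only [mem_union, mem_filter, mem_powersetCard, insert_subset_iff]
      constructor
      · rintro ⟨⟨hB1, hB2⟩, hB3⟩
        by_cases hnB : n ∈ B
        · exact Or.inr ⟨⟨hB1, hB2⟩, hnB, hB3⟩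
        · refine Or.inl ⟨⟨?_, hB2⟩, hB3⟩
          intro a ha
          have := hB1 ha
          rw [mem_range] at this ⊢
          have : a ≠ n := fun h => hnB (h ▸ ha)
          omega
      · rintro (⟨⟨hB1, hB2⟩, hB3⟩ | ⟨⟨hB1, hB2⟩, -, hB3⟩)
        · exact ⟨⟨hB1.trans (range_subset_range.2 (Nat.le_succ n)), hB2⟩, hB3⟩
        · exact ⟨⟨hB1, hB2⟩, hB3⟩
    have hdisj : Disjoint ((powersetCard k (range n)).filter (fun B => T ⊆ B))
        ((powersetCard k (range (n + 1))).filter (fun B => insert n T ⊆ B)) := by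
      rw [disjoint_left]
      intro B hB hB'
      rw [mem_filter, mem_powersetCard] at hB hB'
      have := hB.1.1 (hB'.2 (mem_insert_self n T))
      simp at this
    rw [hsplit, sum_union hdisj, e2, add_zero] at e1
    exact e1
  · unfold eS
    rw [filter_eq_empty_iff.2, sum_empty]
    intro B hB hTB
    exact hnT (hTB.trans (mem_powersetCard.1 hB).1)

/-- sums with forbidden elements also vanish -/
theorem eS_avoid {s : ℕ} {F : Finset (Finset ℕ)} {x : Finset ℕ → ℤ}
    (h2 : ∀ T : Finset ℕ, T.card < s → eS F x T = 0) :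
    ∀ (A T : Finset ℕ), A.card + T.card < s →
      ∑ B ∈ F.filter (fun B => T ⊆ B ∧ Disjoint A B), x B = 0 := by
  intro A
  induction A using Finset.induction_on with
  | empty =>
    intro T hT
    have := h2 T (by simpa using hT)
    unfold eS at this
    simpa using this
  | insert a A ha ih =>
    intro T hT
    rw [card_insert_of_notMem ha] at hT
    have e1 := ih T (by omega)
    have e2 := ih (insert a T) (by
      have := card_insert_le a T
      omega)
    have hsplit : F.filter (fun B => T ⊆ B ∧ Disjoint A B) =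
        F.filter (fun B => T ⊆ B ∧ Disjoint (insert a A) B) ∪
        F.filter (fun B => insert a T ⊆ B ∧ Disjoint A B) := by
      ext B
      simp only [mem_union, mem_filter, insert_subset_iff, disjoint_insert_left]
      tauto
    have hdisj : Disjoint (F.filter (fun B => T ⊆ B ∧ Disjoint (insert a A) B))
        (F.filter (fun B => insert a T ⊆ B ∧ Disjoint A B)) := by
      rw [disjoint_left]
      intro B hB hB'
      simp only [mem_filter, insert_subset_iff, disjoint_insert_left] at hB hB'
      exact hB.2.2.1 hB'.2.1.1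
    rw [hsplit, sum_union hdisj, e2, add_zero] at e1
    exact e1

/-- complement -/
theorem H.compl {s k n : ℕ} (hk : k ≤ n) (h : H s k n) : H s (n - k) n := by
  obtain ⟨x, h1, h2⟩ := h
  refine ⟨fun B => x (range n \ B), ?_, ?_⟩
  · intro B hB
    rw [mem_powersetCard] at hB
    refine h1 _ (mem_powersetCard.2 ⟨sdiff_subset, ?_⟩)
    rw [card_sdiff_of_subset hB.1, card_range, hB.2]
    omega
  · intro T hT
    by_cases hTX : T ⊆ range n
    · have := eS_avoid h2 T ∅ (by simpa using hT)
      rw [← this]
      unfold eS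
      refine sum_nbij' (fun B => range n \ B) (fun B => range n \ B) ?_ ?_ ?_ ?_ ?_
      · intro B hB
        rw [mem_filter, mem_powersetCard] at hB ⊢
        refine ⟨⟨sdiff_subset, ?_⟩, empty_subset _, ?_⟩
        · rw [card_sdiff_of_subset hB.1.1, card_range, hB.1.2]
          omega
        · rw [disjoint_left]
          intro a ha ha'
          exact (mem_sdiff.1 ha').2 (hB.2 ha)
      · intro B hB
        rw [mem_filter, mem_powersetCard] at hB ⊢
        refine ⟨⟨sdiff_subset, ?_⟩, ?_⟩
        · rw [card_sdiff_of_subset hB.1.1, card_range, hB.1.2]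
        · intro a ha
          exact mem_sdiff.2 ⟨hTX ha, disjoint_left.1 hB.2.2 ha⟩
      · intro B hB
        rw [mem_filter, mem_powersetCard] at hB
        exact Finset.sdiff_sdiff_eq_self hB.1.1
      · intro B hB
        rw [mem_filter, mem_powersetCard] at hB
        exact Finset.sdiff_sdiff_eq_self hB.1.1
      · intro B _
        rfl
    · unfold eS
      rw [filter_eq_empty_iff.2, sum_empty]
      intro B hB hTB
      exact hTX (hTB.trans (mem_powersetCard.1 hB).1)

/-- The product of two families on disjoint ground sets. -/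
theorem HF_prod {s₁ s₂ : ℕ} {Y Z : Finset ℕ} (hYZ : Disjoint Y Z) {F G : Finset (Finset ℕ)}
    (hF : ∀ A ∈ F, A ⊆ Y) (hG : ∀ A ∈ G, A ⊆ Z) (h1 : HF s₁ F) (h2 : HF s₂ G)
    {P : Finset (Finset ℕ)} (hP : ∀ B, B ∈ P ↔ B ⊆ Y ∪ Z ∧ B ∩ Y ∈ F ∧ B ∩ Z ∈ G) :
    HF (s₁ + s₂) P := by
  obtain ⟨x, x1, x2⟩ := h1
  obtain ⟨y, y1, y2⟩ := h2
  refine ⟨fun B => x (B ∩ Y) * y (B ∩ Z), ?_, ?_⟩
  · intro B hB
    rw [hP] at hB
    rcases x1 _ hB.2.1 with h | h <;> rcases y1 _ hB.2.2 with h' | h' <;> simp [h, h']
  · intro T hT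
    by_cases hTX : T ⊆ Y ∪ Z
    · have key : eS P (fun B => x (B ∩ Y) * y (B ∩ Z)) T = eS F x (T ∩ Y) * eS G y (T ∩ Z) := by
        unfold eS
        rw [sum_mul_sum, ← sum_product']
        refine sum_nbij' (fun B => (B ∩ Y, B ∩ Z)) (fun p => p.1 ∪ p.2) ?_ ?_ ?_ ?_ ?_
        · intro B hB
          rw [mem_filter, hP] at hB
          rw [mem_product, mem_filter, mem_filter]
          exact ⟨⟨hB.1.2.1, inter_subset_inter_right hB.2⟩,
            ⟨hB.1.2.2, inter_subset_inter_right hB.2⟩⟩
        · rintro ⟨A, C⟩ hp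
          rw [mem_product, mem_filter, mem_filter] at hp
          obtain ⟨⟨hA1, hA2⟩, ⟨hC1, hC2⟩⟩ := hp
          have hAY := hF A hA1
          have hCZ := hG C hC1
          have e1 : (A ∪ C) ∩ Y = A := by
            rw [union_inter_distrib_right, inter_eq_left.2 hAY]
            have : C ∩ Y = ∅ := disjoint_iff_inter_eq_empty.1 (hYZ.symm.mono_left hCZ)
            rw [this, union_empty]
          have e2 : (A ∪ C) ∩ Z = C := by
            rw [union_inter_distrib_right, inter_eq_left.2 hCZ]
            have : A ∩ Z = ∅ := disjoint_iff_inter_eq_empty.1 (hYZ.mono_left hAY)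
            rw [this, empty_union]
          rw [mem_filter, hP]
          refine ⟨⟨union_subset_union hAY hCZ, ?_, ?_⟩, ?_⟩
          · rw [e1]; exact hA1
          · rw [e2]; exact hC1
          · intro a ha
            rcases mem_union.1 (hTX ha) with h | h
            · exact mem_union_left _ (hA2 (mem_inter.2 ⟨ha, h⟩))
            · exact mem_union_right _ (hC2 (mem_inter.2 ⟨ha, h⟩))
        · intro B hB
          rw [mem_filter, hP] at hB
          change B ∩ Y ∪ B ∩ Z = B
          rw [← inter_union_distrib_left, inter_eq_left.2 hB.1.1]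
        · rintro ⟨A, C⟩ hp
          rw [mem_product, mem_filter, mem_filter] at hp
          obtain ⟨⟨hA1, hA2⟩, ⟨hC1, hC2⟩⟩ := hp
          have hAY := hF A hA1
          have hCZ := hG C hC1
          have e1 : (A ∪ C) ∩ Y = A := by
            rw [union_inter_distrib_right, inter_eq_left.2 hAY]
            have : C ∩ Y = ∅ := disjoint_iff_inter_eq_empty.1 (hYZ.symm.mono_left hCZ)
            rw [this, union_empty]
          have e2 : (A ∪ C) ∩ Z = C := by
            rw [union_inter_distrib_right, inter_eq_left.2 hCZ]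
            have : A ∩ Z = ∅ := disjoint_iff_inter_eq_empty.1 (hYZ.mono_left hAY)
            rw [this, empty_union]
          change ((A ∪ C) ∩ Y, (A ∪ C) ∩ Z) = (A, C)
          rw [e1, e2]
        · intro B _
          rfl
      rw [key]
      have hcard : (T ∩ Y).card + (T ∩ Z).card = T.card := by
        rw [← card_union_of_disjoint, ← inter_union_distrib_left, inter_eq_left.2 hTX]
        exact (hYZ.mono inter_subset_right inter_subset_right)
      rcases Nat.lt_or_ge (T ∩ Y).card s₁ with h | h
      · rw [x2 _ h, zero_mul]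
      · rw [y2 _ (by omega), mul_zero]
    · unfold eS
      rw [filter_eq_empty_iff.2, sum_empty]
      intro B hB hTB
      exact hTX (hTB.trans ((hP B).1 hB).1)

end Pool.Agent.Helper43.Halving
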