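import Pool.Agent.Helper43.Halv.Assemble

/-!
# Block-symmetric signings: a kernel-friendly evaluator
-/

set_option linter.unusedSimpArgs false

open Finset

namespace Pool.Agent.Helper43.Halving

/-- weights of the elements: the blocks are consecutive intervals -/
def wt : List (ℕ × ℕ) → ℕ → ℕ → ℕ
  | [], _, _ => 0
  | (W, y) :: l, o, b => if b < o + y then W else wt l (o + y) b

/-- total size of the blocks, the last one being `z` -/
def size : List (ℕ × ℕ) → ℕ → ℕ
  | [], z => z
  | (_, y) :: l, z => y + size l z

/-- number of `c`-subsets of a `y`-set above a given `t`-subset -/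
def bin (y t c : ℕ) : ℕ := if t ≤ c then (y - t).choose (c - t) else 0

/-- inner loop -/
def inner (W : ℕ) (g : ℕ → ℕ → ℕ) : List ℕ → ℕ → ℕ → ℕ
  | [], _, _ => 0
  | b :: r, k, a => b * g k a + (match k with
    | 0 => 0
    | k + 1 => inner W g r k (a + W))

/-- table row -/
def row (y t : ℕ) : List ℕ := (List.range (y + 1)).map (bin y t)

/-- the evaluator -/
def ev (p : ℕ → Bool) (z : ℕ) : List (ℕ × ℕ) → List ℕ → ℕ → ℕ → ℕ
  | [], [], _, _ => 0
  | [], t :: _, k, a => if p a then bin z t k else 0
  | _ :: _, [], _, _ => 0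
  | (W, y) :: l, t :: ts, k, a => inner W (ev p z l ts) (row y t) k a

/-- trace of `T` on the blocks -/
def tvec : List (ℕ × ℕ) → ℕ → ℕ → Finset ℕ → List ℕ
  | [], z, o, T => [(T ∩ Ico o (o + z)).card]
  | (_, y) :: l, z, o, T => (T ∩ Ico o (o + y)).card :: tvec l z (o + y) T

theorem inner_eq (W : ℕ) (g : ℕ → ℕ → ℕ) : ∀ (r : List ℕ) (k a : ℕ),
    inner W g r k a = ∑ c ∈ range (k + 1), r.getD c 0 * g (k - c) (a + W * c) := by
  intro r
  induction r with
  | nil => intro k a; simp [inner]
  | cons b r ih =>
    intro k a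
    cases k with
    | zero => simp [inner]
    | succ k =>
      rw [sum_range_succ']
      simp only [inner, List.getD_cons_zero, List.getD_cons_succ, Nat.sub_zero, mul_zero, add_zero]
      rw [ih, add_comm]
      congr 1
      refine sum_congr rfl fun c _ => ?_
      rw [Nat.add_sub_add_right]
      congr 2
      ring

theorem row_getD {y t : ℕ} (ht : t ≤ y) (c : ℕ) : (row y t).getD c 0 = bin y t c := by
  unfold row
  rw [List.getD_eq_getElem?_getD, List.getElem?_map]
  rcases Nat.lt_or_ge c (y + 1) with h | h
  · rw [List.getElem?_range h]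
    rfl
  · rw [List.getElem?_eq_none (by simpa using h)]
    simp only [Option.map_none, Option.getD_none]
    unfold bin
    split_ifs with h'
    · exact (Nat.choose_eq_zero_of_lt (by omega)).symm
    · rfl

theorem card_above' {X T : Finset ℕ} (hT : T ⊆ X) (k : ℕ) :
    ((powersetCard k X).filter (fun B => T ⊆ B)).card = bin X.card T.card k := by
  unfold bin
  split_ifs with h
  · have h1 : (X \ T).card = X.card - T.card := card_sdiff_of_subset hT
    rw [← h1, ← card_powersetCard]
    refine card_nbij' (fun B => B \ T) (fun B => B ∪ T) ?_ ?_ ?_ ?_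
    · intro B hB
      rw [mem_coe, mem_filter, mem_powersetCard] at hB
      rw [mem_coe, mem_powersetCard]
      exact ⟨sdiff_subset_sdiff hB.1.1 (Subset.refl T),
        by rw [card_sdiff_of_subset hB.2, hB.1.2]⟩
    · intro B hB
      rw [mem_coe, mem_powersetCard] at hB
      rw [mem_coe, mem_filter, mem_powersetCard]
      refine ⟨⟨union_subset (hB.1.trans sdiff_subset) hT, ?_⟩, subset_union_right⟩
      rw [card_union_of_disjoint, hB.2]
      · omega
      · rw [disjoint_left]
        intro a ha
        exact (mem_sdiff.1 (hB.1 ha)).2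
    · intro B hB
      rw [mem_coe, mem_filter] at hB
      exact sdiff_union_of_subset hB.2
    · intro B hB
      rw [mem_coe, mem_powersetCard] at hB
      show (B ∪ T) \ T = B
      rw [union_sdiff_right]
      refine sdiff_eq_self_of_disjoint ?_
      rw [disjoint_left]
      intro a ha
      exact (mem_sdiff.1 (hB.1 ha)).2
  · rw [card_eq_zero, filter_eq_empty_iff]
    intro B hB hTB
    rw [mem_powersetCard] at hB
    have := card_le_card hTB
    omega

theorem count_eq (p : ℕ → Bool) (z : ℕ) : ∀ (l : List (ℕ × ℕ)) (o k a : ℕ) (T : Finset ℕ),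
    ((powersetCard k (Ico o (o + size l z))).filter (fun B => T ∩ Ico o (o + size l z) ⊆ B ∧
      p (a + ∑ b ∈ B, wt l o b) = true)).card = ev p z l (tvec l z o T) k a := by
  intro l
  induction l with
  | nil =>
    intro o k a T
    show ((powersetCard k (Ico o (o + z))).filter (fun B => T ∩ Ico o (o + z) ⊆ B ∧
      p (a + ∑ b ∈ B, 0) = true)).card = if p a then bin z (T ∩ Ico o (o + z)).card k else 0
    simp only [sum_const_zero, add_zero]
    by_cases h : p a = true
    · simp only [h, and_true, if_true]
      have := card_above' (X := Ico o (o + z)) (T := T ∩ Ico o (o + z)) inter_subset_right k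
      rw [this, Nat.card_Ico, Nat.add_sub_cancel_left]
    · simp [h]
  | cons q l ih =>
    obtain ⟨W, y⟩ := q
    intro o k a T
    show ((powersetCard k (Ico o (o + (y + size l z)))).filter
      (fun B => T ∩ Ico o (o + (y + size l z)) ⊆ B ∧
      p (a + ∑ b ∈ B, wt ((W, y) :: l) o b) = true)).card =
      inner W (ev p z l (tvec l z (o + y) T)) (row y (T ∩ Ico o (o + y)).card) k a
    rw [inner_eq]
    have hty : (T ∩ Ico o (o + y)).card ≤ y := by
      have := card_le_card (inter_subset_right (s₁ := T) (s₂ := Ico o (o + y)))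
      rw [Nat.card_Ico] at this
      omega
    set Y := Ico o (o + y) with hY
    set Z := Ico (o + y) (o + y + size l z) with hZ
    have hX : Ico o (o + (y + size l z)) = Y ∪ Z := by
      rw [hY, hZ, Ico_union_Ico_eq_Ico (by omega) (by omega), add_assoc]
    have hYZ : Disjoint Y Z := by
      rw [disjoint_left]
      intro b hb hb'
      rw [hY, mem_Ico] at hb
      rw [hZ, mem_Ico] at hb'
      omega
    rw [hX]
    have hwY : ∀ b ∈ Y, wt ((W, y) :: l) o b = W := by
      intro b hb
      rw [hY, mem_Ico] at hb
      simp only [wt]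
      rw [if_pos hb.2]
    have hwZ : ∀ b ∈ Z, wt ((W, y) :: l) o b = wt l (o + y) b := by
      intro b hb
      rw [hZ, mem_Ico] at hb
      simp only [wt]
      rw [if_neg (by omega)]
    have hsum : ∀ B1 B2 : Finset ℕ, B1 ⊆ Y → B2 ⊆ Z → ∑ b ∈ B1 ∪ B2, wt ((W, y) :: l) o b =
        W * B1.card + ∑ b ∈ B2, wt l (o + y) b := by
      intro B1 B2 h1 h2
      rw [sum_union (disjoint_of_subset_left h1 (disjoint_of_subset_right h2 hYZ)),
        sum_congr rfl (fun b hb => hwY b (h1 hb)), sum_const, smul_eq_mul,
        sum_congr rfl (fun b hb => hwZ b (h2 hb)), mul_comm]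
    rw [card_eq_sum_card_fiberwise (f := fun B => (B ∩ Y).card) (t := range (k + 1))]
    · refine sum_congr rfl fun c hc => ?_
      rw [mem_range] at hc
      rw [row_getD hty, ← ih (o + y) (k - c) (a + W * c) T, ← hZ]
      have hc1 := card_above' (X := Y) (T := T ∩ Y) inter_subset_right c
      rw [hY, Nat.card_Ico, Nat.add_sub_cancel_left, ← hY] at hc1
      rw [← hc1, ← card_product]
      refine card_nbij' (fun B => (B ∩ Y, B ∩ Z)) (fun q => q.1 ∪ q.2) ?_ ?_ ?_ ?_
      · intro B hB
        simp only [coe_filter, mem_filter, mem_powersetCard, Set.mem_ofPred_eq, mem_coe, coe_product,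
          Set.mem_prod] at hB ⊢
        obtain ⟨⟨⟨h1, h2⟩, h3, h4⟩, h5⟩ := hB
        have hB' : (B ∩ Y) ∪ (B ∩ Z) = B := by
          rw [← inter_union_distrib_left]
          exact inter_eq_left.2 h1
        have hcard : (B ∩ Y).card + (B ∩ Z).card = k := by
          rw [← card_union_of_disjoint, hB', h2]
          exact disjoint_of_subset_left inter_subset_right
            (disjoint_of_subset_right inter_subset_right hYZ)
        refine ⟨⟨⟨inter_subset_right, h5⟩, ?_⟩, ⟨inter_subset_right, by omega⟩, ?_, ?_⟩
        · intro b hb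
          rw [mem_inter] at hb ⊢
          exact ⟨h3 (mem_inter.2 ⟨hb.1, mem_union_left _ hb.2⟩), hb.2⟩
        · intro b hb
          rw [mem_inter] at hb ⊢
          exact ⟨h3 (mem_inter.2 ⟨hb.1, mem_union_right _ hb.2⟩), hb.2⟩
        · have := hsum (B ∩ Y) (B ∩ Z) inter_subset_right inter_subset_right
          rw [hB', h5] at this
          rw [this] at h4
          rw [add_assoc]
          exact h4
      · intro q hq
        obtain ⟨B1, B2⟩ := q
        simp only [coe_filter, mem_filter, mem_powersetCard, Set.mem_ofPred_eq, mem_coe, coe_product,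
          Set.mem_prod] at hq ⊢
        obtain ⟨⟨⟨h1, h2⟩, h3⟩, ⟨h4, h5⟩, h6, h7⟩ := hq
        have hd : Disjoint B1 B2 := disjoint_of_subset_left h1 (disjoint_of_subset_right h4 hYZ)
        refine ⟨⟨⟨union_subset_union h1 h4, ?_⟩, ?_, ?_⟩, ?_⟩
        · rw [card_union_of_disjoint hd, h2, h5]
          omega
        · intro b hb
          rw [mem_inter, mem_union] at hb
          rcases hb.2 with hb' | hb'
          · exact mem_union_left _ (h3 (mem_inter.2 ⟨hb.1, hb'⟩))
          · exact mem_union_right _ (h6 (mem_inter.2 ⟨hb.1, hb'⟩))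
        · rw [hsum B1 B2 h1 h4, h2, ← add_assoc]
          exact h7
        · have : (B1 ∪ B2) ∩ Y = B1 := by
            rw [union_inter_distrib_right, inter_eq_left.2 h1, union_eq_left]
            intro b hb
            rw [mem_inter] at hb
            exact absurd hb.2 (disjoint_right.1 hYZ (h4 hb.1))
          rw [this, h2]
      · intro B hB
        simp only [coe_filter, mem_filter, mem_powersetCard, Set.mem_ofPred_eq] at hB
        show (B ∩ Y) ∪ (B ∩ Z) = B
        rw [← inter_union_distrib_left]
        exact inter_eq_left.2 hB.1.1.1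
      · intro q hq
        obtain ⟨B1, B2⟩ := q
        simp only [coe_filter, mem_filter, mem_powersetCard, Set.mem_ofPred_eq, mem_coe, coe_product,
          Set.mem_prod] at hq ⊢
        obtain ⟨⟨⟨h1, h2⟩, h3⟩, ⟨h4, h5⟩, h6, h7⟩ := hq
        have e1 : (B1 ∪ B2) ∩ Y = B1 := by
          rw [union_inter_distrib_right, inter_eq_left.2 h1, union_eq_left]
          intro b hb
          rw [mem_inter] at hb
          exact absurd hb.2 (disjoint_right.1 hYZ (h4 hb.1))
        have e2 : (B1 ∪ B2) ∩ Z = B2 := by
          rw [union_inter_distrib_right, inter_eq_left.2 h4, union_eq_right]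
          intro b hb
          rw [mem_inter] at hb
          exact absurd hb.2 (disjoint_left.1 hYZ (h1 hb.1))
        rw [e1, e2]
    · intro B hB
      simp only [coe_filter, mem_filter, mem_powersetCard, Set.mem_ofPred_eq] at hB
      rw [mem_coe, mem_range]
      show (B ∩ Y).card < k + 1
      have := card_le_card (inter_subset_left (s₁ := B) (s₂ := Y))
      omega

/-- all traces -/
def comps : List (ℕ × ℕ) → ℕ → ℕ → List (List ℕ)
  | [], z, n => if n ≤ z then [[n]] else []
  | (_, y) :: l, z, n => (List.range (min y n + 1)).flatMap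
      (fun t => (comps l z (n - t)).map (fun ts => t :: ts))

theorem tvec_mem (z : ℕ) : ∀ (l : List (ℕ × ℕ)) (o : ℕ) (T : Finset ℕ),
    tvec l z o T ∈ comps l z (T ∩ Ico o (o + size l z)).card := by
  intro l
  induction l with
  | nil =>
    intro o T
    show [(T ∩ Ico o (o + z)).card] ∈ (if (T ∩ Ico o (o + z)).card ≤ z then
      [[(T ∩ Ico o (o + z)).card]] else [])
    rw [if_pos]
    · exact List.mem_singleton.2 rfl
    · have := card_le_card (inter_subset_right (s₁ := T) (s₂ := Ico o (o + z)))
      rw [Nat.card_Ico] at this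
      omega
  | cons q l ih =>
    obtain ⟨W, y⟩ := q
    intro o T
    simp only [tvec, size, comps]
    have h1 := ih (o + y) T
    have h2 : (T ∩ Ico o (o + (y + size l z))).card =
        (T ∩ Ico o (o + y)).card + (T ∩ Ico (o + y) (o + y + size l z)).card := by
      rw [← card_union_of_disjoint, ← inter_union_distrib_left,
        Ico_union_Ico_eq_Ico (by omega) (by omega), add_assoc]
      rw [disjoint_left]
      intro b hb hb'
      rw [mem_inter, mem_Ico] at hb hb'
      omega
    have h3 : (T ∩ Ico o (o + y)).card ≤ y := by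
      have := card_le_card (inter_subset_right (s₁ := T) (s₂ := Ico o (o + y)))
      rw [Nat.card_Ico] at this
      omega
    rw [List.mem_flatMap]
    refine ⟨(T ∩ Ico o (o + y)).card, ?_, ?_⟩
    · rw [List.mem_range]
      omega
    · rw [List.mem_map]
      refine ⟨_, ?_, rfl⟩
      have e : (T ∩ Ico o (o + (y + size l z))).card - (T ∩ Ico o (o + y)).card =
          (T ∩ Ico (o + y) (o + y + size l z)).card := by omega
      rw [e]
      exact h1

/-- vanishing for triples suffices -/
theorem H_of_three {v k : ℕ} (hk : 4 ≤ k) (x : Finset ℕ → ℤ)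
    (hx : ∀ B ∈ powersetCard k (range v), x B = 1 ∨ x B = -1)
    (h3 : ∀ T ⊆ range v, T.card = 3 → eS (powersetCard k (range v)) x T = 0) :
    H 4 k v := by
  have step : ∀ j : ℕ, j < 3 → (∀ T ⊆ range v, T.card = j + 1 →
      eS (powersetCard k (range v)) x T = 0) → ∀ T ⊆ range v, T.card = j →
      eS (powersetCard k (range v)) x T = 0 := by
    intro j hj ih T hT hTj
    have h := null_rel (v := v) (k := k) x (S := T)
    rw [sum_eq_zero (fun a ha => by
      rw [mem_sdiff] at ha
      refine ih _ (insert_subset ha.1 hT) ?_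
      rw [card_insert_of_notMem ha.2, hTj])] at h
    have h0 : ((k : ℤ) - T.card) ≠ 0 := by
      rw [hTj]
      omega
    rcases mul_eq_zero.1 h.symm with h | h
    · exact absurd h h0
    · exact h
  have h2 := step 2 (by norm_num) h3
  have h1 := step 1 (by norm_num) h2
  have h0 := step 0 (by norm_num) h1
  refine ⟨x, hx, fun T hT => ?_⟩
  by_cases hTv : T ⊆ range v
  · have hc : T.card = 0 ∨ T.card = 1 ∨ T.card = 2 ∨ T.card = 3 := by omega
    rcases hc with hc | hc | hc | hc
    · exact h0 T hTv hc
    · exact h1 T hTv hc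
    · exact h2 T hTv hc
    · exact h3 T hTv hc
  · unfold eS
    rw [filter_eq_empty_iff.2, sum_empty]
    intro B hB hTB
    exact hTv (hTB.trans (mem_powersetCard.1 hB).1)

/-- the criterion -/
theorem H_of_check {v k : ℕ} (hk : 4 ≤ k) (p : ℕ → Bool) (z : ℕ)
    (l : List (ℕ × ℕ)) (hsize : size l z = v) (N : ℕ) (hN : (v - 3).choose (k - 3) = 2 * N)
    (hcheck : (comps l z 3).all (fun t => ev p z l t k 0 == N) = true) : H 4 k v := by
  refine H_of_three hk (fun B => if p (∑ b ∈ B, wt l 0 b) then 1 else -1) ?_ ?_
  · intro B _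
    split_ifs
    · exact Or.inl rfl
    · exact Or.inr rfl
  · intro T hT hT3
    have hX : Ico 0 (0 + size l z) = range v := by
      rw [hsize, zero_add, range_eq_Ico]
    have h1 := count_eq p z l 0 k 0 T
    have h2 := tvec_mem z l 0 T
    rw [hX, inter_eq_left.2 hT] at h1 h2
    rw [hT3] at h2
    have h3 := List.all_eq_true.1 hcheck _ h2
    rw [beq_iff_eq] at h3
    rw [h3] at h1
    have h4 := card_above hT (by omega : T.card ≤ k)
    rw [hT3, hN] at h4
    unfold eS
    rw [sum_ite]
    simp only [sum_const, nsmul_eq_mul, mul_one, mul_neg]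
    rw [filter_filter, filter_filter]
    have h5 : ((powersetCard k (range v)).filter
        (fun B => T ⊆ B ∧ p (∑ b ∈ B, wt l 0 b) = true)).card = N := by
      rw [← h1]
      simp only [zero_add]
    have h6 := card_filter_add_card_filter_not
      (s := (powersetCard k (range v)).filter (fun B => T ⊆ B))
      (fun B => p (∑ b ∈ B, wt l 0 b) = true)
    rw [filter_filter, filter_filter, h4, h5] at h6
    rw [h5]
    have h7 : ((powersetCard k (range v)).filter
        (fun B => T ⊆ B ∧ ¬ p (∑ b ∈ B, wt l 0 b) = true)).card = N := by omega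
    rw [h7]
    ring

end Pool.Agent.Helper43.Halving
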