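import Pool.Agent.Helper43.Halv.Blocks

/-!
# The same evaluator through raw recursors and packed rows
-/

open Finset

namespace Pool.Agent.Helper43.Halving

/-- inner loop, raw -/
noncomputable def fin1 (W : ℕ) (g : ℕ → ℕ → ℕ) (r : List ℕ) : ℕ → ℕ → ℕ :=
  List.rec (motive := fun _ => ℕ → ℕ → ℕ) (fun _ _ => 0)
    (fun b _ ih k a => Nat.casesOn (motive := fun _ => ℕ) b
      (Nat.casesOn (motive := fun _ => ℕ) k 0 (fun k' => ih k' (Nat.add a W)))
      (fun _ => Nat.add (Nat.mul b (g k a))
      (Nat.casesOn (motive := fun _ => ℕ) k 0 (fun k' => ih k' (Nat.add a W))))) r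

/-- evaluator, raw -/
noncomputable def fev (m Z : ℕ) (L : List (ℕ × List ℕ)) : ℕ → ℕ → ℕ :=
  List.rec (motive := fun _ => ℕ → ℕ → ℕ)
    (fun k a => Nat.mul (Nat.land (Nat.shiftRight m a) 1)
      (Nat.land (Nat.shiftRight Z (Nat.mul 8 k)) 255))
    (fun q _ ih => fin1 q.1 ih q.2) L

theorem fin1_eq (W : ℕ) (g : ℕ → ℕ → ℕ) : ∀ (r : List ℕ) (k a : ℕ),
    fin1 W g r k a = inner W g r k a := by
  intro r
  induction r with
  | nil => intro k a; rfl
  | cons b r ih =>
    intro k a
    cases b with
    | zero =>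
      cases k with
      | zero =>
        show 0 = 0 * g 0 a + 0
        simp
      | succ k =>
        show fin1 W g r k (a + W) = 0 * g (k + 1) a + inner W g r k (a + W)
        rw [ih]
        simp
    | succ b =>
      cases k with
      | zero => rfl
      | succ k =>
        show (b + 1) * g (k + 1) a + fin1 W g r k (a + W) =
          (b + 1) * g (k + 1) a + inner W g r k (a + W)
        rw [ih]

/-- packed row -/
def pack : List ℕ → ℕ
  | [] => 0
  | b :: r => b + 256 * pack r

theorem pack_get : ∀ (r : List ℕ), (∀ b ∈ r, b < 256) → ∀ k : ℕ,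
    Nat.land (Nat.shiftRight (pack r) (Nat.mul 8 k)) 255 = r.getD k 0 := by
  intro r
  induction r with
  | nil =>
    intro _ k
    show (0 >>> (8 * k)) &&& 255 = 0
    rw [Nat.zero_shiftRight, Nat.zero_and]
  | cons b r ih =>
    intro h k
    have hb : b < 256 := h b List.mem_cons_self
    have ih' := ih (fun c hc => h c (List.mem_cons_of_mem _ hc))
    have h255 : ∀ n : ℕ, n &&& 255 = n % 256 := fun n => by
      have := Nat.and_two_pow_sub_one_eq_mod n 8
      norm_num at this
      exact this
    cases k with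
    | zero =>
      show ((b + 256 * pack r) >>> 0) &&& 255 = b
      rw [Nat.shiftRight_zero, h255]
      omega
    | succ k =>
      have e := ih' k
      show ((b + 256 * pack r) >>> (8 * (k + 1))) &&& 255 = r.getD k 0
      rw [← e]
      show ((b + 256 * pack r) >>> (8 * (k + 1))) &&& 255 = (pack r >>> (8 * k)) &&& 255
      congr 1
      rw [Nat.shiftRight_eq_div_pow, Nat.shiftRight_eq_div_pow]
      have e1 : 2 ^ (8 * (k + 1)) = 256 * 2 ^ (8 * k) := by
        rw [mul_add, pow_add]
        norm_num
        ring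
      rw [e1, ← Nat.div_div_eq_div_mul]
      congr 1
      omega

/-- the rows attached to a trace -/
def rowsOf : List (ℕ × ℕ) → List ℕ → List (ℕ × List ℕ)
  | (W, y) :: l, t :: ts => (W, row y t) :: rowsOf l ts
  | [], _ => []
  | _ :: _, [] => []

/-- the last entry of a trace -/
def lastOf : List (ℕ × ℕ) → List ℕ → ℕ
  | [], t :: _ => t
  | _ :: l, _ :: ts => lastOf l ts
  | _, [] => 0

theorem ev_eq_fev (m z : ℕ) (hz : ∀ t ≤ z, ∀ b ∈ row z t, b < 256) :
    ∀ (l : List (ℕ × ℕ)) (n : ℕ) (ts : List ℕ), ts ∈ comps l z n → ∀ k a : ℕ,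
      ev (fun a => Nat.testBit m a) z l ts k a =
      fev m (pack (row z (lastOf l ts))) (rowsOf l ts) k a := by
  intro l
  induction l with
  | nil =>
    intro n ts hts k a
    unfold comps at hts
    split_ifs at hts with h
    · rw [List.mem_singleton] at hts
      subst hts
      show (if Nat.testBit m a = true then bin z n k else 0) =
        Nat.mul (Nat.land (Nat.shiftRight m a) 1)
          (Nat.land (Nat.shiftRight (pack (row z n)) (Nat.mul 8 k)) 255)
      rw [pack_get _ (hz n h), row_getD h]
      have e1 : Nat.land (Nat.shiftRight m a) 1 = if Nat.testBit m a = true then 1 else 0 := by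
        show (m >>> a) &&& 1 = _
        rw [Nat.and_one_is_mod, Nat.testBit_eq_decide_div_mod_eq, Nat.shiftRight_eq_div_pow]
        rcases Nat.mod_two_eq_zero_or_one (m / 2 ^ a) with h | h <;> simp [h]
      rw [e1]
      split_ifs
      · exact (Nat.one_mul _).symm
      · exact (Nat.zero_mul _).symm
    · simp at hts
  | cons q l ih =>
    obtain ⟨W, y⟩ := q
    intro n ts hts k a
    unfold comps at hts
    rw [List.mem_flatMap] at hts
    obtain ⟨t, _, hts⟩ := hts
    rw [List.mem_map] at hts
    obtain ⟨ts', hts', rfl⟩ := hts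
    have h1 := ih _ ts' hts'
    show inner W (ev (fun a => Nat.testBit m a) z l ts') (row y t) k a =
      fin1 W (fev m (pack (row z (lastOf l ts'))) (rowsOf l ts')) (row y t) k a
    rw [fin1_eq]
    congr 1
    funext k a
    exact h1 k a

/-- the criterion, fast form -/
theorem H_of_fast {v k : ℕ} (hk : 4 ≤ k) (m z : ℕ) (l : List (ℕ × ℕ)) (hsize : size l z = v)
    (N : ℕ) (hN : (v - 3).choose (k - 3) = 2 * N)
    (hz : ∀ t ≤ z, ∀ b ∈ row z t, b < 256) (LL : List (ℕ × List (ℕ × List ℕ)))
    (hLL : (comps l z 3).map (fun t => (pack (row z (lastOf l t)), rowsOf l t)) = LL)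
    (hcheck : LL.all (fun q => Nat.beq (fev m q.1 q.2 k 0) N) = true) : H 4 k v := by
  refine H_of_check hk (fun a => Nat.testBit m a) z l hsize N hN ?_
  rw [List.all_eq_true]
  intro t ht
  rw [beq_iff_eq, ev_eq_fev m z hz l 3 t ht]
  have h1 : (pack (row z (lastOf l t)), rowsOf l t) ∈ LL := by
    rw [← hLL]
    exact List.mem_map_of_mem ht
  exact Nat.eq_of_beq_eq_true (List.all_eq_true.1 hcheck _ h1)

end Pool.Agent.Helper43.Halving
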