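import Pool.Agent.Helper43.Halv.Basic

/-!
# Gadgets
-/

open Finset

namespace Pool.Agent.Helper43.Halving

/-- the family of a gadget -/
def fam : List (ℕ × ℕ) → Finset ℕ → Finset (Finset ℕ)
  | [], C => {C}
  | p :: ps, C => fam ps (insert p.1 C) ∪ fam ps (insert p.2 C)

/-- the elements moved by a gadget -/
def supp : List (ℕ × ℕ) → Finset ℕ
  | [] => ∅
  | p :: ps => insert p.1 (insert p.2 (supp ps))

/-- the sign pattern of a gadget -/
def sgn : List (ℕ × ℕ) → Finset ℕ → ℤ
  | [], _ => 1
  | p :: ps, B => (if p.1 ∈ B then 1 else -1) * sgn ps B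

/-- all moved elements are distinct -/
def Good : List (ℕ × ℕ) → Prop
  | [] => True
  | p :: ps => p.1 ≠ p.2 ∧ p.1 ∉ supp ps ∧ p.2 ∉ supp ps ∧ Good ps

theorem sgn_or (ps : List (ℕ × ℕ)) (B : Finset ℕ) : sgn ps B = 1 ∨ sgn ps B = -1 := by
  induction ps with
  | nil => exact Or.inl rfl
  | cons p ps ih =>
    unfold sgn
    rcases ih with h | h <;> rw [h] <;> split_ifs <;> simp

theorem card_supp {ps : List (ℕ × ℕ)} (h : Good ps) : (supp ps).card = 2 * ps.length := by
  induction ps with
  | nil => rfl
  | cons p ps ih =>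
    obtain ⟨h1, h2, h3, h4⟩ := h
    unfold supp
    rw [card_insert_of_notMem, card_insert_of_notMem h3, ih h4, List.length_cons]
    · ring
    · rw [mem_insert]
      rintro (h | h)
      · exact h1 h
      · exact h2 h

theorem subset_of_mem_fam {ps : List (ℕ × ℕ)} : ∀ {C B : Finset ℕ}, B ∈ fam ps C →
    C ⊆ B ∧ B ⊆ C ∪ supp ps := by
  induction ps with
  | nil =>
    intro C B hB
    unfold fam at hB
    rw [mem_singleton] at hB
    subst hB
    simp [supp]
  | cons p ps ih =>
    intro C B hB
    unfold fam at hB
    rw [mem_union] at hB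
    rcases hB with hB | hB
    · obtain ⟨h1, h2⟩ := ih hB
      refine ⟨(subset_insert _ _).trans h1, fun b hb => ?_⟩
      have := h2 hb
      unfold supp
      simp only [mem_union, mem_insert] at this ⊢
      tauto
    · obtain ⟨h1, h2⟩ := ih hB
      refine ⟨(subset_insert _ _).trans h1, fun b hb => ?_⟩
      have := h2 hb
      unfold supp
      simp only [mem_union, mem_insert] at this ⊢
      tauto

theorem sdiff_of_mem_fam {ps : List (ℕ × ℕ)} {C B : Finset ℕ} (hC : Disjoint C (supp ps))
    (hB : B ∈ fam ps C) : B \ supp ps = C := by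
  obtain ⟨h1, h2⟩ := subset_of_mem_fam hB
  ext b
  rw [mem_sdiff]
  constructor
  · rintro ⟨hb, hb'⟩
    have := h2 hb
    rw [mem_union] at this
    exact this.resolve_right hb'
  · intro hb
    exact ⟨h1 hb, disjoint_left.1 hC hb⟩

theorem card_fam_le (ps : List (ℕ × ℕ)) : ∀ C : Finset ℕ, (fam ps C).card ≤ 2 ^ ps.length := by
  induction ps with
  | nil => intro C; simp [fam]
  | cons p ps ih =>
    intro C
    unfold fam
    refine (card_union_le _ _).trans ?_
    rw [List.length_cons, pow_succ]
    have h1 := ih (insert p.1 C)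
    have h2 := ih (insert p.2 C)
    omega

theorem card_of_mem_fam {ps : List (ℕ × ℕ)} : ∀ {C B : Finset ℕ}, Good ps →
    Disjoint C (supp ps) → B ∈ fam ps C → B.card = C.card + ps.length := by
  induction ps with
  | nil =>
    intro C B _ _ hB
    unfold fam at hB
    rw [mem_singleton] at hB
    subst hB
    simp
  | cons p ps ih =>
    intro C B hg hC hB
    obtain ⟨h1, h2, h3, h4⟩ := hg
    unfold fam at hB
    unfold supp at hC
    rw [disjoint_insert_right, disjoint_insert_right] at hC
    obtain ⟨c1, c2, c3⟩ := hC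
    rw [mem_union] at hB
    rcases hB with hB | hB
    · rw [ih h4 (disjoint_insert_left.2 ⟨h2, c3⟩) hB, card_insert_of_notMem c1, List.length_cons]
      ring
    · rw [ih h4 (disjoint_insert_left.2 ⟨h3, c3⟩) hB, card_insert_of_notMem c2, List.length_cons]
      ring

/-- effect of one pair -/
def chi (p : ℕ × ℕ) (T : Finset ℕ) : ℤ := (if p.1 ∈ T then 1 else 0) - (if p.2 ∈ T then 1 else 0)

theorem ind_sub {a b : ℕ} {Y T : Finset ℕ} (hab : a ≠ b) (ha : a ∉ Y) (hb : b ∉ Y) :
    (if T ⊆ insert a Y then (1 : ℤ) else 0) - (if T ⊆ insert b Y then 1 else 0) =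
      chi (a, b) T * (if T ⊆ insert a (insert b Y) then 1 else 0) := by
  unfold chi
  by_cases h : T ⊆ insert a (insert b Y)
  · have e1 : T ⊆ insert a Y ↔ b ∉ T := by
      constructor
      · intro h1 h2
        have := h1 h2
        rw [mem_insert] at this
        rcases this with h3 | h3
        · exact hab h3.symm
        · exact hb h3
      · intro h1 c hc
        have := h hc
        simp only [mem_insert] at this ⊢
        rcases this with h3 | h3 | h3
        · exact Or.inl h3
        · exact absurd (h3 ▸ hc) h1
        · exact Or.inr h3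
    have e2 : T ⊆ insert b Y ↔ a ∉ T := by
      constructor
      · intro h1 h2
        have := h1 h2
        rw [mem_insert] at this
        rcases this with h3 | h3
        · exact hab h3
        · exact ha h3
      · intro h1 c hc
        have := h hc
        simp only [mem_insert] at this ⊢
        rcases this with h3 | h3 | h3
        · exact absurd (h3 ▸ hc) h1
        · exact Or.inl h3
        · exact Or.inr h3
    simp only [e1, e2, h, if_true, mul_one]
    by_cases h1 : a ∈ T <;> by_cases h2 : b ∈ T <;> simp [h1, h2]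
  · have e1 : ¬ T ⊆ insert a Y := fun h1 => h (h1.trans (insert_subset_insert _
      (subset_insert _ _)))
    have e2 : ¬ T ⊆ insert b Y := fun h1 => h (h1.trans (subset_insert _ _))
    simp [h, e1, e2]

theorem eS_fam {ps : List (ℕ × ℕ)} : ∀ {C : Finset ℕ}, Good ps → Disjoint C (supp ps) →
    ∀ T : Finset ℕ, eS (fam ps C) (sgn ps) T =
      (ps.map (fun p => chi p T)).prod * (if T ⊆ C ∪ supp ps then 1 else 0) := by
  induction ps with
  | nil =>
    intro C _ _ T
    unfold eS fam sgn supp
    rw [filter_singleton]
    by_cases h : T ⊆ C <;> simp [h]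
  | cons p ps ih =>
    intro C hg hC T
    obtain ⟨h1, h2, h3, h4⟩ := hg
    unfold supp at hC
    rw [disjoint_insert_right, disjoint_insert_right] at hC
    obtain ⟨c1, c2, c3⟩ := hC
    have d1 : Disjoint (insert p.1 C) (supp ps) := disjoint_insert_left.2 ⟨h2, c3⟩
    have d2 : Disjoint (insert p.2 C) (supp ps) := disjoint_insert_left.2 ⟨h3, c3⟩
    have hdis : Disjoint (fam ps (insert p.1 C)) (fam ps (insert p.2 C)) := by
      rw [disjoint_left]
      intro B hB hB'
      have m1 : p.1 ∈ B := (subset_of_mem_fam hB).1 (mem_insert_self _ _)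
      have m2 := (subset_of_mem_fam hB').2 m1
      rw [mem_union, mem_insert] at m2
      rcases m2 with (m2 | m2) | m2
      · exact h1 m2
      · exact c1 m2
      · exact h2 m2
    have key : eS (fam (p :: ps) C) (sgn (p :: ps)) T =
        eS (fam ps (insert p.1 C)) (sgn ps) T - eS (fam ps (insert p.2 C)) (sgn ps) T := by
      unfold eS
      have hf : (fam (p :: ps) C).filter (fun B => T ⊆ B) =
          (fam ps (insert p.1 C)).filter (fun B => T ⊆ B) ∪
          (fam ps (insert p.2 C)).filter (fun B => T ⊆ B) := by
        rw [← filter_union]; rfl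
      rw [hf, sum_union (disjoint_filter_filter hdis), sub_eq_add_neg, ← sum_neg_distrib]
      congr 1
      · refine sum_congr rfl fun B hB => ?_
        have m1 : p.1 ∈ B := (subset_of_mem_fam (mem_filter.1 hB).1).1 (mem_insert_self _ _)
        simp [sgn, m1]
      · refine sum_congr rfl fun B hB => ?_
        have m1 : p.1 ∉ B := by
          intro m1
          have m2 := (subset_of_mem_fam (mem_filter.1 hB).1).2 m1
          rw [mem_union, mem_insert] at m2
          rcases m2 with (m2 | m2) | m2
          · exact h1 m2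
          · exact c1 m2
          · exact h2 m2
        simp [sgn, m1]
    rw [key, ih h4 d1 T, ih h4 d2 T, ← mul_sub, insert_union, insert_union,
      ind_sub h1 (by rw [mem_union]; tauto) (by rw [mem_union]; tauto), List.map_cons,
      List.prod_cons]
    have e : C ∪ supp (p :: ps) = insert p.1 (insert p.2 (C ∪ supp ps)) := by
      change C ∪ insert p.1 (insert p.2 (supp ps)) = _
      rw [union_insert, union_insert]
    rw [e]
    ring

/-- the gadget hits `T` -/
def Hit (ps : List (ℕ × ℕ)) (T : Finset ℕ) : Prop := ∀ p ∈ ps, (p.1 ∈ T ↔ p.2 ∉ T)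

theorem chi_abs (p : ℕ × ℕ) (T : Finset ℕ) : |chi p T| ≤ 1 := by
  unfold chi
  split_ifs <;> simp

theorem prod_chi_abs (ps : List (ℕ × ℕ)) (T : Finset ℕ) :
    |(ps.map (fun p => chi p T)).prod| ≤ 1 := by
  induction ps with
  | nil => simp
  | cons p ps ih =>
    rw [List.map_cons, List.prod_cons, abs_mul]
    have h1 := chi_abs p T
    have h2 := abs_nonneg (chi p T)
    have h3 := abs_nonneg ((ps.map (fun p => chi p T)).prod)
    nlinarith

theorem prod_chi_eq_zero {ps : List (ℕ × ℕ)} {T : Finset ℕ} (h : ¬ Hit ps T) :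
    (ps.map (fun p => chi p T)).prod = 0 := by
  unfold Hit at h
  push Not at h
  obtain ⟨p, hp, hpT⟩ := h
  rw [List.prod_eq_zero_iff, List.mem_map]
  refine ⟨p, hp, ?_⟩
  unfold chi
  rcases hpT with ⟨h1, h2⟩ | ⟨h1, h2⟩ <;> simp [h1, h2]

theorem eS_fam_abs {ps : List (ℕ × ℕ)} {C : Finset ℕ} (hg : Good ps) (hC : Disjoint C (supp ps))
    (T : Finset ℕ) : |eS (fam ps C) (sgn ps) T| ≤ 1 := by
  rw [eS_fam hg hC, abs_mul]
  have h1 := prod_chi_abs ps T
  have h2 := abs_nonneg ((ps.map (fun p => chi p T)).prod)
  split_ifs
  · simp only [abs_one, mul_one]; exact h1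
  · simp

theorem eS_fam_zero {ps : List (ℕ × ℕ)} {C : Finset ℕ} (hg : Good ps) (hC : Disjoint C (supp ps))
    {T : Finset ℕ} (h : ¬ Hit ps T) : eS (fam ps C) (sgn ps) T = 0 := by
  rw [eS_fam hg hC, prod_chi_eq_zero h, zero_mul]

theorem prod_chi_one {ps : List (ℕ × ℕ)} {T : Finset ℕ} (h : ∀ p ∈ ps, p.1 ∈ T ∧ p.2 ∉ T) :
    (ps.map (fun p => chi p T)).prod = 1 := by
  induction ps with
  | nil => simp
  | cons p ps ih =>
    rw [List.map_cons, List.prod_cons, ih (fun q hq => h q (List.mem_cons_of_mem _ hq)), mul_one]
    have := h p List.mem_cons_self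
    unfold chi
    simp [this.1, this.2]

theorem eS_fam_one {ps : List (ℕ × ℕ)} {C : Finset ℕ} (hg : Good ps) (hC : Disjoint C (supp ps))
    {T : Finset ℕ} (h : ∀ p ∈ ps, p.1 ∈ T ∧ p.2 ∉ T) (hT : T ⊆ supp ps) :
    eS (fam ps C) (sgn ps) T = 1 := by
  rw [eS_fam hg hC, prod_chi_one h, if_pos (hT.trans subset_union_right), mul_one]

theorem choose_step (n m : ℕ) : n.choose m ≤ (n + 2).choose (m + 1) := by
  rw [Nat.choose_succ_succ']
  refine le_trans ?_ (Nat.le_add_right _ _)
  exact Nat.choose_le_choose m (Nat.le_succ n)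

theorem choose_bound {v k j : ℕ} (hv : 6 ≤ v) (hk : 3 ≤ k) (hj : j ≤ 3) :
    (v - 6).choose (k - 3) ≤ (v - 2 * j).choose (k - j) := by
  have s1 := choose_step (v - 6) (k - 3)
  have s2 := choose_step (v - 4) (k - 2)
  have s3 := choose_step (v - 2) (k - 1)
  have e1 : v - 6 + 2 = v - 4 := by omega
  have e2 : k - 3 + 1 = k - 2 := by omega
  have e3 : v - 4 + 2 = v - 2 := by omega
  have e4 : k - 2 + 1 = k - 1 := by omega
  have e5 : v - 2 + 2 = v := by omega
  have e6 : k - 1 + 1 = k := by omega
  rw [e1, e2] at s1
  rw [e3, e4] at s2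
  rw [e5, e6] at s3
  interval_cases j
  · simpa using s1.trans (s2.trans s3)
  · simpa using s1.trans s2
  · simpa using s1
  · simp

theorem exists_pool {ι : Type*} [DecidableEq ι] {v k : ℕ} (hv : 6 ≤ v) (hk : 3 ≤ k)
    (ps : ι → List (ℕ × ℕ)) (I : Finset ι) :
    (∀ i ∈ I, Good (ps i) ∧ (ps i).length ≤ 3 ∧ supp (ps i) ⊆ range v) →
    8 * I.card ≤ (v - 6).choose (k - 3) →
    ∃ C : ι → Finset ℕ,
      (∀ i ∈ I, C i ∈ powersetCard (k - (ps i).length) (range v \ supp (ps i))) ∧
      (∀ i ∈ I, ∀ j ∈ I, i ≠ j → Disjoint (fam (ps i) (C i)) (fam (ps j) (C j))) := by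
  induction I using Finset.induction_on with
  | empty => intro _ _; exact ⟨fun _ => ∅, by simp, by simp⟩
  | insert i₀ I hi₀ ih =>
    intro hall hcard
    rw [card_insert_of_notMem hi₀] at hcard
    obtain ⟨C, hC1, hC2⟩ := ih (fun i hi => hall i (mem_insert_of_mem hi)) (by omega)
    obtain ⟨g1, g2, g3⟩ := hall i₀ (mem_insert_self _ _)
    set used : Finset (Finset ℕ) := I.biUnion (fun i => fam (ps i) (C i)) with hused
    have hu : used.card ≤ 8 * I.card := by
      refine card_biUnion_le.trans ?_
      rw [mul_comm, ← smul_eq_mul]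
      refine sum_le_card_nsmul _ _ _ fun i hi => ?_
      refine (card_fam_le _ _).trans ?_
      have := (hall i (mem_insert_of_mem hi)).2.1
      calc 2 ^ (ps i).length ≤ 2 ^ 3 := Nat.pow_le_pow_right (by norm_num) this
        _ = 8 := by norm_num
    set bad : Finset (Finset ℕ) := used.image (fun B => B \ supp (ps i₀)) with hbad
    have hb : bad.card ≤ used.card := card_image_le
    have hnum : (powersetCard (k - (ps i₀).length) (range v \ supp (ps i₀))).card
        = (v - 2 * (ps i₀).length).choose (k - (ps i₀).length) := by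
      rw [card_powersetCard, card_sdiff_of_subset g3, card_range, card_supp g1]
    have hlt : bad.card < (powersetCard (k - (ps i₀).length) (range v \ supp (ps i₀))).card := by
      rw [hnum]
      have := choose_bound hv hk g2
      omega
    obtain ⟨C₀, hC₀, hC₀b⟩ := exists_mem_notMem_of_card_lt_card hlt
    have hC₀' := mem_powersetCard.1 hC₀
    have hdisC₀ : Disjoint C₀ (supp (ps i₀)) := by
      rw [disjoint_left]
      intro a ha
      exact (mem_sdiff.1 (hC₀'.1 ha)).2
    have hfree : ∀ i ∈ I, Disjoint (fam (ps i₀) C₀) (fam (ps i) (C i)) := by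
      intro i hi
      rw [disjoint_left]
      intro B hB hB'
      apply hC₀b
      rw [hbad, mem_image]
      exact ⟨B, mem_biUnion.2 ⟨i, hi, hB'⟩, sdiff_of_mem_fam hdisC₀ hB⟩
    refine ⟨Function.update C i₀ C₀, ?_, ?_⟩
    · intro i hi
      by_cases h : i = i₀
      · subst h
        rw [Function.update_self]
        exact hC₀
      · rw [Function.update_of_ne h]
        exact hC1 i ((mem_insert.1 hi).resolve_left h)
    · intro i hi j hj hij
      by_cases h : i = i₀
      · have hj' : j ≠ i₀ := fun h' => hij (h.trans h'.symm)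
        rw [h, Function.update_self, Function.update_of_ne hj']
        exact hfree j ((mem_insert.1 hj).resolve_left hj')
      · rw [Function.update_of_ne h]
        by_cases h' : j = i₀
        · rw [h', Function.update_self]
          exact (hfree i ((mem_insert.1 hi).resolve_left h)).symm
        · rw [Function.update_of_ne h']
          exact hC2 i ((mem_insert.1 hi).resolve_left h) j ((mem_insert.1 hj).resolve_left h') hij

/-- numerical heart: choose the signs rank by rank -/
theorem choose_signs {κ : Type*} [DecidableEq κ] (𝒯 : Finset κ) (M : κ → ℕ) (ρ : κ → ℕ)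
    (r : κ → ℤ) (e : κ → ℕ → κ → ℤ)
    (hM : ∀ t ∈ 𝒯, Even (M t))
    (hown : ∀ t ∈ 𝒯, ∀ m ∈ range (M t), e t m t = 1)
    (hzero : ∀ t ∈ 𝒯, ∀ t' ∈ 𝒯, t' ≠ t → ρ t ≤ ρ t' → ∀ m ∈ range (M t'), e t' m t = 0)
    (hpar : ∀ t ∈ 𝒯, Even (r t + ∑ t' ∈ 𝒯, ∑ m ∈ range (M t'), e t' m t))
    (hbd : ∀ t ∈ 𝒯, |r t| + ∑ t' ∈ 𝒯.filter (fun t' => ρ t' < ρ t),
      ∑ m ∈ range (M t'), |e t' m t| ≤ M t) :
    ∃ s : κ → ℕ → ℤ, (∀ t m, s t m = 1 ∨ s t m = -1) ∧
      ∀ t ∈ 𝒯, r t + ∑ t' ∈ 𝒯, ∑ m ∈ range (M t'), s t' m * e t' m t = 0 := by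
  have main : ∀ n : ℕ, ∃ s : κ → ℕ → ℤ, (∀ t m, s t m = 1 ∨ s t m = -1) ∧
      ∀ t ∈ 𝒯, ρ t < n → r t + ∑ t' ∈ 𝒯, ∑ m ∈ range (M t'), s t' m * e t' m t = 0 := by
    intro n
    induction n with
    | zero => exact ⟨fun _ _ => 1, fun _ _ => Or.inl rfl, fun t _ h => absurd h (by omega)⟩
    | succ n ih =>
      obtain ⟨s, s1, s2⟩ := ih
      set c : κ → ℤ := fun t => r t + ∑ t' ∈ 𝒯.filter (fun t' => ρ t' < n),
        ∑ m ∈ range (M t'), s t' m * e t' m t with hc
      set s' : κ → ℕ → ℤ := fun t m =>
        if ρ t = n then (if (m : ℤ) < ((M t : ℤ) - c t) / 2 then 1 else -1) else s t m with hs'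
      refine ⟨s', ?_, ?_⟩
      · intro t m
        simp only [hs']
        split_ifs
        · exact Or.inl rfl
        · exact Or.inr rfl
        · exact s1 t m
      · intro t ht htn
        rcases Nat.lt_or_ge (ρ t) n with h | h
        · -- old targets
          rw [← s2 t ht h]
          congr 1
          refine sum_congr rfl fun t' ht' => ?_
          refine sum_congr rfl fun m hm => ?_
          by_cases h' : ρ t' = n
          · rw [hzero t ht t' ht' (fun h'' => by rw [h''] at h'; omega) (by omega) m hm,
              mul_zero, mul_zero]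
          · simp only [hs', h', if_false]
        · have hn : ρ t = n := by omega
          -- split the sum
          have split1 : ∑ t' ∈ 𝒯, ∑ m ∈ range (M t'), s' t' m * e t' m t =
              ∑ t' ∈ 𝒯.filter (fun t' => ρ t' < n), ∑ m ∈ range (M t'), s t' m * e t' m t +
              ∑ m ∈ range (M t), s' t m := by
            rw [← sum_filter_add_sum_filter_not 𝒯 (fun t' => ρ t' < n)]
            congr 1
            · refine sum_congr rfl fun t' ht' => ?_
              have := (mem_filter.1 ht').2
              refine sum_congr rfl fun m hm => ?_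
              simp only [hs', show ¬ ρ t' = n by omega, if_false]
            · rw [sum_eq_single t]
              · refine sum_congr rfl fun m hm => ?_
                rw [hown t ht m hm, mul_one]
              · intro t' ht' hne
                refine sum_eq_zero fun m hm => ?_
                have := (mem_filter.1 ht').2
                rw [hzero t ht t' (mem_filter.1 ht').1 hne (by omega) m hm, mul_zero]
              · intro hcon
                exact absurd (mem_filter.2 ⟨ht, by omega⟩) hcon
          have splitc : ∑ t' ∈ 𝒯, ∑ m ∈ range (M t'), e t' m t =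
              ∑ t' ∈ 𝒯.filter (fun t' => ρ t' < n), ∑ m ∈ range (M t'), e t' m t + M t := by
            rw [← sum_filter_add_sum_filter_not 𝒯 (fun t' => ρ t' < n)]
            congr 1
            rw [sum_eq_single t]
            · rw [sum_congr rfl (hown t ht)]
              simp
            · intro t' ht' hne
              refine sum_eq_zero fun m hm => ?_
              have := (mem_filter.1 ht').2
              rw [hzero t ht t' (mem_filter.1 ht').1 hne (by omega) m hm]
            · intro hcon
              exact absurd (mem_filter.2 ⟨ht, by omega⟩) hcon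
          -- bound on c
          have hcb : |c t| ≤ M t := by
            refine le_trans ?_ (hbd t ht)
            rw [hn]
            simp only [hc]
            refine (abs_add_le _ _).trans ?_
            gcongr
            refine (abs_sum_le_sum_abs _ _).trans ?_
            refine sum_le_sum fun t' _ => ?_
            refine (abs_sum_le_sum_abs _ _).trans ?_
            refine sum_le_sum fun m _ => ?_
            rw [abs_mul]
            rcases s1 t' m with h1 | h1 <;> rw [h1] <;> simp
          -- parity of c
          have hcp : Even (c t) := by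
            have h1 := hpar t ht
            rw [splitc] at h1
            have h2 : Even (c t - (r t + ∑ t' ∈ 𝒯.filter (fun t' => ρ t' < n),
                ∑ m ∈ range (M t'), e t' m t)) := by
              simp only [hc]
              rw [add_sub_add_left_eq_sub, ← sum_sub_distrib]
              refine Finset.sum_induction _ Even (fun a b => Even.add) (by simp) fun t' _ => ?_
              rw [← sum_sub_distrib]
              refine Finset.sum_induction _ Even (fun a b => Even.add) (by simp) fun m _ => ?_
              rcases s1 t' m with h3 | h3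
              · rw [h3]; simp
              · rw [h3]
                exact ⟨-e t' m t, by ring⟩
            have h3 : Even ((M t : ℕ) : ℤ) := by
              have := hM t ht
              exact_mod_cast this
            have h4 : c t = (c t - (r t + ∑ t' ∈ 𝒯.filter (fun t' => ρ t' < n),
                ∑ m ∈ range (M t'), e t' m t)) + (r t + (∑ t' ∈ 𝒯.filter (fun t' => ρ t' < n),
                ∑ m ∈ range (M t'), e t' m t + M t)) - M t := by ring
            rw [h4]
            exact (h2.add h1).sub h3
          obtain ⟨m₀, hm₀⟩ := hM t ht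
          obtain ⟨c₀, hc₀⟩ := hcp
          have hMc : ((M t : ℤ) - c t) / 2 = m₀ - c₀ := by
            rw [hm₀, hc₀]
            push_cast
            omega
          rw [abs_le] at hcb
          have hle : 0 ≤ (m₀ : ℤ) - c₀ := by
            rw [hm₀, hc₀] at hcb; push_cast at hcb; omega
          have hle2 : (m₀ : ℤ) - c₀ ≤ M t := by
            rw [hc₀] at hcb
            have : (M t : ℤ) = m₀ + m₀ := by rw [hm₀]; push_cast; rfl
            omega
          obtain ⟨w, hw⟩ : ∃ w : ℕ, (w : ℤ) = (m₀ : ℤ) - c₀ := ⟨((m₀ : ℤ) - c₀).toNat, by omega⟩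
          have hwM : w ≤ M t := by omega
          have own : ∑ m ∈ range (M t), s' t m = - c t := by
            have e1 : ∀ m ∈ range (M t), s' t m = if m < w then 1 else -1 := by
              intro m _
              simp only [hs', hn, if_true]
              rw [hMc, ← hw]
              simp only [Nat.cast_lt]
            rw [sum_congr rfl e1, sum_ite]
            simp only [sum_const, nsmul_eq_mul, mul_one, mul_neg]
            have e2 : (range (M t)).filter (fun m => m < w) = range w := by
              ext m; simp only [mem_filter, mem_range]; omega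
            have e3 : ((range (M t)).filter (fun m => ¬ m < w)).card = M t - w := by
              have := card_filter_add_card_filter_not (s := range (M t)) (fun m => m < w)
              rw [e2, card_range, card_range] at this
              omega
            rw [e2, e3, card_range, Nat.cast_sub hwM, hw, hc₀]
            rw [show (M t : ℤ) = m₀ + m₀ by rw [hm₀]; push_cast; rfl]
            ring
          rw [split1, own]
          simp only [hc]
          ring
  obtain ⟨s, s1, s2⟩ := main (𝒯.sup ρ + 1)
  exact ⟨s, s1, fun t ht => s2 t ht (Nat.lt_succ_of_le (le_sup ht))⟩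

end Pool.Agent.Helper43.Halving
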