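import Pool.Agent.Helper43.Halv.Targets

/-!
# Which gadgets hit which targets
-/

set_option linter.unusedSimpArgs false

open Finset

namespace Pool.Agent.Helper43.Halving

namespace Tg

/-- explicit superset of the earlier targets whose gadgets hit `t` -/
def U (v : ℕ) : Tg → Finset Tg
  | t0 => ∅
  | t1 _ => [t0].toFinset
  | t2a p q => [t0, t1 p, t1 q].toFinset
  | t2b q => [t0, t1 1, t1 q].toFinset ∪ (range v).image (fun x => t2a q x)
  | t3a p q s => [t0, t1 p, t1 q, t1 s, t2a p q, t2a p s, t2a q s].toFinset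
  | t3b q s => [t0, t1 2, t1 q, t1 s, t2a 2 q, t2a 2 s, t2a q s].toFinset ∪
      (range v).image (fun x => t3a q s x)
  | t3c q s => [t0, t1 1, t1 q, t1 s, t2b q, t2b s].toFinset ∪
      ((range v).image (fun x => t2a q x) ∪ ((range v).image (fun x => t2a s x) ∪
      (range v).image (fun x => t3a q x s)))
  | t3d s => [t0, t1 2, t1 3, t1 s, t2a 2 3, t2a 2 s, t2a 3 s].toFinset ∪
      ((range v).image (fun x => t3a 3 s x) ∪ (range v).image (fun x => t3b s x))
  | t3e s => [t0, t1 1, t1 3, t1 s, t2b 3, t2b s].toFinset ∪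
      ((range v).image (fun x => t2a 3 x) ∪ ((range v).image (fun x => t2a s x) ∪
      ((range v).image (fun x => t3a 3 x s) ∪ (range v).image (fun x => t3c s x))))

private theorem ex1 (v q : ℕ) (P : Prop) : (∃ a < v, P ∧ a = q) ↔ (q < v ∧ P) := by
  constructor
  · rintro ⟨a, h1, h2, rfl⟩
    exact ⟨h1, h2⟩
  · rintro ⟨h1, h2⟩
    exact ⟨q, h1, h2, rfl⟩

private theorem ex2 (v q : ℕ) (P Q : Prop) : (∃ a < v, P ∧ Q ∧ a = q) ↔ (q < v ∧ P ∧ Q) := by
  constructor
  · rintro ⟨a, h1, h2, h3, rfl⟩
    exact ⟨h1, h2, h3⟩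
  · rintro ⟨h1, h2, h3⟩
    exact ⟨q, h1, h2, h3, rfl⟩

private theorem ex3 (v q : ℕ) (P Q : Prop) : (∃ a < v, P ∧ a = q ∧ Q) ↔ (q < v ∧ P ∧ Q) := by
  constructor
  · rintro ⟨a, h1, h2, rfl, h3⟩
    exact ⟨h1, h2, h3⟩
  · rintro ⟨h1, h2, h3⟩
    exact ⟨q, h1, h2, rfl, h3⟩

theorem hits_U {v : ℕ} {t t' : Tg} (h : Valid v t) (h' : Valid v t') (hr : rk t' < rk t)
    (hh : Hit (prs t') (S t)) : t' ∈ U v t := by
  cases t <;> cases t' <;> simp only [rk] at hr <;> first
    | omega
    | (simp only [Hit, prs, S, Valid, List.mem_cons, List.not_mem_nil, or_false,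
        forall_eq_or_imp, forall_eq, mem_insert, mem_singleton, true_or, or_true,
        not_true_eq_false] at hh h h'
       simp only [U, List.mem_toFinset, List.mem_cons, List.not_mem_nil, or_false, mem_union,
        mem_image, mem_range, reduceCtorEq, false_or, and_false, exists_false, or_self,
        t1.injEq, t2a.injEq, t2b.injEq, t3a.injEq, t3b.injEq, t3c.injEq, ex1, ex2, ex3]
       first
         | omega
         | skip)

theorem not_hit {v : ℕ} {t t' : Tg} (h : Valid v t) (h' : Valid v t') (hne : t' ≠ t)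
    (hr : rk t ≤ rk t') : ¬ Hit (prs t') (S t) := by
  intro hh
  cases t <;> cases t' <;> simp only [rk] at hr <;> first
    | omega
    | exact hne rfl
    | (simp only [Hit, prs, S, Valid, List.mem_cons, List.not_mem_nil, or_false,
        forall_eq_or_imp, forall_eq, mem_insert, mem_singleton, true_or, or_true,
        not_true_eq_false, notMem_empty, false_iff, not_false_eq_true, not_true_eq_false,
        t1.injEq, t2a.injEq, t2b.injEq, t3a.injEq, t3b.injEq, t3c.injEq, t3d.injEq, t3e.injEq,
        ne_eq] at hh h h' hne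
       first
         | omega
         | exact hh.1.elim
         | exact hh.elim
         | skip)

private theorem su (f : Tg → ℕ) (A B : Finset Tg) :
    ∑ x ∈ A ∪ B, f x ≤ ∑ x ∈ A, f x + ∑ x ∈ B, f x := by
  have := sum_union_inter (s₁ := A) (s₂ := B) (f := f)
  omega

private theorem sl (f : Tg → ℕ) (l : List Tg) : ∑ x ∈ l.toFinset, f x ≤ (l.map f).sum := by
  induction l with
  | nil => simp
  | cons a l ih =>
    rw [List.toFinset_cons, List.map_cons, List.sum_cons]
    by_cases h : a ∈ l.toFinset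
    · rw [insert_eq_of_mem h]
      omega
    · rw [sum_insert h]
      omega

private theorem sc (f : Tg → ℕ) (v c : ℕ) (g : ℕ → Tg) (h : ∀ x, f (g x) = c) :
    ∑ x ∈ (range v).image g, f x ≤ v * c := by
  have h1 : ∑ x ∈ (range v).image g, f x ≤ ((range v).image g).card • c := by
    refine sum_le_card_nsmul _ _ _ fun x hx => ?_
    obtain ⟨a, _, rfl⟩ := mem_image.1 hx
    exact (h a).le
  refine h1.trans ?_
  rw [smul_eq_mul]
  have h2 : ((range v).image g).card ≤ v := card_image_le.trans (card_range v).le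
  exact Nat.mul_le_mul_right c h2

section
variable (v E p q s : ℕ)
private theorem M0 : M v E t0 = E := rfl
private theorem M1 : M v E (t1 p) = 2 * E := rfl
private theorem M2a : M v E (t2a p q) = 6 * E := rfl
private theorem M2b : M v E (t2b q) = 6 * (v * E) + 6 * E := rfl
private theorem M3a : M v E (t3a p q s) = 26 * E := rfl
private theorem M3b : M v E (t3b q s) = 50 * (v * E) + 50 * E := rfl
private theorem M3c : M v E (t3c q s) = 50 * (v * E) + 50 * E := rfl
private theorem M3d : M v E (t3d s) = 50 * (v * (v * E)) + 100 * (v * E) + 50 * E := rfl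
private theorem M3e : M v E (t3e s) = 50 * (v * (v * E)) + 100 * (v * E) + 50 * E := rfl
end

theorem sum_U (v E : ℕ) (t : Tg) : E + ∑ x ∈ U v t, M v E x ≤ M v E t := by
  cases t with
  | t0 => simp [U, M]
  | t1 p =>
    have h := sl (M v E) [t0]
    simp only [List.map_cons, List.map_nil, List.sum_cons, List.sum_nil, M0, M1, M2a, M2b, M3a, M3b, M3c, M3d, M3e] at h
    simp only [U, M0, M1, M2a, M2b, M3a, M3b, M3c, M3d, M3e]
    omega
  | t2a p q =>
    have h := sl (M v E) [t0, t1 p, t1 q]
    simp only [List.map_cons, List.map_nil, List.sum_cons, List.sum_nil, M0, M1, M2a, M2b, M3a, M3b, M3c, M3d, M3e] at h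
    simp only [U, M0, M1, M2a, M2b, M3a, M3b, M3c, M3d, M3e]
    omega
  | t2b q =>
    have h := sl (M v E) [t0, t1 1, t1 q]
    simp only [List.map_cons, List.map_nil, List.sum_cons, List.sum_nil, M0, M1, M2a, M2b, M3a, M3b, M3c, M3d, M3e] at h
    have h1 := sc (M v E) v (6 * E) (fun x => t2a q x) (fun x => rfl)
    have h2 := su (M v E) [t0, t1 1, t1 q].toFinset ((range v).image (fun x => t2a q x))
    simp only [U]
    refine (Nat.add_le_add_left h2 E).trans ?_
    simp only [M0, M1, M2a, M2b, M3a, M3b, M3c, M3d, M3e]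
    rw [show v * (6 * E) = 6 * (v * E) by ring] at h1
    omega
  | t3a p q s =>
    have h := sl (M v E) [t0, t1 p, t1 q, t1 s, t2a p q, t2a p s, t2a q s]
    simp only [List.map_cons, List.map_nil, List.sum_cons, List.sum_nil, M0, M1, M2a, M2b, M3a, M3b, M3c, M3d, M3e] at h
    simp only [U, M0, M1, M2a, M2b, M3a, M3b, M3c, M3d, M3e]
    omega
  | t3b q s =>
    have h := sl (M v E) [t0, t1 2, t1 q, t1 s, t2a 2 q, t2a 2 s, t2a q s]
    simp only [List.map_cons, List.map_nil, List.sum_cons, List.sum_nil, M0, M1, M2a, M2b, M3a, M3b, M3c, M3d, M3e] at h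
    have h1 := sc (M v E) v (26 * E) (fun x => t3a q s x) (fun x => rfl)
    have h2 := su (M v E) [t0, t1 2, t1 q, t1 s, t2a 2 q, t2a 2 s, t2a q s].toFinset
      ((range v).image (fun x => t3a q s x))
    simp only [U]
    refine (Nat.add_le_add_left h2 E).trans ?_
    simp only [M0, M1, M2a, M2b, M3a, M3b, M3c, M3d, M3e]
    rw [show v * (26 * E) = 26 * (v * E) by ring] at h1
    omega
  | t3c q s =>
    have h := sl (M v E) [t0, t1 1, t1 q, t1 s, t2b q, t2b s]
    simp only [List.map_cons, List.map_nil, List.sum_cons, List.sum_nil, M0, M1, M2a, M2b, M3a, M3b, M3c, M3d, M3e] at h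
    have h1 := sc (M v E) v (6 * E) (fun x => t2a q x) (fun x => rfl)
    have h2 := sc (M v E) v (6 * E) (fun x => t2a s x) (fun x => rfl)
    have h3 := sc (M v E) v (26 * E) (fun x => t3a q x s) (fun x => rfl)
    have k1 := su (M v E) ((range v).image (fun x => t2a s x))
      ((range v).image (fun x => t3a q x s))
    have k2 := su (M v E) ((range v).image (fun x => t2a q x))
      ((range v).image (fun x => t2a s x) ∪ (range v).image (fun x => t3a q x s))
    have k3 := su (M v E) [t0, t1 1, t1 q, t1 s, t2b q, t2b s].toFinset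
      ((range v).image (fun x => t2a q x) ∪ ((range v).image (fun x => t2a s x) ∪
      (range v).image (fun x => t3a q x s)))
    simp only [U]
    refine (Nat.add_le_add_left k3 E).trans ?_
    simp only [M0, M1, M2a, M2b, M3a, M3b, M3c, M3d, M3e]
    rw [show v * (6 * E) = 6 * (v * E) by ring] at h1 h2
    rw [show v * (26 * E) = 26 * (v * E) by ring] at h3
    omega
  | t3d s =>
    have h := sl (M v E) [t0, t1 2, t1 3, t1 s, t2a 2 3, t2a 2 s, t2a 3 s]
    simp only [List.map_cons, List.map_nil, List.sum_cons, List.sum_nil, M0, M1, M2a, M2b, M3a, M3b, M3c, M3d, M3e] at h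
    have h1 := sc (M v E) v (26 * E) (fun x => t3a 3 s x) (fun x => rfl)
    have h2 := sc (M v E) v (50 * (v * E) + 50 * E) (fun x => t3b s x) (fun x => rfl)
    have k1 := su (M v E) ((range v).image (fun x => t3a 3 s x))
      ((range v).image (fun x => t3b s x))
    have k2 := su (M v E) [t0, t1 2, t1 3, t1 s, t2a 2 3, t2a 2 s, t2a 3 s].toFinset
      ((range v).image (fun x => t3a 3 s x) ∪ (range v).image (fun x => t3b s x))
    simp only [U]
    refine (Nat.add_le_add_left k2 E).trans ?_
    simp only [M0, M1, M2a, M2b, M3a, M3b, M3c, M3d, M3e]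
    rw [show v * (26 * E) = 26 * (v * E) by ring] at h1
    rw [show v * (50 * (v * E) + 50 * E) = 50 * (v * (v * E)) + 50 * (v * E) by ring] at h2
    omega
  | t3e s =>
    have h := sl (M v E) [t0, t1 1, t1 3, t1 s, t2b 3, t2b s]
    simp only [List.map_cons, List.map_nil, List.sum_cons, List.sum_nil, M0, M1, M2a, M2b, M3a, M3b, M3c, M3d, M3e] at h
    have h1 := sc (M v E) v (6 * E) (fun x => t2a 3 x) (fun x => rfl)
    have h2 := sc (M v E) v (6 * E) (fun x => t2a s x) (fun x => rfl)
    have h3 := sc (M v E) v (26 * E) (fun x => t3a 3 x s) (fun x => rfl)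
    have h4 := sc (M v E) v (50 * (v * E) + 50 * E) (fun x => t3c s x) (fun x => rfl)
    have k1 := su (M v E) ((range v).image (fun x => t3a 3 x s))
      ((range v).image (fun x => t3c s x))
    have k2 := su (M v E) ((range v).image (fun x => t2a s x))
      ((range v).image (fun x => t3a 3 x s) ∪ (range v).image (fun x => t3c s x))
    have k3 := su (M v E) ((range v).image (fun x => t2a 3 x))
      ((range v).image (fun x => t2a s x) ∪
      ((range v).image (fun x => t3a 3 x s) ∪ (range v).image (fun x => t3c s x)))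
    have k4 := su (M v E) [t0, t1 1, t1 3, t1 s, t2b 3, t2b s].toFinset
      ((range v).image (fun x => t2a 3 x) ∪ ((range v).image (fun x => t2a s x) ∪
      ((range v).image (fun x => t3a 3 x s) ∪ (range v).image (fun x => t3c s x))))
    simp only [U]
    refine (Nat.add_le_add_left k4 E).trans ?_
    simp only [M0, M1, M2a, M2b, M3a, M3b, M3c, M3d, M3e]
    rw [show v * (6 * E) = 6 * (v * E) by ring] at h1 h2
    rw [show v * (26 * E) = 26 * (v * E) by ring] at h3
    rw [show v * (50 * (v * E) + 50 * E) = 50 * (v * (v * E)) + 50 * (v * E) by ring] at h4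
    omega

/-- all candidate labels -/
def base (v : ℕ) : Finset Tg :=
  [t0].toFinset ∪ ((range v).image t1 ∪
    ((range v ×ˢ range v).image (fun x => t2a x.1 x.2) ∪
    ((range v).image t2b ∪
    ((range v ×ˢ (range v ×ˢ range v)).image (fun x => t3a x.1 x.2.1 x.2.2) ∪
    ((range v ×ˢ range v).image (fun x => t3b x.1 x.2) ∪
    ((range v ×ˢ range v).image (fun x => t3c x.1 x.2) ∪
    ((range v).image t3d ∪ (range v).image t3e)))))))

open Classical in
/-- the targets -/
noncomputable def targets (v : ℕ) : Finset Tg := (base v).filter (Valid v)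

theorem mem_targets {v : ℕ} {t : Tg} : t ∈ targets v ↔ Valid v t := by
  classical
  unfold targets
  rw [mem_filter, and_iff_right_iff_imp]
  intro h
  cases t <;> simp only [Valid] at h <;>
    simp only [base, List.mem_toFinset, List.mem_cons, List.not_mem_nil, or_false, mem_union,
      mem_image, mem_range, mem_product, reduceCtorEq, false_or, and_false, exists_false,
      or_self, t1.injEq, t2a.injEq, t2b.injEq, t3a.injEq, t3b.injEq, t3c.injEq, t3d.injEq,
      t3e.injEq, exists_eq_right, Prod.exists, true_or]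
  · exact h.2
  · exact ⟨_, _, ⟨by omega, h.2.2⟩, rfl, rfl⟩
  · exact h.2
  · exact ⟨_, _, _, ⟨by omega, by omega, h.2.2.2⟩, rfl, rfl, rfl⟩
  · exact ⟨_, _, ⟨by omega, h.2.2⟩, rfl, rfl⟩
  · exact ⟨_, _, ⟨by omega, h.2.2⟩, rfl, rfl⟩
  · exact h.2
  · exact h.2

private theorem sg {α : Type*} (f : Tg → ℕ) (A : Finset α) (n c : ℕ) (hA : A.card = n)
    (g : α → Tg) (h : ∀ x, f (g x) = c) : ∑ x ∈ A.image g, f x ≤ n * c := by
  have h1 : ∑ x ∈ A.image g, f x ≤ (A.image g).card • c := by
    refine sum_le_card_nsmul _ _ _ fun x hx => ?_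
    obtain ⟨a, _, rfl⟩ := mem_image.1 hx
    exact (h a).le
  refine h1.trans ?_
  rw [smul_eq_mul, ← hA]
  exact Nat.mul_le_mul_right c card_image_le

theorem sum_targets (v E : ℕ) : ∑ t ∈ targets v, M v E t ≤ 241 * (v + 1) ^ 3 * E := by
  classical
  have hsub : targets v ⊆ base v := by
    unfold targets
    exact filter_subset _ _
  refine (sum_le_sum_of_subset hsub).trans ?_
  unfold base
  have c2 : (range v ×ˢ range v).card = v * v := by rw [card_product, card_range]
  have c3 : (range v ×ˢ (range v ×ˢ range v)).card = v * (v * v) := by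
    rw [card_product, card_product, card_range]
  refine (su _ _ _).trans ?_
  refine (Nat.add_le_add_left (su _ _ _) _).trans ?_
  refine (Nat.add_le_add_left (Nat.add_le_add_left (su _ _ _) _) _).trans ?_
  refine (Nat.add_le_add_left (Nat.add_le_add_left (Nat.add_le_add_left (su _ _ _) _) _) _).trans ?_
  refine (Nat.add_le_add_left (Nat.add_le_add_left (Nat.add_le_add_left
    (Nat.add_le_add_left (su _ _ _) _) _) _) _).trans ?_
  refine (Nat.add_le_add_left (Nat.add_le_add_left (Nat.add_le_add_left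
    (Nat.add_le_add_left (Nat.add_le_add_left (su _ _ _) _) _) _) _) _).trans ?_
  refine (Nat.add_le_add_left (Nat.add_le_add_left (Nat.add_le_add_left
    (Nat.add_le_add_left (Nat.add_le_add_left (Nat.add_le_add_left (su _ _ _) _) _) _) _) _) _).trans ?_
  refine (Nat.add_le_add_left (Nat.add_le_add_left (Nat.add_le_add_left
    (Nat.add_le_add_left (Nat.add_le_add_left (Nat.add_le_add_left
    (Nat.add_le_add_left (su _ _ _) _) _) _) _) _) _) _).trans ?_
  have a0 := sl (M v E) [t0]
  have a1 := sg (M v E) (range v) v (2 * E) (card_range v) t1 (fun _ => rfl)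
  have a2 := sg (M v E) _ _ (6 * E) c2 (fun x => t2a x.1 x.2) (fun _ => rfl)
  have a3 := sg (M v E) (range v) v (6 * (v * E) + 6 * E) (card_range v) t2b (fun _ => rfl)
  have a4 := sg (M v E) _ _ (26 * E) c3 (fun x => t3a x.1 x.2.1 x.2.2) (fun _ => rfl)
  have a5 := sg (M v E) _ _ (50 * (v * E) + 50 * E) c2 (fun x => t3b x.1 x.2) (fun _ => rfl)
  have a6 := sg (M v E) _ _ (50 * (v * E) + 50 * E) c2 (fun x => t3c x.1 x.2) (fun _ => rfl)
  have a7 := sg (M v E) (range v) v (50 * (v * (v * E)) + 100 * (v * E) + 50 * E) (card_range v)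
    t3d (fun _ => rfl)
  have a8 := sg (M v E) (range v) v (50 * (v * (v * E)) + 100 * (v * E) + 50 * E) (card_range v)
    t3e (fun _ => rfl)
  simp only [List.map_cons, List.map_nil, List.sum_cons, List.sum_nil, M0, M1, M2a, M2b, M3a, M3b, M3c, M3d, M3e] at a0
  refine (Nat.add_le_add a0 (Nat.add_le_add a1 (Nat.add_le_add a2 (Nat.add_le_add a3
    (Nat.add_le_add a4 (Nat.add_le_add a5 (Nat.add_le_add a6 (Nat.add_le_add a7 a8)))))))).trans ?_
  have e : 241 * (v + 1) ^ 3 * E = 241 * (v * (v * (v * E))) + 723 * (v * (v * E)) +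
    723 * (v * E) + 241 * E := by ring
  rw [e]
  have e1 : v * (2 * E) = 2 * (v * E) := by ring
  have e2 : v * v * (6 * E) = 6 * (v * (v * E)) := by ring
  have e3 : v * (6 * (v * E) + 6 * E) = 6 * (v * (v * E)) + 6 * (v * E) := by ring
  have e4 : v * (v * v) * (26 * E) = 26 * (v * (v * (v * E))) := by ring
  have e5 : v * v * (50 * (v * E) + 50 * E) = 50 * (v * (v * (v * E))) + 50 * (v * (v * E)) := by
    ring
  have e6 : v * (50 * (v * (v * E)) + 100 * (v * E) + 50 * E) = 50 * (v * (v * (v * E))) +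
    100 * (v * (v * E)) + 50 * (v * E) := by ring
  rw [e1, e2, e3, e4, e5, e6]
  omega

end Tg

end Pool.Agent.Helper43.Halving
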