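import Mathlib

/-!
# Numerical estimates
-/

namespace Pool.Agent.Helper43.Halving

theorem num_pow {n : ℕ} (hn : 5 ≤ n) : (4 * n + 4) * (2 ^ n + 2) ^ 3 < (2 ^ n) ^ 4 := by
  induction n, hn using Nat.le_induction with
  | base => norm_num
  | succ n hn ih =>
    have h1 : (2 ^ (n + 1) + 2) ^ 3 ≤ 8 * (2 ^ n + 2) ^ 3 := by
      have : 2 ^ (n + 1) + 2 ≤ 2 * (2 ^ n + 2) := by
        rw [pow_succ]
        omega
      calc (2 ^ (n + 1) + 2) ^ 3 ≤ (2 * (2 ^ n + 2)) ^ 3 := Nat.pow_le_pow_left this 3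
        _ = 8 * (2 ^ n + 2) ^ 3 := by ring
    calc (4 * (n + 1) + 4) * (2 ^ (n + 1) + 2) ^ 3
        ≤ (2 * (4 * n + 4)) * (8 * (2 ^ n + 2) ^ 3) := Nat.mul_le_mul (by omega) h1
      _ = 16 * ((4 * n + 4) * (2 ^ n + 2) ^ 3) := by ring
      _ < 16 * (2 ^ n) ^ 4 := by omega
      _ = (2 ^ (n + 1)) ^ 4 := by rw [pow_succ]; ring

/-- the pigeonhole inequality -/
theorem num_pigeon {n N : ℕ} (hn : 5 ≤ n) (hN : N = 2 ^ n) :
    (8 * N ^ 4 + 1) ^ ((2 * N + 3 + 1) ^ 3) < 2 ^ (8 * N ^ 4) := by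
  have h := num_pow hn
  rw [← hN] at h
  have h1 : 8 * N ^ 4 + 1 ≤ 2 ^ (4 * n + 4) := by
    have h2 : N ^ 4 = 2 ^ (4 * n) := by rw [hN, ← pow_mul]; ring_nf
    have h3 : 1 ≤ 2 ^ (4 * n) := Nat.one_le_two_pow
    rw [h2, pow_add]
    omega
  calc (8 * N ^ 4 + 1) ^ ((2 * N + 3 + 1) ^ 3)
      ≤ (2 ^ (4 * n + 4)) ^ ((2 * N + 3 + 1) ^ 3) := Nat.pow_le_pow_left h1 _
    _ = 2 ^ ((4 * n + 4) * (2 * N + 3 + 1) ^ 3) := by rw [← pow_mul]
    _ < 2 ^ (8 * N ^ 4) := by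
        refine Nat.pow_lt_pow_right (by norm_num) ?_
        have : (2 * N + 3 + 1) ^ 3 = 8 * (N + 2) ^ 3 := by ring
        rw [this]
        calc (4 * n + 4) * (8 * (N + 2) ^ 3) = 8 * ((4 * n + 4) * (N + 2) ^ 3) := by ring
          _ < 8 * N ^ 4 := by omega

theorem num_four {N : ℕ} (hN : 32 ≤ N) : 493568 * ((N + 2) ^ 3 * N ^ 5) ≤ 4 ^ (N - 2) := by
  induction N, hN using Nat.le_induction with
  | base => norm_num
  | succ N hN ih =>
    have h1 : (N + 1 + 2) ^ 3 ≤ 2 * (N + 2) ^ 3 := by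
      have h2 : 32 * (N + 3) ≤ 33 * (N + 2) := by omega
      have h3 := Nat.pow_le_pow_left h2 3
      rw [mul_pow, mul_pow] at h3
      norm_num at h3
      have : N + 1 + 2 = N + 3 := by ring
      rw [this]
      omega
    have h2 : (N + 1) ^ 5 ≤ 2 * N ^ 5 := by
      have h2 : 32 * (N + 1) ≤ 33 * N := by omega
      have h3 := Nat.pow_le_pow_left h2 5
      rw [mul_pow, mul_pow] at h3
      norm_num at h3
      omega
    have e : N + 1 - 2 = (N - 2) + 1 := by omega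
    rw [e, pow_succ]
    calc 493568 * ((N + 1 + 2) ^ 3 * (N + 1) ^ 5)
        ≤ 493568 * ((2 * (N + 2) ^ 3) * (2 * N ^ 5)) :=
          Nat.mul_le_mul_left _ (Nat.mul_le_mul h1 h2)
      _ = 493568 * ((N + 2) ^ 3 * N ^ 5) * 4 := by ring
      _ ≤ 4 ^ (N - 2) * 4 := Nat.mul_le_mul_right _ ih

theorem num_choose {N : ℕ} (hN : 32 ≤ N) :
    123392 * ((N + 2) ^ 3 * N ^ 4) ≤ (2 * N - 5).choose (N - 3) := by
  obtain ⟨m, rfl⟩ : ∃ m, N = m + 3 := ⟨N - 3, by omega⟩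
  have e1 : 2 * (m + 3) - 5 = 2 * m + 1 := by omega
  have e2 : m + 3 - 3 = m := by omega
  rw [e1, e2]
  have h1 := Nat.four_pow_le_two_mul_self_mul_centralBinom (m + 1) (Nat.succ_pos m)
  have h2 : Nat.centralBinom (m + 1) = 2 * (2 * m + 1).choose m := by
    rw [Nat.centralBinom_eq_two_mul_choose]
    have e3 : 2 * (m + 1) = (2 * m + 1) + 1 := by ring
    rw [e3, Nat.choose_succ_succ' (2 * m + 1) m]
    have e4 : (2 * m + 1).choose (m + 1) = (2 * m + 1).choose m := by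
      refine Nat.choose_symm_of_eq_add ?_
      ring
    rw [e4]
    ring
  rw [h2] at h1
  have h3 := num_four hN
  have e5 : m + 3 - 2 = m + 1 := by omega
  rw [e5] at h3
  have h4 : (4 * (m + 3)) * (123392 * ((m + 3 + 2) ^ 3 * (m + 3) ^ 4)) ≤
      (4 * (m + 3)) * (2 * m + 1).choose m := by
    calc (4 * (m + 3)) * (123392 * ((m + 3 + 2) ^ 3 * (m + 3) ^ 4))
        = 493568 * ((m + 3 + 2) ^ 3 * (m + 3) ^ 5) := by ring
      _ ≤ 4 ^ (m + 1) := h3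
      _ ≤ 2 * (m + 1) * (2 * (2 * m + 1).choose m) := h1
      _ = (4 * (m + 1)) * (2 * m + 1).choose m := by ring
      _ ≤ (4 * (m + 3)) * (2 * m + 1).choose m := Nat.mul_le_mul_right _ (by omega)
  exact Nat.le_of_mul_le_mul_left h4 (by omega)

theorem num_big {N k : ℕ} (hN : 32 ≤ N) (hk : k = N ∨ k = N + 1) :
    8 * (241 * (2 * N + 3 + 1) ^ 3 * (8 * N ^ 4)) ≤ (2 * N + 3 - 6).choose (k - 3) := by
  have h := num_choose hN
  have e : 8 * (241 * (2 * N + 3 + 1) ^ 3 * (8 * N ^ 4)) =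
      123392 * ((N + 2) ^ 3 * N ^ 4) := by ring
  rw [e]
  refine h.trans ?_
  have e1 : 2 * N + 3 - 6 = 2 * N - 3 := by omega
  rw [e1]
  rcases hk with rfl | rfl
  · exact Nat.choose_le_choose _ (by omega)
  · have e2 : 2 * N - 3 = (2 * N - 4) + 1 := by omega
    have e3 : N + 1 - 3 = (N - 3) + 1 := by omega
    rw [e2, e3, Nat.choose_succ_succ']
    exact (Nat.choose_le_choose (N - 3) (by omega : 2 * N - 5 ≤ 2 * N - 4)).trans
      (Nat.le_add_right _ _)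

end Pool.Agent.Helper43.Halving
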