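import Pool.Agent.Helper43.Halv.Basic

/-!
# The window decomposition
-/

open Finset

namespace Pool.Agent.Helper43.Halving

theorem card_split {Y Z B : Finset ℕ} (hYZ : Disjoint Y Z) (hB : B ⊆ Y ∪ Z) :
    B.card = (B ∩ Y).card + (B ∩ Z).card := by
  rw [← card_union_of_disjoint, ← inter_union_distrib_left, inter_eq_left.2 hB]
  exact (hYZ.mono inter_subset_right inter_subset_right)

theorem HF_slice {s₁ s₂ i j : ℕ} {Y Z : Finset ℕ} (hYZ : Disjoint Y Z)
    (h1 : HF s₁ (powersetCard i Y)) (h2 : HF s₂ (powersetCard j Z)) {P : Finset (Finset ℕ)}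
    (hP : ∀ B, B ∈ P ↔ B ⊆ Y ∪ Z ∧ (B ∩ Y).card = i ∧ (B ∩ Z).card = j) :
    HF (s₁ + s₂) P := by
  refine HF_prod hYZ (fun A hA => (mem_powersetCard.1 hA).1)
    (fun A hA => (mem_powersetCard.1 hA).1) h1 h2 ?_
  intro B
  rw [hP, mem_powersetCard, mem_powersetCard]
  simp [inter_subset_right]

theorem HF_slice_mem {s₁ s₂ i j c : ℕ} {Y Z : Finset ℕ} (hYZ : Disjoint Y Z) (hcY : c ∉ Y)
    (hcZ : c ∉ Z)
    (h1 : HF s₁ (powersetCard i Y)) (h2 : HF s₂ (powersetCard j Z)) {P : Finset (Finset ℕ)}
    (hP : ∀ B, B ∈ P ↔ B ⊆ Y ∪ insert c Z ∧ c ∈ B ∧ (B ∩ Y).card = i ∧ (B ∩ Z).card = j) :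
    HF (s₁ + s₂) P := by
  have hcZ' : Disjoint ({c} : Finset ℕ) Z := by
    rw [disjoint_singleton_left]; exact hcZ
  set G : Finset (Finset ℕ) :=
    (insert c Z).powerset.filter (fun A => c ∈ A ∧ (A ∩ Z).card = j) with hG
  have hGH : HF (0 + s₂) G := by
    refine HF_prod (Y := {c}) (Z := Z) (F := {{c}}) hcZ' ?_
      (fun A hA => (mem_powersetCard.1 hA).1) (HF_zero _) h2 ?_
    · intro A hA
      rw [mem_singleton] at hA
      rw [hA]
    · intro B
      rw [hG, mem_filter, mem_powerset, mem_powersetCard, insert_eq, mem_singleton]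
      constructor
      · rintro ⟨hB1, hB2, hB3⟩
        refine ⟨hB1, ?_, inter_subset_right, hB3⟩
        rw [inter_comm, singleton_inter_of_mem hB2]
      · rintro ⟨hB1, hB2, -, hB3⟩
        refine ⟨hB1, ?_, hB3⟩
        have : c ∈ B ∩ {c} := by rw [hB2]; exact mem_singleton_self c
        exact (mem_inter.1 this).1
  rw [zero_add] at hGH
  refine HF_prod (Y := Y) (Z := insert c Z) (F := powersetCard i Y) (G := G) ?_
    (fun A hA => (mem_powersetCard.1 hA).1) ?_ h1 hGH ?_
  · rw [disjoint_insert_right]
    exact ⟨hcY, hYZ⟩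
  · intro A hA
    rw [hG, mem_filter, mem_powerset] at hA
    exact hA.1
  · intro B
    rw [hP, hG, mem_filter, mem_powerset, mem_powersetCard]
    have e1 : (B ∩ insert c Z) ∩ Z = B ∩ Z := by
      rw [inter_assoc]
      congr 1
      exact inter_eq_right.2 (subset_insert c Z)
    rw [e1]
    have e2 : c ∈ B ∩ insert c Z ↔ c ∈ B := by simp
    rw [e2]
    simp only [inter_subset_right, true_and]
    tauto

theorem card_inter_Ico_succ {B : Finset ℕ} {a n : ℕ} (h : a < n) :
    (B ∩ Ico a n).card = (B ∩ Ico (a + 1) n).card + if a ∈ B then 1 else 0 := by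
  rw [← insert_Ico_add_one_left_eq_Ico h]
  have ha : a ∉ Ico (a + 1) n := by simp
  by_cases hB : a ∈ B
  · rw [inter_insert_of_mem hB, card_insert_of_notMem (by simp), if_pos hB]
  · rw [inter_insert_of_notMem hB, if_neg hB, add_zero]

theorem window {L k u : ℕ} (hL : 8 ≤ L) (hu : 3 ≤ u)
    (hV : ∀ i, 4 ≤ i → i ≤ L - 1 → H 4 i (L + 3)) (hk : 4 ≤ k) (h1 : H 4 k u)
    (h2 : L ≤ k → H 4 (k - L) u) : H 4 k (u + L) := by
  obtain ⟨u, rfl⟩ : ∃ w, u = w + 3 := ⟨u - 3, by omega⟩
  set n : ℕ := u + 3 + L with hn
  -- derived statements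
  have V4 : H 4 4 (L + 3) := hV 4 le_rfl (by omega)
  have V3 : H 3 3 (L + 2) := V4.derived
  have V2 : H 2 2 (L + 1) := V3.derived
  have V1 : H 1 1 L := V2.derived
  have C1 : H 1 (L - 1) L := V1.compl (by omega)
  have C2 : H 2 (L - 1) (L + 1) := by
    have := V2.compl (by omega)
    have e : L + 1 - 2 = L - 1 := by omega
    rwa [e] at this
  have C3 : H 3 (L - 1) (L + 2) := by
    have := V3.compl (by omega)
    have e : L + 2 - 3 = L - 1 := by omega
    rwa [e] at this
  obtain ⟨k, rfl⟩ : ∃ w, k = w + 3 := ⟨k - 3, by omega⟩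
  have A1 : H 3 (k + 2) (u + 2) := h1.derived
  have A2 : H 2 (k + 1) (u + 1) := A1.derived
  have A3 : H 1 k u := A2.derived
  have w3 : ∀ B : Finset ℕ, (B ∩ Ico u n).card = (B ∩ Ico (u + 1) n).card + if u ∈ B then 1 else 0 :=
    fun B => card_inter_Ico_succ (by omega)
  have w2 : ∀ B : Finset ℕ, (B ∩ Ico (u + 1) n).card =
      (B ∩ Ico (u + 2) n).card + if u + 1 ∈ B then 1 else 0 :=
    fun B => card_inter_Ico_succ (by omega)
  have w1 : ∀ B : Finset ℕ, (B ∩ Ico (u + 2) n).card =
      (B ∩ Ico (u + 3) n).card + if u + 2 ∈ B then 1 else 0 :=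
    fun B => card_inter_Ico_succ (by omega)
  have w0 : ∀ B : Finset ℕ, (B ∩ Ico (u + 3) n).card ≤ L := by
    intro B
    refine (card_le_card inter_subset_right).trans ?_
    rw [Nat.card_Ico]; omega
  -- splitting of the ground set
  have disj : ∀ a, Disjoint (Ico a n) (range a) := by
    intro a
    rw [disjoint_left]
    intro b hb hb'
    rw [mem_Ico] at hb
    rw [mem_range] at hb'
    omega
  have gr : ∀ a, a ≤ n → range n = Ico a n ∪ range a := by
    intro a ha
    ext b
    rw [mem_union, mem_Ico, mem_range, mem_range]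
    omega
  have sp : ∀ a, a ≤ n → ∀ B, B ⊆ range n → B.card = (B ∩ Ico a n).card + (B ∩ range a).card := by
    intro a ha B hB
    rw [gr a ha] at hB
    exact card_split (disj a) hB
  -- subset of ground minus a point
  have grm : ∀ a, a + 1 ≤ n → ∀ B, (B ⊆ range n ∧ a ∉ B) ↔ B ⊆ Ico (a + 1) n ∪ range a := by
    intro a ha B
    constructor
    · rintro ⟨hB, haB⟩ b hb
      have := hB hb
      rw [mem_range] at this
      have hba : b ≠ a := fun h => haB (h ▸ hb)
      rw [mem_union, mem_Ico, mem_range]
      omega
    · intro hB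
      constructor
      · intro b hb
        have := hB hb
        rw [mem_union, mem_Ico, mem_range] at this
        rw [mem_range]
        omega
      · intro haB
        have := hB haB
        rw [mem_union, mem_Ico, mem_range] at this
        omega
  have disj' : ∀ a, Disjoint (Ico (a + 1) n) (range a) := by
    intro a
    rw [disjoint_left]
    intro b hb hb'
    rw [mem_Ico] at hb
    rw [mem_range] at hb'
    omega
  have grins : ∀ a, a + 1 ≤ n → range n = Ico (a + 1) n ∪ insert a (range a) := by
    intro a ha
    rw [← range_add_one]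
    exact gr (a + 1) ha
  let κ : Finset ℕ → ℕ := fun B =>
    if 4 ≤ (B ∩ Ico u n).card ∧ (B ∩ Ico u n).card ≤ L - 1 then 10 + (B ∩ Ico u n).card
    else if (B ∩ Ico u n).card ≤ 3 then
      (if (B ∩ Ico (u + 3) n).card = 0 then 0
        else if (B ∩ Ico (u + 3) n).card = 1 ∧ u + 2 ∉ B then 1
        else if (B ∩ Ico (u + 2) n).card = 2 ∧ u + 1 ∉ B then 2
        else 3)
    else
      (if (B ∩ Ico (u + 3) n).card = L then 4
        else if (B ∩ Ico (u + 3) n).card = L - 1 ∧ u + 2 ∈ B then 5
        else if (B ∩ Ico (u + 2) n).card = L - 1 ∧ u + 1 ∈ B then 6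
        else 7)
  unfold H
  refine HF_fiber _ κ ?_
  intro i
  have hcI : ∀ a, a ≤ n → (Ico a n).card = n - a := fun a _ => Nat.card_Ico a n
  rcases Nat.lt_or_ge i 8 with hi | hi
  · interval_cases i
    · -- B ⊆ U
      refine HF_congr_set ?_ (h1.of_card (card_range (u + 3)))
      ext B
      simp only [mem_filter, mem_powersetCard, κ]
      have f3 := w3 B; have f2 := w2 B; have f1 := w1 B; have f0 := w0 B
      constructor
      · rintro ⟨hB1, hB2⟩
        have hsub : B ⊆ range n := hB1.trans (range_subset_range.2 (by omega))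
        have s0 := sp (u + 3) (by omega) B hsub
        rw [inter_eq_left.2 hB1] at s0
        refine ⟨⟨hsub, hB2⟩, ?_⟩
        have : (B ∩ Ico (u + 3) n).card = 0 := by omega
        split_ifs at f1 f2 f3 ⊢ <;> omega
      · rintro ⟨⟨hB1, hB2⟩, hκ⟩
        have hz : (B ∩ Ico (u + 3) n).card = 0 := by
          split_ifs at hκ <;> omega
        refine ⟨?_, hB2⟩
        intro b hb
        have := hB1 hb
        rw [mem_range] at this ⊢
        by_contra hcon
        rw [card_eq_zero] at hz
        have : b ∈ B ∩ Ico (u + 3) n := mem_inter.2 ⟨hb, by rw [mem_Ico]; omega⟩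
        rw [hz] at this
        simp at this
    · -- class 1
      refine HF_slice (s₁ := 1) (s₂ := 3) (i := 1) (j := k + 2) (Y := Ico (u + 3) n)
        (Z := range (u + 2)) (disj' (u + 2)) (V1.of_card (by rw [Nat.card_Ico]; omega))
        (A1.of_card (card_range _)) ?_
      intro B
      simp only [mem_filter, mem_powersetCard, κ]
      have f3 := w3 B; have f2 := w2 B; have f1 := w1 B; have f0 := w0 B
      have g := grm (u + 2) (by omega) B
      constructor
      · rintro ⟨⟨hB1, hB2⟩, hκ⟩
        have hz : (B ∩ Ico (u + 3) n).card = 1 ∧ u + 2 ∉ B := by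
          split_ifs at hκ with a1 a2 a3 a4 a5 a6 a7 a8 <;> first | omega | exact a4 | skip
        have hs := g.1 ⟨hB1, hz.2⟩
        have : B.card = (B ∩ Ico (u + 3) n).card + (B ∩ range (u + 2)).card :=
          card_split (disj' (u + 2)) hs
        exact ⟨hs, hz.1, by omega⟩
      · rintro ⟨hs, hz1, hz2⟩
        have hg := g.2 hs
        have : B.card = (B ∩ Ico (u + 3) n).card + (B ∩ range (u + 2)).card :=
          card_split (disj' (u + 2)) hs
        refine ⟨⟨hg.1, by omega⟩, ?_⟩
        have e1 := hg.2
        simp only [e1, if_false, add_zero] at f1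
        split_ifs at f2 f3 ⊢ <;> first | omega | (exfalso; tauto)
    · -- class 2
      refine HF_slice (s₁ := 2) (s₂ := 2) (i := 2) (j := k + 1) (Y := Ico (u + 2) n)
        (Z := range (u + 1)) (disj' (u + 1)) (V2.of_card (by rw [Nat.card_Ico]; omega))
        (A2.of_card (card_range _)) ?_
      intro B
      simp only [mem_filter, mem_powersetCard, κ]
      have f3 := w3 B; have f2 := w2 B; have f1 := w1 B; have f0 := w0 B
      have g := grm (u + 1) (by omega) B
      constructor
      · rintro ⟨⟨hB1, hB2⟩, hκ⟩
        have hz : (B ∩ Ico (u + 2) n).card = 2 ∧ u + 1 ∉ B := by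
          split_ifs at hκ with a1 a2 a3 a4 a5 a6 a7 a8 <;> first | omega | exact a5 | skip
        have hs := g.1 ⟨hB1, hz.2⟩
        have : B.card = (B ∩ Ico (u + 2) n).card + (B ∩ range (u + 1)).card :=
          card_split (disj' (u + 1)) hs
        exact ⟨hs, hz.1, by omega⟩
      · rintro ⟨hs, hz1, hz2⟩
        have hg := g.2 hs
        have : B.card = (B ∩ Ico (u + 2) n).card + (B ∩ range (u + 1)).card :=
          card_split (disj' (u + 1)) hs
        refine ⟨⟨hg.1, by omega⟩, ?_⟩
        have e1 := hg.2
        simp only [e1, if_false, add_zero] at f2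
        split_ifs at f1 f3 ⊢ <;> first | omega | (exfalso; tauto)
    · -- class 3
      refine HF_slice (s₁ := 3) (s₂ := 1) (i := 3) (j := k) (Y := Ico (u + 1) n)
        (Z := range u) (disj' u) (V3.of_card (by rw [Nat.card_Ico]; omega))
        (A3.of_card (card_range _)) ?_
      intro B
      simp only [mem_filter, mem_powersetCard, κ]
      have f3 := w3 B; have f2 := w2 B; have f1 := w1 B; have f0 := w0 B
      have g := grm u (by omega) B
      constructor
      · rintro ⟨⟨hB1, hB2⟩, hκ⟩
        have hz : (B ∩ Ico (u + 1) n).card = 3 ∧ u ∉ B := by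
          by_cases b0 : u ∈ B <;> by_cases b1 : u + 1 ∈ B <;> by_cases b2 : u + 2 ∈ B <;>
            simp only [b0, b1, b2, if_true, if_false, not_true_eq_false, not_false_eq_true,
              and_true, and_false, add_zero] at f1 f2 f3 hκ ⊢ <;>
            split_ifs at hκ <;> omega
        have hs := g.1 ⟨hB1, hz.2⟩
        have := card_split (disj' u) hs
        exact ⟨hs, hz.1, by omega⟩
      · rintro ⟨hs, hz1, hz2⟩
        have hg := g.2 hs
        have := card_split (disj' u) hs
        refine ⟨⟨hg.1, by omega⟩, ?_⟩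
        have e1 := hg.2
        simp only [e1, if_false, add_zero] at f3
        by_cases b1 : u + 1 ∈ B <;> by_cases b2 : u + 2 ∈ B <;>
            simp only [b1, b2, if_true, if_false, not_true_eq_false, not_false_eq_true,
              and_true, and_false, add_zero] at f1 f2 ⊢ <;>
            split_ifs <;> omega
    · -- W ⊆ B
      rcases Nat.lt_or_ge (k + 3) L with hkL | hkL
      · refine HF_congr_set ?_ (HF_empty _)
        symm
        rw [filter_eq_empty_iff]
        intro B hB
        rw [mem_powersetCard] at hB
        simp only [κ]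
        have f3 := w3 B; have f2 := w2 B; have f1 := w1 B; have f0 := w0 B
        have s0 := sp u (by omega) B hB.1
        intro hκ
        split_ifs at hκ <;> omega
      · refine HF_slice (s₁ := 0) (s₂ := 4) (i := L) (j := k + 3 - L) (Y := Ico (u + 3) n)
          (Z := range (u + 3)) (disj (u + 3)) (HF_zero _)
          ((h2 hkL).of_card (card_range _)) ?_
        intro B
        simp only [mem_filter, mem_powersetCard, κ]
        have f3 := w3 B; have f2 := w2 B; have f1 := w1 B; have f0 := w0 B
        constructor
        · rintro ⟨⟨hB1, hB2⟩, hκ⟩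
          have hz : (B ∩ Ico (u + 3) n).card = L := by
            split_ifs at hκ <;> omega
          have := sp (u + 3) (by omega) B hB1
          refine ⟨by rw [← gr (u + 3) (by omega)]; exact hB1, hz, by omega⟩
        · rintro ⟨hs, hz1, hz2⟩
          have := card_split (disj (u + 3)) hs
          rw [← gr (u + 3) (by omega)] at hs
          refine ⟨⟨hs, by omega⟩, ?_⟩
          split_ifs at f1 f2 f3 ⊢ <;> omega
    · -- class 5
      rcases Nat.lt_or_ge (k + 3) L with hkL | hkL
      · refine HF_congr_set ?_ (HF_empty _)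
        symm
        rw [filter_eq_empty_iff]
        intro B hB
        rw [mem_powersetCard] at hB
        simp only [κ]
        have f3 := w3 B; have f2 := w2 B; have f1 := w1 B; have f0 := w0 B
        have s0 := sp u (by omega) B hB.1
        intro hκ
        split_ifs at hκ <;> omega
      · have R1 : H 3 (k + 3 - L) (u + 2) := (h2 hkL).residual
        refine HF_slice_mem (s₁ := 1) (s₂ := 3) (i := L - 1) (j := k + 3 - L) (c := u + 2)
          (Y := Ico (u + 3) n) (Z := range (u + 2)) (disj' (u + 2)) (by simp) (by simp)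
          (C1.of_card (by rw [Nat.card_Ico]; omega)) (R1.of_card (card_range _)) ?_
        intro B
        rw [← grins (u + 2) (by omega)]
        simp only [mem_filter, mem_powersetCard, κ]
        have f3 := w3 B; have f2 := w2 B; have f1 := w1 B; have f0 := w0 B
        have s2 : B ⊆ range n → B.card = (B ∩ Ico (u + 2) n).card + (B ∩ range (u + 2)).card :=
          sp (u + 2) (by omega) B
        constructor
        · rintro ⟨⟨hB1, hB2⟩, hκ⟩
          have hz : (B ∩ Ico (u + 3) n).card = L - 1 ∧ u + 2 ∈ B := by
            split_ifs at hκ with a1 a2 a3 a4 a5 a6 a7 a8 <;> first | omega | exact a7 | skip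
          have s3 := s2 hB1
          simp only [hz.2, if_true] at f1
          exact ⟨hB1, hz.2, hz.1, by omega⟩
        · rintro ⟨hs, hc, hz1, hz2⟩
          have s3 := s2 hs
          simp only [hc, if_true] at f1
          refine ⟨⟨hs, by omega⟩, ?_⟩
          by_cases b0 : u ∈ B <;> by_cases b1 : u + 1 ∈ B <;>
            simp only [b0, b1, hc, if_true, if_false, not_true_eq_false, not_false_eq_true,
              and_true, and_false, add_zero] at f2 f3 ⊢ <;>
            split_ifs <;> omega
    · -- class 6
      rcases Nat.lt_or_ge (k + 3) L with hkL | hkL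
      · refine HF_congr_set ?_ (HF_empty _)
        symm
        rw [filter_eq_empty_iff]
        intro B hB
        rw [mem_powersetCard] at hB
        simp only [κ]
        have f3 := w3 B; have f2 := w2 B; have f1 := w1 B; have f0 := w0 B
        have s0 := sp u (by omega) B hB.1
        intro hκ
        split_ifs at hκ <;> omega
      · have R1 : H 3 (k + 3 - L) (u + 2) := (h2 hkL).residual
        have R2 : H 2 (k + 3 - L) (u + 1) := R1.residual
        refine HF_slice_mem (s₁ := 2) (s₂ := 2) (i := L - 1) (j := k + 3 - L) (c := u + 1)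
          (Y := Ico (u + 2) n) (Z := range (u + 1)) (disj' (u + 1)) (by simp) (by simp)
          (C2.of_card (by rw [Nat.card_Ico]; omega)) (R2.of_card (card_range _)) ?_
        intro B
        rw [← grins (u + 1) (by omega)]
        simp only [mem_filter, mem_powersetCard, κ]
        have f3 := w3 B; have f2 := w2 B; have f1 := w1 B; have f0 := w0 B
        have s2 : B ⊆ range n → B.card = (B ∩ Ico (u + 1) n).card + (B ∩ range (u + 1)).card :=
          sp (u + 1) (by omega) B
        constructor
        · rintro ⟨⟨hB1, hB2⟩, hκ⟩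
          have hz : (B ∩ Ico (u + 2) n).card = L - 1 ∧ u + 1 ∈ B := by
            split_ifs at hκ with a1 a2 a3 a4 a5 a6 a7 a8 <;> first | omega | exact a8 | skip
          have s3 := s2 hB1
          simp only [hz.2, if_true] at f2
          exact ⟨hB1, hz.2, hz.1, by omega⟩
        · rintro ⟨hs, hc, hz1, hz2⟩
          have s3 := s2 hs
          simp only [hc, if_true] at f2
          refine ⟨⟨hs, by omega⟩, ?_⟩
          by_cases b0 : u ∈ B <;> by_cases b1 : u + 2 ∈ B <;>
            simp only [b0, b1, hc, if_true, if_false, not_true_eq_false, not_false_eq_true,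
              and_true, and_false, add_zero] at f1 f3 ⊢ <;>
            split_ifs <;> omega
    · -- class 7
      rcases Nat.lt_or_ge (k + 3) L with hkL | hkL
      · refine HF_congr_set ?_ (HF_empty _)
        symm
        rw [filter_eq_empty_iff]
        intro B hB
        rw [mem_powersetCard] at hB
        simp only [κ]
        have f3 := w3 B; have f2 := w2 B; have f1 := w1 B; have f0 := w0 B
        have s0 := sp u (by omega) B hB.1
        intro hκ
        split_ifs at hκ <;> omega
      · have R1 : H 3 (k + 3 - L) (u + 2) := (h2 hkL).residual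
        have R2 : H 2 (k + 3 - L) (u + 1) := R1.residual
        have R3 : H 1 (k + 3 - L) u := R2.residual
        refine HF_slice_mem (s₁ := 3) (s₂ := 1) (i := L - 1) (j := k + 3 - L) (c := u)
          (Y := Ico (u + 1) n) (Z := range u) (disj' u) (by simp) (by simp)
          (C3.of_card (by rw [Nat.card_Ico]; omega)) (R3.of_card (card_range _)) ?_
        intro B
        rw [← grins u (by omega)]
        simp only [mem_filter, mem_powersetCard, κ]
        have f3 := w3 B; have f2 := w2 B; have f1 := w1 B; have f0 := w0 B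
        have s2 : B ⊆ range n → B.card = (B ∩ Ico u n).card + (B ∩ range u).card :=
          sp u (by omega) B
        constructor
        · rintro ⟨⟨hB1, hB2⟩, hκ⟩
          have hz : (B ∩ Ico (u + 1) n).card = L - 1 ∧ u ∈ B := by
            by_cases b0 : u ∈ B <;> by_cases b1 : u + 1 ∈ B <;> by_cases b2 : u + 2 ∈ B <;>
              simp only [b0, b1, b2, if_true, if_false, not_true_eq_false, not_false_eq_true,
                and_true, and_false, add_zero] at f1 f2 f3 hκ ⊢ <;>
              split_ifs at hκ <;> omega
          have s3 := s2 hB1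
          simp only [hz.2, if_true] at f3
          exact ⟨hB1, hz.2, hz.1, by omega⟩
        · rintro ⟨hs, hc, hz1, hz2⟩
          have s3 := s2 hs
          simp only [hc, if_true] at f3
          refine ⟨⟨hs, by omega⟩, ?_⟩
          by_cases b0 : u + 1 ∈ B <;> by_cases b1 : u + 2 ∈ B <;>
            simp only [b0, b1, if_true, if_false, not_true_eq_false, not_false_eq_true,
              and_true, and_false, add_zero] at f1 f2 ⊢ <;>
            split_ifs <;> omega
  · -- middle classes and junk
    by_cases hm : 14 ≤ i ∧ i ≤ L - 1 + 10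
    · rcases Nat.lt_or_ge (k + 3) (i - 10) with hki | hki
      · refine HF_congr_set ?_ (HF_empty _)
        symm
        rw [filter_eq_empty_iff]
        intro B hB
        rw [mem_powersetCard] at hB
        simp only [κ]
        have s0 := sp u (by omega) B hB.1
        intro hκ
        split_ifs at hκ <;> omega
      · refine HF_slice (s₁ := 4) (s₂ := 0) (i := i - 10) (j := k + 3 - (i - 10)) (Y := Ico u n)
          (Z := range u) (disj u) ((hV (i - 10) (by omega) (by omega)).of_card
            (by rw [Nat.card_Ico]; omega)) (HF_zero _) ?_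
        intro B
        simp only [mem_filter, mem_powersetCard, κ]
        constructor
        · rintro ⟨⟨hB1, hB2⟩, hκ⟩
          have hz : (B ∩ Ico u n).card = i - 10 := by
            split_ifs at hκ <;> omega
          have := sp u (by omega) B hB1
          exact ⟨by rw [← gr u (by omega)]; exact hB1, hz, by omega⟩
        · rintro ⟨hs, hz1, hz2⟩
          have := card_split (disj u) hs
          rw [← gr u (by omega)] at hs
          refine ⟨⟨hs, by omega⟩, ?_⟩
          rw [if_pos (by omega)]
          omega
    · refine HF_congr_set ?_ (HF_empty _)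
      symm
      rw [filter_eq_empty_iff]
      intro B hB
      simp only [κ]
      intro hκ
      split_ifs at hκ <;> omega

end Pool.Agent.Helper43.Halving
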