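import Pool.Agent.Helper43.Halv.Root
import Pool.Agent.Helper43.Halv.B1
import Pool.Agent.Helper43.Halv.Num
import Pool.Agent.Helper43.Halv.Window

/-!
# The halving conjecture for t = 3 from the small roots
-/

open Finset

namespace Pool.Agent.Helper43.Halving

/-- the large roots -/
theorem root_big {n k : ℕ} (hn : 5 ≤ n) (hk : k = 2 ^ n ∨ k = 2 ^ n + 1) :
    H 4 k (2 * 2 ^ n + 3) := by
  set N := 2 ^ n with hN
  have hN32 : 32 ≤ N := by
    calc 32 = 2 ^ 5 := by norm_num
      _ ≤ 2 ^ n := Nat.pow_le_pow_right (by norm_num) hn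
  refine root_general (E := 8 * N ^ 4) (by omega) (by omega) ?_ ?_ (num_big hN32 hk) ?_
  · exact ⟨4 * N ^ 4, by ring⟩
  · intro i hi
    refine even_of_level (l := n + 1) ?_
    have e : 2 ^ (n + 1) = 2 * N := by rw [pow_succ, hN]; ring
    rw [e]
    have e1 : (2 * N + 3 - i) % (2 * N) = 3 - i := by
      have : 2 * N + 3 - i = (3 - i) + 2 * N * 1 := by omega
      rw [this, Nat.add_mul_mod_self_left, Nat.mod_eq_of_lt (by omega)]
    rw [e1, Nat.mod_eq_of_lt (by omega)]
    omega
  · intro F hF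
    have h := pigeon (num_pigeon hn hN) F.card F rfl hF
    exact_mod_cast h

/-- all windows `H 4 i (L + 3)` -/
theorem windows (h11 : H 4 4 11) (h11' : H 4 5 11) (h19 : H 4 8 19) (h19' : H 4 9 19)
    (h35 : H 4 16 35) (h35' : H 4 17 35) {n : ℕ} (hn : 3 ≤ n) :
    ∀ i, 4 ≤ i → i ≤ 2 ^ n - 1 → H 4 i (2 ^ n + 3) := by
  induction n, hn using Nat.le_induction with
  | base =>
    intro i h1 h2
    norm_num at h2 ⊢
    have hi : i = 4 ∨ i = 5 ∨ i = 6 ∨ i = 7 := by omega
    rcases hi with rfl | rfl | rfl | rfl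
    · exact h11
    · exact h11'
    · exact H.compl (k := 5) (by norm_num) h11'
    · exact H.compl (k := 4) (by norm_num) h11
  | succ n hn ih =>
    intro i h1 h2
    have hL8 : 8 ≤ 2 ^ n := by
      calc 8 = 2 ^ 3 := by norm_num
        _ ≤ 2 ^ n := Nat.pow_le_pow_right (by norm_num) hn
    have e2 : 2 ^ (n + 1) = 2 * 2 ^ n := by rw [pow_succ]; ring
    rw [e2] at h2 ⊢
    have hroot : ∀ k, k = 2 ^ n ∨ k = 2 ^ n + 1 → H 4 k (2 * 2 ^ n + 3) := by
      intro k hk
      rcases Nat.lt_or_ge n 5 with h5 | h5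
      · have hn' : n = 3 ∨ n = 4 := by omega
        rcases hn' with rfl | rfl
        · norm_num at hk ⊢
          rcases hk with rfl | rfl
          · exact h19
          · exact h19'
        · norm_num at hk ⊢
          rcases hk with rfl | rfl
          · exact h35
          · exact h35'
      · exact root_big h5 hk
    have hcase : i ≤ 2 ^ n - 1 ∨ i = 2 ^ n ∨ i = 2 ^ n + 1 ∨ i = 2 ^ n + 2 ∨ i = 2 ^ n + 3 ∨
        2 ^ n + 4 ≤ i := by omega
    rcases hcase with h | h | h | h | h | h
    · have e : 2 * 2 ^ n + 3 = (2 ^ n + 3) + 2 ^ n := by ring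
      rw [e]
      exact window hL8 (by omega) ih h1 (ih i h1 h) (fun h' => absurd h' (by omega))
    · exact hroot i (Or.inl h)
    · exact hroot i (Or.inr h)
    · have e : i = 2 * 2 ^ n + 3 - (2 ^ n + 1) := by omega
      rw [e]
      exact H.compl (by omega) (hroot _ (Or.inr rfl))
    · have e : i = 2 * 2 ^ n + 3 - 2 ^ n := by omega
      rw [e]
      exact H.compl (by omega) (hroot _ (Or.inl rfl))
    · have e : 2 * 2 ^ n + 3 = (2 ^ n + 3) + 2 ^ n := by ring
      rw [e]
      exact window hL8 (by omega) ih h1 (H_of_gt (by omega))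
        (fun _ => ih (i - 2 ^ n) (by omega) (by omega))

theorem levels {L v₀ k₀ : ℕ} (hL : 8 ≤ L) (hw : ∀ i, 4 ≤ i → i ≤ L - 1 → H 4 i (L + 3))
    (h1 : 3 ≤ v₀) (h2 : v₀ < k₀) (h3 : k₀ < L) :
    ∀ a b : ℕ, H 4 (b * L + k₀) (a * L + v₀) := by
  intro a
  induction a with
  | zero =>
    intro b
    refine H_of_gt ?_
    have : 0 ≤ b * L := Nat.zero_le _
    omega
  | succ a ih =>
    intro b
    have e : (a + 1) * L + v₀ = (a * L + v₀) + L := by ring
    rw [e]
    refine window hL (by omega) hw (by omega) (ih b) fun hLk => ?_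
    rcases Nat.eq_zero_or_pos b with rfl | hb
    · omega
    · obtain ⟨b, rfl⟩ := Nat.exists_eq_succ_of_ne_zero (by omega : b ≠ 0)
      have e' : (b + 1) * L + k₀ - L = b * L + k₀ := by
        have : (b + 1) * L = b * L + L := by ring
        omega
      rw [Nat.succ_eq_add_one, e']
      exact ih b

theorem half_card {v k : ℕ} {x : Finset ℕ → ℤ} {T : Finset ℕ}
    (hx : ∀ B ∈ powersetCard k (range v), x B = 1 ∨ x B = -1)
    (h : eS (powersetCard k (range v)) x T = 0) (hT : T ⊆ range v) (hTk : T.card ≤ k) :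
    2 * (((powersetCard k (range v)).filter (fun B => T ⊆ B)).filter (fun B => x B = 1)).card =
      (v - T.card).choose (k - T.card) := by
  rw [← card_above hT hTk]
  set F := (powersetCard k (range v)).filter (fun B => T ⊆ B) with hF
  have h1 : ∑ B ∈ F, x B = (F.filter (fun B => x B = 1)).card -
      (F.filter (fun B => ¬ x B = 1)).card := by
    have h2 : ∀ B ∈ F, x B = if x B = 1 then 1 else -1 := by
      intro B hB
      rcases hx B (mem_filter.1 hB).1 with h | h <;> rw [h] <;> simp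
    rw [sum_congr rfl h2, sum_ite]
    simp
    ring
  have h3 : ∑ B ∈ F, x B = 0 := h
  have h4 := card_filter_add_card_filter_not (s := F) (fun B => x B = 1)
  rw [h1] at h3
  omega

/-- from signings to halvings -/
theorem halving_of_H {v k : ℕ} (hk : 3 < k) (h : H 4 k v) :
    ∃ B : Finset (Finset (Fin v)),
        B ⊆ Finset.powersetCard k (Finset.univ : Finset (Fin v)) ∧
        ∀ T : Finset (Fin v), T.card = 3 →
          2 * (B.filter (fun S => T ⊆ S)).card = (v - 3).choose (k - 3) := by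
  obtain ⟨x, hx1, hx2⟩ := h
  refine ⟨(powersetCard k univ).filter (fun S => x (S.map Fin.valEmbedding) = 1),
    filter_subset _ _, ?_⟩
  intro T hT
  have hsub : ∀ S : Finset (Fin v), S.map Fin.valEmbedding ⊆ range v := by
    intro S a ha
    obtain ⟨b, _, rfl⟩ := mem_map.1 ha
    exact mem_range.2 b.2
  have hTc : (T.map Fin.valEmbedding).card = 3 := by rw [card_map, hT]
  have hh := half_card hx1 (hx2 (T.map Fin.valEmbedding) (by omega)) (hsub T) (by omega)
  rw [hTc] at hh
  rw [← hh]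
  congr 1
  refine card_bij (fun S _ => S.map Fin.valEmbedding) ?_ ?_ ?_
  · intro S hS
    simp only [mem_filter, mem_powersetCard, subset_univ, true_and] at hS ⊢
    exact ⟨⟨⟨hsub S, by rw [card_map, hS.1.1]⟩, map_subset_map.2 hS.2⟩, hS.1.2⟩
  · intro S _ S' _ hSS
    exact map_injective _ hSS
  · intro B hB
    simp only [mem_filter, mem_powersetCard] at hB
    obtain ⟨⟨⟨hB1, hB2⟩, hB3⟩, hB4⟩ := hB
    have e : (univ.filter (fun a : Fin v => (a : ℕ) ∈ B)).map Fin.valEmbedding = B := by
      ext a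
      simp only [mem_map, mem_filter, mem_univ, true_and, Fin.valEmbedding_apply]
      constructor
      · rintro ⟨b, hb, rfl⟩
        exact hb
      · intro ha
        exact ⟨⟨a, mem_range.1 (hB1 ha)⟩, ha, rfl⟩
    refine ⟨univ.filter (fun a : Fin v => (a : ℕ) ∈ B), ?_, e⟩
    simp only [mem_filter, mem_powersetCard, subset_univ, true_and]
    refine ⟨⟨?_, ?_⟩, ?_⟩
    · rw [← hB2, ← card_map Fin.valEmbedding, e]
    · rw [e]
      exact hB4
    · rw [← map_subset_map (f := Fin.valEmbedding), e]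
      exact hB3

theorem halving_main (h11 : H 4 4 11) (h11' : H 4 5 11) (h19 : H 4 8 19) (h19' : H 4 9 19)
    (h35 : H 4 16 35) (h35' : H 4 17 35) :
    ∀ v k : ℕ, 3 < k → k < v →
      (∀ i ∈ Finset.range 4, Even ((v - i).choose (k - i))) →
      ∃ B : Finset (Finset (Fin v)),
        B ⊆ Finset.powersetCard k (Finset.univ : Finset (Fin v)) ∧
        ∀ T : Finset (Fin v), T.card = 3 →
          2 * (B.filter (fun S => T ⊆ S)).card = (v - 3).choose (k - 3) := by
  intro v k hk hv hev
  refine halving_of_H hk ?_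
  obtain ⟨l, hl1, hl2⟩ := exists_level hk hv hev
  have hl3 : k % 2 ^ l < 2 ^ l := Nat.mod_lt _ (Nat.two_pow_pos l)
  have hl : 3 ≤ l := by
    by_contra hc
    push Not at hc
    have : 2 ^ l ≤ 2 ^ 2 := Nat.pow_le_pow_right (by norm_num) (by omega)
    omega
  have hL8 : 8 ≤ 2 ^ l := by
    calc 8 = 2 ^ 3 := by norm_num
      _ ≤ 2 ^ l := Nat.pow_le_pow_right (by norm_num) hl
  have := levels hL8 (windows h11 h11' h19 h19' h35 h35' hl) hl1 hl2 hl3 (v / 2 ^ l) (k / 2 ^ l)
  rwa [Nat.div_add_mod', Nat.div_add_mod'] at this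

end Pool.Agent.Helper43.Halving
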