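import Pool.Agent.Helper43.Halv.Fast

/-!
# The root (v, k) = (11, 5)
-/

namespace Pool.Agent.Helper43.Halving

/-- sign pattern -/
def m11_5 : ℕ :=
  0x1000100040000011201070710000000130006073201140458023454a8000001110013016c01030246144038e80006150c13643840115a62284628880000000004011017720015121e005a248801031166144e400813240e803a40e0800117043805022a480428764076a8400012144aa018e068800ce0608088000000

/-- rows -/
def L11_5 : List (ℕ × List (ℕ × List ℕ)) :=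
  [(256, [(512, [1, 1]), (256, [1, 1]), (128, [1, 1]), (64, [1, 1]), (32, [1, 1]), (16, [1, 1]),
    (8, [1, 1]), (4, [1, 1]), (2, [0, 1]), (1, [0, 1])]), (256, [(512, [1, 1]), (256, [1, 1]),
    (128, [1, 1]), (64, [1, 1]), (32, [1, 1]), (16, [1, 1]), (8, [1, 1]), (4, [0, 1]), (2, [1,
    1]), (1, [0, 1])]), (256, [(512, [1, 1]), (256, [1, 1]), (128, [1, 1]), (64, [1, 1]), (32,
    [1, 1]), (16, [1, 1]), (8, [1, 1]), (4, [0, 1]), (2, [0, 1]), (1, [1, 1])]), (257, [(512, [1,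
    1]), (256, [1, 1]), (128, [1, 1]), (64, [1, 1]), (32, [1, 1]), (16, [1, 1]), (8, [1, 1]), (4,
    [0, 1]), (2, [0, 1]), (1, [0, 1])]), (256, [(512, [1, 1]), (256, [1, 1]), (128, [1, 1]), (64,
    [1, 1]), (32, [1, 1]), (16, [1, 1]), (8, [0, 1]), (4, [1, 1]), (2, [1, 1]), (1, [0, 1])]),
    (256, [(512, [1, 1]), (256, [1, 1]), (128, [1, 1]), (64, [1, 1]), (32, [1, 1]), (16, [1, 1]),
    (8, [0, 1]), (4, [1, 1]), (2, [0, 1]), (1, [1, 1])]), (257, [(512, [1, 1]), (256, [1, 1]),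
    (128, [1, 1]), (64, [1, 1]), (32, [1, 1]), (16, [1, 1]), (8, [0, 1]), (4, [1, 1]), (2, [0,
    1]), (1, [0, 1])]), (256, [(512, [1, 1]), (256, [1, 1]), (128, [1, 1]), (64, [1, 1]), (32,
    [1, 1]), (16, [1, 1]), (8, [0, 1]), (4, [0, 1]), (2, [1, 1]), (1, [1, 1])]), (257, [(512, [1,
    1]), (256, [1, 1]), (128, [1, 1]), (64, [1, 1]), (32, [1, 1]), (16, [1, 1]), (8, [0, 1]), (4,
    [0, 1]), (2, [1, 1]), (1, [0, 1])]), (257, [(512, [1, 1]), (256, [1, 1]), (128, [1, 1]), (64,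
    [1, 1]), (32, [1, 1]), (16, [1, 1]), (8, [0, 1]), (4, [0, 1]), (2, [0, 1]), (1, [1, 1])]),
    (256, [(512, [1, 1]), (256, [1, 1]), (128, [1, 1]), (64, [1, 1]), (32, [1, 1]), (16, [0, 1]),
    (8, [1, 1]), (4, [1, 1]), (2, [1, 1]), (1, [0, 1])]), (256, [(512, [1, 1]), (256, [1, 1]),
    (128, [1, 1]), (64, [1, 1]), (32, [1, 1]), (16, [0, 1]), (8, [1, 1]), (4, [1, 1]), (2, [0,
    1]), (1, [1, 1])]), (257, [(512, [1, 1]), (256, [1, 1]), (128, [1, 1]), (64, [1, 1]), (32,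
    [1, 1]), (16, [0, 1]), (8, [1, 1]), (4, [1, 1]), (2, [0, 1]), (1, [0, 1])]), (256, [(512, [1,
    1]), (256, [1, 1]), (128, [1, 1]), (64, [1, 1]), (32, [1, 1]), (16, [0, 1]), (8, [1, 1]), (4,
    [0, 1]), (2, [1, 1]), (1, [1, 1])]), (257, [(512, [1, 1]), (256, [1, 1]), (128, [1, 1]), (64,
    [1, 1]), (32, [1, 1]), (16, [0, 1]), (8, [1, 1]), (4, [0, 1]), (2, [1, 1]), (1, [0, 1])]),
    (257, [(512, [1, 1]), (256, [1, 1]), (128, [1, 1]), (64, [1, 1]), (32, [1, 1]), (16, [0, 1]),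
    (8, [1, 1]), (4, [0, 1]), (2, [0, 1]), (1, [1, 1])]), (256, [(512, [1, 1]), (256, [1, 1]),
    (128, [1, 1]), (64, [1, 1]), (32, [1, 1]), (16, [0, 1]), (8, [0, 1]), (4, [1, 1]), (2, [1,
    1]), (1, [1, 1])]), (257, [(512, [1, 1]), (256, [1, 1]), (128, [1, 1]), (64, [1, 1]), (32,
    [1, 1]), (16, [0, 1]), (8, [0, 1]), (4, [1, 1]), (2, [1, 1]), (1, [0, 1])]), (257, [(512, [1,
    1]), (256, [1, 1]), (128, [1, 1]), (64, [1, 1]), (32, [1, 1]), (16, [0, 1]), (8, [0, 1]), (4,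
    [1, 1]), (2, [0, 1]), (1, [1, 1])]), (257, [(512, [1, 1]), (256, [1, 1]), (128, [1, 1]), (64,
    [1, 1]), (32, [1, 1]), (16, [0, 1]), (8, [0, 1]), (4, [0, 1]), (2, [1, 1]), (1, [1, 1])]),
    (256, [(512, [1, 1]), (256, [1, 1]), (128, [1, 1]), (64, [1, 1]), (32, [0, 1]), (16, [1, 1]),
    (8, [1, 1]), (4, [1, 1]), (2, [1, 1]), (1, [0, 1])]), (256, [(512, [1, 1]), (256, [1, 1]),
    (128, [1, 1]), (64, [1, 1]), (32, [0, 1]), (16, [1, 1]), (8, [1, 1]), (4, [1, 1]), (2, [0,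
    1]), (1, [1, 1])]), (257, [(512, [1, 1]), (256, [1, 1]), (128, [1, 1]), (64, [1, 1]), (32,
    [0, 1]), (16, [1, 1]), (8, [1, 1]), (4, [1, 1]), (2, [0, 1]), (1, [0, 1])]), (256, [(512, [1,
    1]), (256, [1, 1]), (128, [1, 1]), (64, [1, 1]), (32, [0, 1]), (16, [1, 1]), (8, [1, 1]), (4,
    [0, 1]), (2, [1, 1]), (1, [1, 1])]), (257, [(512, [1, 1]), (256, [1, 1]), (128, [1, 1]), (64,
    [1, 1]), (32, [0, 1]), (16, [1, 1]), (8, [1, 1]), (4, [0, 1]), (2, [1, 1]), (1, [0, 1])]),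
    (257, [(512, [1, 1]), (256, [1, 1]), (128, [1, 1]), (64, [1, 1]), (32, [0, 1]), (16, [1, 1]),
    (8, [1, 1]), (4, [0, 1]), (2, [0, 1]), (1, [1, 1])]), (256, [(512, [1, 1]), (256, [1, 1]),
    (128, [1, 1]), (64, [1, 1]), (32, [0, 1]), (16, [1, 1]), (8, [0, 1]), (4, [1, 1]), (2, [1,
    1]), (1, [1, 1])]), (257, [(512, [1, 1]), (256, [1, 1]), (128, [1, 1]), (64, [1, 1]), (32,
    [0, 1]), (16, [1, 1]), (8, [0, 1]), (4, [1, 1]), (2, [1, 1]), (1, [0, 1])]), (257, [(512, [1,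
    1]), (256, [1, 1]), (128, [1, 1]), (64, [1, 1]), (32, [0, 1]), (16, [1, 1]), (8, [0, 1]), (4,
    [1, 1]), (2, [0, 1]), (1, [1, 1])]), (257, [(512, [1, 1]), (256, [1, 1]), (128, [1, 1]), (64,
    [1, 1]), (32, [0, 1]), (16, [1, 1]), (8, [0, 1]), (4, [0, 1]), (2, [1, 1]), (1, [1, 1])]),
    (256, [(512, [1, 1]), (256, [1, 1]), (128, [1, 1]), (64, [1, 1]), (32, [0, 1]), (16, [0, 1]),
    (8, [1, 1]), (4, [1, 1]), (2, [1, 1]), (1, [1, 1])]), (257, [(512, [1, 1]), (256, [1, 1]),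
    (128, [1, 1]), (64, [1, 1]), (32, [0, 1]), (16, [0, 1]), (8, [1, 1]), (4, [1, 1]), (2, [1,
    1]), (1, [0, 1])]), (257, [(512, [1, 1]), (256, [1, 1]), (128, [1, 1]), (64, [1, 1]), (32,
    [0, 1]), (16, [0, 1]), (8, [1, 1]), (4, [1, 1]), (2, [0, 1]), (1, [1, 1])]), (257, [(512, [1,
    1]), (256, [1, 1]), (128, [1, 1]), (64, [1, 1]), (32, [0, 1]), (16, [0, 1]), (8, [1, 1]), (4,
    [0, 1]), (2, [1, 1]), (1, [1, 1])]), (257, [(512, [1, 1]), (256, [1, 1]), (128, [1, 1]), (64,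
    [1, 1]), (32, [0, 1]), (16, [0, 1]), (8, [0, 1]), (4, [1, 1]), (2, [1, 1]), (1, [1, 1])]),
    (256, [(512, [1, 1]), (256, [1, 1]), (128, [1, 1]), (64, [0, 1]), (32, [1, 1]), (16, [1, 1]),
    (8, [1, 1]), (4, [1, 1]), (2, [1, 1]), (1, [0, 1])]), (256, [(512, [1, 1]), (256, [1, 1]),
    (128, [1, 1]), (64, [0, 1]), (32, [1, 1]), (16, [1, 1]), (8, [1, 1]), (4, [1, 1]), (2, [0,
    1]), (1, [1, 1])]), (257, [(512, [1, 1]), (256, [1, 1]), (128, [1, 1]), (64, [0, 1]), (32,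
    [1, 1]), (16, [1, 1]), (8, [1, 1]), (4, [1, 1]), (2, [0, 1]), (1, [0, 1])]), (256, [(512, [1,
    1]), (256, [1, 1]), (128, [1, 1]), (64, [0, 1]), (32, [1, 1]), (16, [1, 1]), (8, [1, 1]), (4,
    [0, 1]), (2, [1, 1]), (1, [1, 1])]), (257, [(512, [1, 1]), (256, [1, 1]), (128, [1, 1]), (64,
    [0, 1]), (32, [1, 1]), (16, [1, 1]), (8, [1, 1]), (4, [0, 1]), (2, [1, 1]), (1, [0, 1])]),
    (257, [(512, [1, 1]), (256, [1, 1]), (128, [1, 1]), (64, [0, 1]), (32, [1, 1]), (16, [1, 1]),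
    (8, [1, 1]), (4, [0, 1]), (2, [0, 1]), (1, [1, 1])]), (256, [(512, [1, 1]), (256, [1, 1]),
    (128, [1, 1]), (64, [0, 1]), (32, [1, 1]), (16, [1, 1]), (8, [0, 1]), (4, [1, 1]), (2, [1,
    1]), (1, [1, 1])]), (257, [(512, [1, 1]), (256, [1, 1]), (128, [1, 1]), (64, [0, 1]), (32,
    [1, 1]), (16, [1, 1]), (8, [0, 1]), (4, [1, 1]), (2, [1, 1]), (1, [0, 1])]), (257, [(512, [1,
    1]), (256, [1, 1]), (128, [1, 1]), (64, [0, 1]), (32, [1, 1]), (16, [1, 1]), (8, [0, 1]), (4,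
    [1, 1]), (2, [0, 1]), (1, [1, 1])]), (257, [(512, [1, 1]), (256, [1, 1]), (128, [1, 1]), (64,
    [0, 1]), (32, [1, 1]), (16, [1, 1]), (8, [0, 1]), (4, [0, 1]), (2, [1, 1]), (1, [1, 1])]),
    (256, [(512, [1, 1]), (256, [1, 1]), (128, [1, 1]), (64, [0, 1]), (32, [1, 1]), (16, [0, 1]),
    (8, [1, 1]), (4, [1, 1]), (2, [1, 1]), (1, [1, 1])]), (257, [(512, [1, 1]), (256, [1, 1]),
    (128, [1, 1]), (64, [0, 1]), (32, [1, 1]), (16, [0, 1]), (8, [1, 1]), (4, [1, 1]), (2, [1,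
    1]), (1, [0, 1])]), (257, [(512, [1, 1]), (256, [1, 1]), (128, [1, 1]), (64, [0, 1]), (32,
    [1, 1]), (16, [0, 1]), (8, [1, 1]), (4, [1, 1]), (2, [0, 1]), (1, [1, 1])]), (257, [(512, [1,
    1]), (256, [1, 1]), (128, [1, 1]), (64, [0, 1]), (32, [1, 1]), (16, [0, 1]), (8, [1, 1]), (4,
    [0, 1]), (2, [1, 1]), (1, [1, 1])]), (257, [(512, [1, 1]), (256, [1, 1]), (128, [1, 1]), (64,
    [0, 1]), (32, [1, 1]), (16, [0, 1]), (8, [0, 1]), (4, [1, 1]), (2, [1, 1]), (1, [1, 1])]),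
    (256, [(512, [1, 1]), (256, [1, 1]), (128, [1, 1]), (64, [0, 1]), (32, [0, 1]), (16, [1, 1]),
    (8, [1, 1]), (4, [1, 1]), (2, [1, 1]), (1, [1, 1])]), (257, [(512, [1, 1]), (256, [1, 1]),
    (128, [1, 1]), (64, [0, 1]), (32, [0, 1]), (16, [1, 1]), (8, [1, 1]), (4, [1, 1]), (2, [1,
    1]), (1, [0, 1])]), (257, [(512, [1, 1]), (256, [1, 1]), (128, [1, 1]), (64, [0, 1]), (32,
    [0, 1]), (16, [1, 1]), (8, [1, 1]), (4, [1, 1]), (2, [0, 1]), (1, [1, 1])]), (257, [(512, [1,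
    1]), (256, [1, 1]), (128, [1, 1]), (64, [0, 1]), (32, [0, 1]), (16, [1, 1]), (8, [1, 1]), (4,
    [0, 1]), (2, [1, 1]), (1, [1, 1])]), (257, [(512, [1, 1]), (256, [1, 1]), (128, [1, 1]), (64,
    [0, 1]), (32, [0, 1]), (16, [1, 1]), (8, [0, 1]), (4, [1, 1]), (2, [1, 1]), (1, [1, 1])]),
    (257, [(512, [1, 1]), (256, [1, 1]), (128, [1, 1]), (64, [0, 1]), (32, [0, 1]), (16, [0, 1]),
    (8, [1, 1]), (4, [1, 1]), (2, [1, 1]), (1, [1, 1])]), (256, [(512, [1, 1]), (256, [1, 1]),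
    (128, [0, 1]), (64, [1, 1]), (32, [1, 1]), (16, [1, 1]), (8, [1, 1]), (4, [1, 1]), (2, [1,
    1]), (1, [0, 1])]), (256, [(512, [1, 1]), (256, [1, 1]), (128, [0, 1]), (64, [1, 1]), (32,
    [1, 1]), (16, [1, 1]), (8, [1, 1]), (4, [1, 1]), (2, [0, 1]), (1, [1, 1])]), (257, [(512, [1,
    1]), (256, [1, 1]), (128, [0, 1]), (64, [1, 1]), (32, [1, 1]), (16, [1, 1]), (8, [1, 1]), (4,
    [1, 1]), (2, [0, 1]), (1, [0, 1])]), (256, [(512, [1, 1]), (256, [1, 1]), (128, [0, 1]), (64,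
    [1, 1]), (32, [1, 1]), (16, [1, 1]), (8, [1, 1]), (4, [0, 1]), (2, [1, 1]), (1, [1, 1])]),
    (257, [(512, [1, 1]), (256, [1, 1]), (128, [0, 1]), (64, [1, 1]), (32, [1, 1]), (16, [1, 1]),
    (8, [1, 1]), (4, [0, 1]), (2, [1, 1]), (1, [0, 1])]), (257, [(512, [1, 1]), (256, [1, 1]),
    (128, [0, 1]), (64, [1, 1]), (32, [1, 1]), (16, [1, 1]), (8, [1, 1]), (4, [0, 1]), (2, [0,
    1]), (1, [1, 1])]), (256, [(512, [1, 1]), (256, [1, 1]), (128, [0, 1]), (64, [1, 1]), (32,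
    [1, 1]), (16, [1, 1]), (8, [0, 1]), (4, [1, 1]), (2, [1, 1]), (1, [1, 1])]), (257, [(512, [1,
    1]), (256, [1, 1]), (128, [0, 1]), (64, [1, 1]), (32, [1, 1]), (16, [1, 1]), (8, [0, 1]), (4,
    [1, 1]), (2, [1, 1]), (1, [0, 1])]), (257, [(512, [1, 1]), (256, [1, 1]), (128, [0, 1]), (64,
    [1, 1]), (32, [1, 1]), (16, [1, 1]), (8, [0, 1]), (4, [1, 1]), (2, [0, 1]), (1, [1, 1])]),
    (257, [(512, [1, 1]), (256, [1, 1]), (128, [0, 1]), (64, [1, 1]), (32, [1, 1]), (16, [1, 1]),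
    (8, [0, 1]), (4, [0, 1]), (2, [1, 1]), (1, [1, 1])]), (256, [(512, [1, 1]), (256, [1, 1]),
    (128, [0, 1]), (64, [1, 1]), (32, [1, 1]), (16, [0, 1]), (8, [1, 1]), (4, [1, 1]), (2, [1,
    1]), (1, [1, 1])]), (257, [(512, [1, 1]), (256, [1, 1]), (128, [0, 1]), (64, [1, 1]), (32,
    [1, 1]), (16, [0, 1]), (8, [1, 1]), (4, [1, 1]), (2, [1, 1]), (1, [0, 1])]), (257, [(512, [1,
    1]), (256, [1, 1]), (128, [0, 1]), (64, [1, 1]), (32, [1, 1]), (16, [0, 1]), (8, [1, 1]), (4,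
    [1, 1]), (2, [0, 1]), (1, [1, 1])]), (257, [(512, [1, 1]), (256, [1, 1]), (128, [0, 1]), (64,
    [1, 1]), (32, [1, 1]), (16, [0, 1]), (8, [1, 1]), (4, [0, 1]), (2, [1, 1]), (1, [1, 1])]),
    (257, [(512, [1, 1]), (256, [1, 1]), (128, [0, 1]), (64, [1, 1]), (32, [1, 1]), (16, [0, 1]),
    (8, [0, 1]), (4, [1, 1]), (2, [1, 1]), (1, [1, 1])]), (256, [(512, [1, 1]), (256, [1, 1]),
    (128, [0, 1]), (64, [1, 1]), (32, [0, 1]), (16, [1, 1]), (8, [1, 1]), (4, [1, 1]), (2, [1,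
    1]), (1, [1, 1])]), (257, [(512, [1, 1]), (256, [1, 1]), (128, [0, 1]), (64, [1, 1]), (32,
    [0, 1]), (16, [1, 1]), (8, [1, 1]), (4, [1, 1]), (2, [1, 1]), (1, [0, 1])]), (257, [(512, [1,
    1]), (256, [1, 1]), (128, [0, 1]), (64, [1, 1]), (32, [0, 1]), (16, [1, 1]), (8, [1, 1]), (4,
    [1, 1]), (2, [0, 1]), (1, [1, 1])]), (257, [(512, [1, 1]), (256, [1, 1]), (128, [0, 1]), (64,
    [1, 1]), (32, [0, 1]), (16, [1, 1]), (8, [1, 1]), (4, [0, 1]), (2, [1, 1]), (1, [1, 1])]),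
    (257, [(512, [1, 1]), (256, [1, 1]), (128, [0, 1]), (64, [1, 1]), (32, [0, 1]), (16, [1, 1]),
    (8, [0, 1]), (4, [1, 1]), (2, [1, 1]), (1, [1, 1])]), (257, [(512, [1, 1]), (256, [1, 1]),
    (128, [0, 1]), (64, [1, 1]), (32, [0, 1]), (16, [0, 1]), (8, [1, 1]), (4, [1, 1]), (2, [1,
    1]), (1, [1, 1])]), (256, [(512, [1, 1]), (256, [1, 1]), (128, [0, 1]), (64, [0, 1]), (32,
    [1, 1]), (16, [1, 1]), (8, [1, 1]), (4, [1, 1]), (2, [1, 1]), (1, [1, 1])]), (257, [(512, [1,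
    1]), (256, [1, 1]), (128, [0, 1]), (64, [0, 1]), (32, [1, 1]), (16, [1, 1]), (8, [1, 1]), (4,
    [1, 1]), (2, [1, 1]), (1, [0, 1])]), (257, [(512, [1, 1]), (256, [1, 1]), (128, [0, 1]), (64,
    [0, 1]), (32, [1, 1]), (16, [1, 1]), (8, [1, 1]), (4, [1, 1]), (2, [0, 1]), (1, [1, 1])]),
    (257, [(512, [1, 1]), (256, [1, 1]), (128, [0, 1]), (64, [0, 1]), (32, [1, 1]), (16, [1, 1]),
    (8, [1, 1]), (4, [0, 1]), (2, [1, 1]), (1, [1, 1])]), (257, [(512, [1, 1]), (256, [1, 1]),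
    (128, [0, 1]), (64, [0, 1]), (32, [1, 1]), (16, [1, 1]), (8, [0, 1]), (4, [1, 1]), (2, [1,
    1]), (1, [1, 1])]), (257, [(512, [1, 1]), (256, [1, 1]), (128, [0, 1]), (64, [0, 1]), (32,
    [1, 1]), (16, [0, 1]), (8, [1, 1]), (4, [1, 1]), (2, [1, 1]), (1, [1, 1])]), (257, [(512, [1,
    1]), (256, [1, 1]), (128, [0, 1]), (64, [0, 1]), (32, [0, 1]), (16, [1, 1]), (8, [1, 1]), (4,
    [1, 1]), (2, [1, 1]), (1, [1, 1])]), (256, [(512, [1, 1]), (256, [0, 1]), (128, [1, 1]), (64,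
    [1, 1]), (32, [1, 1]), (16, [1, 1]), (8, [1, 1]), (4, [1, 1]), (2, [1, 1]), (1, [0, 1])]),
    (256, [(512, [1, 1]), (256, [0, 1]), (128, [1, 1]), (64, [1, 1]), (32, [1, 1]), (16, [1, 1]),
    (8, [1, 1]), (4, [1, 1]), (2, [0, 1]), (1, [1, 1])]), (257, [(512, [1, 1]), (256, [0, 1]),
    (128, [1, 1]), (64, [1, 1]), (32, [1, 1]), (16, [1, 1]), (8, [1, 1]), (4, [1, 1]), (2, [0,
    1]), (1, [0, 1])]), (256, [(512, [1, 1]), (256, [0, 1]), (128, [1, 1]), (64, [1, 1]), (32,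
    [1, 1]), (16, [1, 1]), (8, [1, 1]), (4, [0, 1]), (2, [1, 1]), (1, [1, 1])]), (257, [(512, [1,
    1]), (256, [0, 1]), (128, [1, 1]), (64, [1, 1]), (32, [1, 1]), (16, [1, 1]), (8, [1, 1]), (4,
    [0, 1]), (2, [1, 1]), (1, [0, 1])]), (257, [(512, [1, 1]), (256, [0, 1]), (128, [1, 1]), (64,
    [1, 1]), (32, [1, 1]), (16, [1, 1]), (8, [1, 1]), (4, [0, 1]), (2, [0, 1]), (1, [1, 1])]),
    (256, [(512, [1, 1]), (256, [0, 1]), (128, [1, 1]), (64, [1, 1]), (32, [1, 1]), (16, [1, 1]),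
    (8, [0, 1]), (4, [1, 1]), (2, [1, 1]), (1, [1, 1])]), (257, [(512, [1, 1]), (256, [0, 1]),
    (128, [1, 1]), (64, [1, 1]), (32, [1, 1]), (16, [1, 1]), (8, [0, 1]), (4, [1, 1]), (2, [1,
    1]), (1, [0, 1])]), (257, [(512, [1, 1]), (256, [0, 1]), (128, [1, 1]), (64, [1, 1]), (32,
    [1, 1]), (16, [1, 1]), (8, [0, 1]), (4, [1, 1]), (2, [0, 1]), (1, [1, 1])]), (257, [(512, [1,
    1]), (256, [0, 1]), (128, [1, 1]), (64, [1, 1]), (32, [1, 1]), (16, [1, 1]), (8, [0, 1]), (4,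
    [0, 1]), (2, [1, 1]), (1, [1, 1])]), (256, [(512, [1, 1]), (256, [0, 1]), (128, [1, 1]), (64,
    [1, 1]), (32, [1, 1]), (16, [0, 1]), (8, [1, 1]), (4, [1, 1]), (2, [1, 1]), (1, [1, 1])]),
    (257, [(512, [1, 1]), (256, [0, 1]), (128, [1, 1]), (64, [1, 1]), (32, [1, 1]), (16, [0, 1]),
    (8, [1, 1]), (4, [1, 1]), (2, [1, 1]), (1, [0, 1])]), (257, [(512, [1, 1]), (256, [0, 1]),
    (128, [1, 1]), (64, [1, 1]), (32, [1, 1]), (16, [0, 1]), (8, [1, 1]), (4, [1, 1]), (2, [0,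
    1]), (1, [1, 1])]), (257, [(512, [1, 1]), (256, [0, 1]), (128, [1, 1]), (64, [1, 1]), (32,
    [1, 1]), (16, [0, 1]), (8, [1, 1]), (4, [0, 1]), (2, [1, 1]), (1, [1, 1])]), (257, [(512, [1,
    1]), (256, [0, 1]), (128, [1, 1]), (64, [1, 1]), (32, [1, 1]), (16, [0, 1]), (8, [0, 1]), (4,
    [1, 1]), (2, [1, 1]), (1, [1, 1])]), (256, [(512, [1, 1]), (256, [0, 1]), (128, [1, 1]), (64,
    [1, 1]), (32, [0, 1]), (16, [1, 1]), (8, [1, 1]), (4, [1, 1]), (2, [1, 1]), (1, [1, 1])]),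
    (257, [(512, [1, 1]), (256, [0, 1]), (128, [1, 1]), (64, [1, 1]), (32, [0, 1]), (16, [1, 1]),
    (8, [1, 1]), (4, [1, 1]), (2, [1, 1]), (1, [0, 1])]), (257, [(512, [1, 1]), (256, [0, 1]),
    (128, [1, 1]), (64, [1, 1]), (32, [0, 1]), (16, [1, 1]), (8, [1, 1]), (4, [1, 1]), (2, [0,
    1]), (1, [1, 1])]), (257, [(512, [1, 1]), (256, [0, 1]), (128, [1, 1]), (64, [1, 1]), (32,
    [0, 1]), (16, [1, 1]), (8, [1, 1]), (4, [0, 1]), (2, [1, 1]), (1, [1, 1])]), (257, [(512, [1,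
    1]), (256, [0, 1]), (128, [1, 1]), (64, [1, 1]), (32, [0, 1]), (16, [1, 1]), (8, [0, 1]), (4,
    [1, 1]), (2, [1, 1]), (1, [1, 1])]), (257, [(512, [1, 1]), (256, [0, 1]), (128, [1, 1]), (64,
    [1, 1]), (32, [0, 1]), (16, [0, 1]), (8, [1, 1]), (4, [1, 1]), (2, [1, 1]), (1, [1, 1])]),
    (256, [(512, [1, 1]), (256, [0, 1]), (128, [1, 1]), (64, [0, 1]), (32, [1, 1]), (16, [1, 1]),
    (8, [1, 1]), (4, [1, 1]), (2, [1, 1]), (1, [1, 1])]), (257, [(512, [1, 1]), (256, [0, 1]),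
    (128, [1, 1]), (64, [0, 1]), (32, [1, 1]), (16, [1, 1]), (8, [1, 1]), (4, [1, 1]), (2, [1,
    1]), (1, [0, 1])]), (257, [(512, [1, 1]), (256, [0, 1]), (128, [1, 1]), (64, [0, 1]), (32,
    [1, 1]), (16, [1, 1]), (8, [1, 1]), (4, [1, 1]), (2, [0, 1]), (1, [1, 1])]), (257, [(512, [1,
    1]), (256, [0, 1]), (128, [1, 1]), (64, [0, 1]), (32, [1, 1]), (16, [1, 1]), (8, [1, 1]), (4,
    [0, 1]), (2, [1, 1]), (1, [1, 1])]), (257, [(512, [1, 1]), (256, [0, 1]), (128, [1, 1]), (64,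
    [0, 1]), (32, [1, 1]), (16, [1, 1]), (8, [0, 1]), (4, [1, 1]), (2, [1, 1]), (1, [1, 1])]),
    (257, [(512, [1, 1]), (256, [0, 1]), (128, [1, 1]), (64, [0, 1]), (32, [1, 1]), (16, [0, 1]),
    (8, [1, 1]), (4, [1, 1]), (2, [1, 1]), (1, [1, 1])]), (257, [(512, [1, 1]), (256, [0, 1]),
    (128, [1, 1]), (64, [0, 1]), (32, [0, 1]), (16, [1, 1]), (8, [1, 1]), (4, [1, 1]), (2, [1,
    1]), (1, [1, 1])]), (256, [(512, [1, 1]), (256, [0, 1]), (128, [0, 1]), (64, [1, 1]), (32,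
    [1, 1]), (16, [1, 1]), (8, [1, 1]), (4, [1, 1]), (2, [1, 1]), (1, [1, 1])]), (257, [(512, [1,
    1]), (256, [0, 1]), (128, [0, 1]), (64, [1, 1]), (32, [1, 1]), (16, [1, 1]), (8, [1, 1]), (4,
    [1, 1]), (2, [1, 1]), (1, [0, 1])]), (257, [(512, [1, 1]), (256, [0, 1]), (128, [0, 1]), (64,
    [1, 1]), (32, [1, 1]), (16, [1, 1]), (8, [1, 1]), (4, [1, 1]), (2, [0, 1]), (1, [1, 1])]),
    (257, [(512, [1, 1]), (256, [0, 1]), (128, [0, 1]), (64, [1, 1]), (32, [1, 1]), (16, [1, 1]),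
    (8, [1, 1]), (4, [0, 1]), (2, [1, 1]), (1, [1, 1])]), (257, [(512, [1, 1]), (256, [0, 1]),
    (128, [0, 1]), (64, [1, 1]), (32, [1, 1]), (16, [1, 1]), (8, [0, 1]), (4, [1, 1]), (2, [1,
    1]), (1, [1, 1])]), (257, [(512, [1, 1]), (256, [0, 1]), (128, [0, 1]), (64, [1, 1]), (32,
    [1, 1]), (16, [0, 1]), (8, [1, 1]), (4, [1, 1]), (2, [1, 1]), (1, [1, 1])]), (257, [(512, [1,
    1]), (256, [0, 1]), (128, [0, 1]), (64, [1, 1]), (32, [0, 1]), (16, [1, 1]), (8, [1, 1]), (4,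
    [1, 1]), (2, [1, 1]), (1, [1, 1])]), (257, [(512, [1, 1]), (256, [0, 1]), (128, [0, 1]), (64,
    [0, 1]), (32, [1, 1]), (16, [1, 1]), (8, [1, 1]), (4, [1, 1]), (2, [1, 1]), (1, [1, 1])]),
    (256, [(512, [0, 1]), (256, [1, 1]), (128, [1, 1]), (64, [1, 1]), (32, [1, 1]), (16, [1, 1]),
    (8, [1, 1]), (4, [1, 1]), (2, [1, 1]), (1, [0, 1])]), (256, [(512, [0, 1]), (256, [1, 1]),
    (128, [1, 1]), (64, [1, 1]), (32, [1, 1]), (16, [1, 1]), (8, [1, 1]), (4, [1, 1]), (2, [0,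
    1]), (1, [1, 1])]), (257, [(512, [0, 1]), (256, [1, 1]), (128, [1, 1]), (64, [1, 1]), (32,
    [1, 1]), (16, [1, 1]), (8, [1, 1]), (4, [1, 1]), (2, [0, 1]), (1, [0, 1])]), (256, [(512, [0,
    1]), (256, [1, 1]), (128, [1, 1]), (64, [1, 1]), (32, [1, 1]), (16, [1, 1]), (8, [1, 1]), (4,
    [0, 1]), (2, [1, 1]), (1, [1, 1])]), (257, [(512, [0, 1]), (256, [1, 1]), (128, [1, 1]), (64,
    [1, 1]), (32, [1, 1]), (16, [1, 1]), (8, [1, 1]), (4, [0, 1]), (2, [1, 1]), (1, [0, 1])]),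
    (257, [(512, [0, 1]), (256, [1, 1]), (128, [1, 1]), (64, [1, 1]), (32, [1, 1]), (16, [1, 1]),
    (8, [1, 1]), (4, [0, 1]), (2, [0, 1]), (1, [1, 1])]), (256, [(512, [0, 1]), (256, [1, 1]),
    (128, [1, 1]), (64, [1, 1]), (32, [1, 1]), (16, [1, 1]), (8, [0, 1]), (4, [1, 1]), (2, [1,
    1]), (1, [1, 1])]), (257, [(512, [0, 1]), (256, [1, 1]), (128, [1, 1]), (64, [1, 1]), (32,
    [1, 1]), (16, [1, 1]), (8, [0, 1]), (4, [1, 1]), (2, [1, 1]), (1, [0, 1])]), (257, [(512, [0,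
    1]), (256, [1, 1]), (128, [1, 1]), (64, [1, 1]), (32, [1, 1]), (16, [1, 1]), (8, [0, 1]), (4,
    [1, 1]), (2, [0, 1]), (1, [1, 1])]), (257, [(512, [0, 1]), (256, [1, 1]), (128, [1, 1]), (64,
    [1, 1]), (32, [1, 1]), (16, [1, 1]), (8, [0, 1]), (4, [0, 1]), (2, [1, 1]), (1, [1, 1])]),
    (256, [(512, [0, 1]), (256, [1, 1]), (128, [1, 1]), (64, [1, 1]), (32, [1, 1]), (16, [0, 1]),
    (8, [1, 1]), (4, [1, 1]), (2, [1, 1]), (1, [1, 1])]), (257, [(512, [0, 1]), (256, [1, 1]),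
    (128, [1, 1]), (64, [1, 1]), (32, [1, 1]), (16, [0, 1]), (8, [1, 1]), (4, [1, 1]), (2, [1,
    1]), (1, [0, 1])]), (257, [(512, [0, 1]), (256, [1, 1]), (128, [1, 1]), (64, [1, 1]), (32,
    [1, 1]), (16, [0, 1]), (8, [1, 1]), (4, [1, 1]), (2, [0, 1]), (1, [1, 1])]), (257, [(512, [0,
    1]), (256, [1, 1]), (128, [1, 1]), (64, [1, 1]), (32, [1, 1]), (16, [0, 1]), (8, [1, 1]), (4,
    [0, 1]), (2, [1, 1]), (1, [1, 1])]), (257, [(512, [0, 1]), (256, [1, 1]), (128, [1, 1]), (64,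
    [1, 1]), (32, [1, 1]), (16, [0, 1]), (8, [0, 1]), (4, [1, 1]), (2, [1, 1]), (1, [1, 1])]),
    (256, [(512, [0, 1]), (256, [1, 1]), (128, [1, 1]), (64, [1, 1]), (32, [0, 1]), (16, [1, 1]),
    (8, [1, 1]), (4, [1, 1]), (2, [1, 1]), (1, [1, 1])]), (257, [(512, [0, 1]), (256, [1, 1]),
    (128, [1, 1]), (64, [1, 1]), (32, [0, 1]), (16, [1, 1]), (8, [1, 1]), (4, [1, 1]), (2, [1,
    1]), (1, [0, 1])]), (257, [(512, [0, 1]), (256, [1, 1]), (128, [1, 1]), (64, [1, 1]), (32,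
    [0, 1]), (16, [1, 1]), (8, [1, 1]), (4, [1, 1]), (2, [0, 1]), (1, [1, 1])]), (257, [(512, [0,
    1]), (256, [1, 1]), (128, [1, 1]), (64, [1, 1]), (32, [0, 1]), (16, [1, 1]), (8, [1, 1]), (4,
    [0, 1]), (2, [1, 1]), (1, [1, 1])]), (257, [(512, [0, 1]), (256, [1, 1]), (128, [1, 1]), (64,
    [1, 1]), (32, [0, 1]), (16, [1, 1]), (8, [0, 1]), (4, [1, 1]), (2, [1, 1]), (1, [1, 1])]),
    (257, [(512, [0, 1]), (256, [1, 1]), (128, [1, 1]), (64, [1, 1]), (32, [0, 1]), (16, [0, 1]),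
    (8, [1, 1]), (4, [1, 1]), (2, [1, 1]), (1, [1, 1])]), (256, [(512, [0, 1]), (256, [1, 1]),
    (128, [1, 1]), (64, [0, 1]), (32, [1, 1]), (16, [1, 1]), (8, [1, 1]), (4, [1, 1]), (2, [1,
    1]), (1, [1, 1])]), (257, [(512, [0, 1]), (256, [1, 1]), (128, [1, 1]), (64, [0, 1]), (32,
    [1, 1]), (16, [1, 1]), (8, [1, 1]), (4, [1, 1]), (2, [1, 1]), (1, [0, 1])]), (257, [(512, [0,
    1]), (256, [1, 1]), (128, [1, 1]), (64, [0, 1]), (32, [1, 1]), (16, [1, 1]), (8, [1, 1]), (4,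
    [1, 1]), (2, [0, 1]), (1, [1, 1])]), (257, [(512, [0, 1]), (256, [1, 1]), (128, [1, 1]), (64,
    [0, 1]), (32, [1, 1]), (16, [1, 1]), (8, [1, 1]), (4, [0, 1]), (2, [1, 1]), (1, [1, 1])]),
    (257, [(512, [0, 1]), (256, [1, 1]), (128, [1, 1]), (64, [0, 1]), (32, [1, 1]), (16, [1, 1]),
    (8, [0, 1]), (4, [1, 1]), (2, [1, 1]), (1, [1, 1])]), (257, [(512, [0, 1]), (256, [1, 1]),
    (128, [1, 1]), (64, [0, 1]), (32, [1, 1]), (16, [0, 1]), (8, [1, 1]), (4, [1, 1]), (2, [1,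
    1]), (1, [1, 1])]), (257, [(512, [0, 1]), (256, [1, 1]), (128, [1, 1]), (64, [0, 1]), (32,
    [0, 1]), (16, [1, 1]), (8, [1, 1]), (4, [1, 1]), (2, [1, 1]), (1, [1, 1])]), (256, [(512, [0,
    1]), (256, [1, 1]), (128, [0, 1]), (64, [1, 1]), (32, [1, 1]), (16, [1, 1]), (8, [1, 1]), (4,
    [1, 1]), (2, [1, 1]), (1, [1, 1])]), (257, [(512, [0, 1]), (256, [1, 1]), (128, [0, 1]), (64,
    [1, 1]), (32, [1, 1]), (16, [1, 1]), (8, [1, 1]), (4, [1, 1]), (2, [1, 1]), (1, [0, 1])]),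
    (257, [(512, [0, 1]), (256, [1, 1]), (128, [0, 1]), (64, [1, 1]), (32, [1, 1]), (16, [1, 1]),
    (8, [1, 1]), (4, [1, 1]), (2, [0, 1]), (1, [1, 1])]), (257, [(512, [0, 1]), (256, [1, 1]),
    (128, [0, 1]), (64, [1, 1]), (32, [1, 1]), (16, [1, 1]), (8, [1, 1]), (4, [0, 1]), (2, [1,
    1]), (1, [1, 1])]), (257, [(512, [0, 1]), (256, [1, 1]), (128, [0, 1]), (64, [1, 1]), (32,
    [1, 1]), (16, [1, 1]), (8, [0, 1]), (4, [1, 1]), (2, [1, 1]), (1, [1, 1])]), (257, [(512, [0,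
    1]), (256, [1, 1]), (128, [0, 1]), (64, [1, 1]), (32, [1, 1]), (16, [0, 1]), (8, [1, 1]), (4,
    [1, 1]), (2, [1, 1]), (1, [1, 1])]), (257, [(512, [0, 1]), (256, [1, 1]), (128, [0, 1]), (64,
    [1, 1]), (32, [0, 1]), (16, [1, 1]), (8, [1, 1]), (4, [1, 1]), (2, [1, 1]), (1, [1, 1])]),
    (257, [(512, [0, 1]), (256, [1, 1]), (128, [0, 1]), (64, [0, 1]), (32, [1, 1]), (16, [1, 1]),
    (8, [1, 1]), (4, [1, 1]), (2, [1, 1]), (1, [1, 1])]), (256, [(512, [0, 1]), (256, [0, 1]),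
    (128, [1, 1]), (64, [1, 1]), (32, [1, 1]), (16, [1, 1]), (8, [1, 1]), (4, [1, 1]), (2, [1,
    1]), (1, [1, 1])]), (257, [(512, [0, 1]), (256, [0, 1]), (128, [1, 1]), (64, [1, 1]), (32,
    [1, 1]), (16, [1, 1]), (8, [1, 1]), (4, [1, 1]), (2, [1, 1]), (1, [0, 1])]), (257, [(512, [0,
    1]), (256, [0, 1]), (128, [1, 1]), (64, [1, 1]), (32, [1, 1]), (16, [1, 1]), (8, [1, 1]), (4,
    [1, 1]), (2, [0, 1]), (1, [1, 1])]), (257, [(512, [0, 1]), (256, [0, 1]), (128, [1, 1]), (64,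
    [1, 1]), (32, [1, 1]), (16, [1, 1]), (8, [1, 1]), (4, [0, 1]), (2, [1, 1]), (1, [1, 1])]),
    (257, [(512, [0, 1]), (256, [0, 1]), (128, [1, 1]), (64, [1, 1]), (32, [1, 1]), (16, [1, 1]),
    (8, [0, 1]), (4, [1, 1]), (2, [1, 1]), (1, [1, 1])]), (257, [(512, [0, 1]), (256, [0, 1]),
    (128, [1, 1]), (64, [1, 1]), (32, [1, 1]), (16, [0, 1]), (8, [1, 1]), (4, [1, 1]), (2, [1,
    1]), (1, [1, 1])]), (257, [(512, [0, 1]), (256, [0, 1]), (128, [1, 1]), (64, [1, 1]), (32,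
    [0, 1]), (16, [1, 1]), (8, [1, 1]), (4, [1, 1]), (2, [1, 1]), (1, [1, 1])]), (257, [(512, [0,
    1]), (256, [0, 1]), (128, [1, 1]), (64, [0, 1]), (32, [1, 1]), (16, [1, 1]), (8, [1, 1]), (4,
    [1, 1]), (2, [1, 1]), (1, [1, 1])]), (257, [(512, [0, 1]), (256, [0, 1]), (128, [0, 1]), (64,
    [1, 1]), (32, [1, 1]), (16, [1, 1]), (8, [1, 1]), (4, [1, 1]), (2, [1, 1]), (1, [1, 1])])]

theorem L11_5_eq : (comps [(512, 1), (256, 1), (128, 1), (64, 1), (32, 1), (16, 1), (8, 1), (4, 1), (2, 1), (1, 1)] 1 3).map (fun t => (pack (row 1 (lastOf [(512, 1), (256, 1), (128, 1), (64, 1), (32, 1), (16, 1), (8, 1), (4, 1), (2, 1), (1, 1)] t)),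
    rowsOf [(512, 1), (256, 1), (128, 1), (64, 1), (32, 1), (16, 1), (8, 1), (4, 1), (2, 1), (1, 1)] t)) = L11_5 := by
  decide +kernel

theorem C11_5 : L11_5.all (fun q => Nat.beq (fev m11_5 q.1 q.2 5 0) 14) = true := by
  decide +kernel

theorem H11_5 : H 4 5 11 := by
  refine H_of_fast (by norm_num) m11_5 1 [(512, 1), (256, 1), (128, 1), (64, 1), (32, 1), (16, 1), (8, 1), (4, 1), (2, 1), (1, 1)] rfl 14 ?_ ?_ L11_5 L11_5_eq C11_5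
  · decide +kernel
  · decide +kernel

end Pool.Agent.Helper43.Halving
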