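import Pool.Agent.Helper43.Halv.Fast

/-!
# The root (v, k) = (19, 8)
-/

namespace Pool.Agent.Helper43.Halving

/-- sign pattern -/
def m19_8 : ℕ :=
  0x1000011000001400000000000000001080001840111ca000000000000800101c011958018822000000000009800109c0180a8009a7400000000000000000000000000000000000000000001000001000110c011804000000000000800011c010108000c6c0000000000180000856011c4a01184300000000011140091e10092c700ae030000000000000000000000000000000000000000001100001100118ca00046b00000000000940000d0008d86000836000000000198a01998a00026001cb52000000001802501c65200e34000c31000000000000000000000000000000000000000000118000114e00150d00d2a10000000011806010467019c8501c560000000001194e0040b200ae510051110000000014c47014d220014300020100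

/-- rows -/
def L19_8 : List (ℕ × List (ℕ × List ℕ)) :=
  [(4311744512, [(625, [1, 3, 3, 1]), (125, [1, 3, 3, 1]), (25, [1, 3, 3, 1]), (5, [1, 3, 3, 1]),
    (1, [1, 3, 3, 1])]), (4328587264, [(625, [1, 3, 3, 1]), (125, [1, 3, 3, 1]), (25, [1, 3, 3,
    1]), (5, [1, 3, 3, 1]), (1, [0, 1, 2, 1])]), (4345495808, [(625, [1, 3, 3, 1]), (125, [1, 3,
    3, 1]), (25, [1, 3, 3, 1]), (5, [1, 3, 3, 1]), (1, [0, 0, 1, 1])]), (4362470401, [(625, [1,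
    3, 3, 1]), (125, [1, 3, 3, 1]), (25, [1, 3, 3, 1]), (5, [1, 3, 3, 1]), (1, [0, 0, 0, 1])]),
    (4328587264, [(625, [1, 3, 3, 1]), (125, [1, 3, 3, 1]), (25, [1, 3, 3, 1]), (5, [0, 1, 2,
    1]), (1, [1, 3, 3, 1])]), (4345495808, [(625, [1, 3, 3, 1]), (125, [1, 3, 3, 1]), (25, [1, 3,
    3, 1]), (5, [0, 1, 2, 1]), (1, [0, 1, 2, 1])]), (4362470401, [(625, [1, 3, 3, 1]), (125, [1,
    3, 3, 1]), (25, [1, 3, 3, 1]), (5, [0, 1, 2, 1]), (1, [0, 0, 1, 1])]), (4345495808, [(625,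
    [1, 3, 3, 1]), (125, [1, 3, 3, 1]), (25, [1, 3, 3, 1]), (5, [0, 0, 1, 1]), (1, [1, 3, 3,
    1])]), (4362470401, [(625, [1, 3, 3, 1]), (125, [1, 3, 3, 1]), (25, [1, 3, 3, 1]), (5, [0, 0,
    1, 1]), (1, [0, 1, 2, 1])]), (4362470401, [(625, [1, 3, 3, 1]), (125, [1, 3, 3, 1]), (25, [1,
    3, 3, 1]), (5, [0, 0, 0, 1]), (1, [1, 3, 3, 1])]), (4328587264, [(625, [1, 3, 3, 1]), (125,
    [1, 3, 3, 1]), (25, [0, 1, 2, 1]), (5, [1, 3, 3, 1]), (1, [1, 3, 3, 1])]), (4345495808,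
    [(625, [1, 3, 3, 1]), (125, [1, 3, 3, 1]), (25, [0, 1, 2, 1]), (5, [1, 3, 3, 1]), (1, [0, 1,
    2, 1])]), (4362470401, [(625, [1, 3, 3, 1]), (125, [1, 3, 3, 1]), (25, [0, 1, 2, 1]), (5, [1,
    3, 3, 1]), (1, [0, 0, 1, 1])]), (4345495808, [(625, [1, 3, 3, 1]), (125, [1, 3, 3, 1]), (25,
    [0, 1, 2, 1]), (5, [0, 1, 2, 1]), (1, [1, 3, 3, 1])]), (4362470401, [(625, [1, 3, 3, 1]),
    (125, [1, 3, 3, 1]), (25, [0, 1, 2, 1]), (5, [0, 1, 2, 1]), (1, [0, 1, 2, 1])]), (4362470401,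
    [(625, [1, 3, 3, 1]), (125, [1, 3, 3, 1]), (25, [0, 1, 2, 1]), (5, [0, 0, 1, 1]), (1, [1, 3,
    3, 1])]), (4345495808, [(625, [1, 3, 3, 1]), (125, [1, 3, 3, 1]), (25, [0, 0, 1, 1]), (5, [1,
    3, 3, 1]), (1, [1, 3, 3, 1])]), (4362470401, [(625, [1, 3, 3, 1]), (125, [1, 3, 3, 1]), (25,
    [0, 0, 1, 1]), (5, [1, 3, 3, 1]), (1, [0, 1, 2, 1])]), (4362470401, [(625, [1, 3, 3, 1]),
    (125, [1, 3, 3, 1]), (25, [0, 0, 1, 1]), (5, [0, 1, 2, 1]), (1, [1, 3, 3, 1])]), (4362470401,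
    [(625, [1, 3, 3, 1]), (125, [1, 3, 3, 1]), (25, [0, 0, 0, 1]), (5, [1, 3, 3, 1]), (1, [1, 3,
    3, 1])]), (4328587264, [(625, [1, 3, 3, 1]), (125, [0, 1, 2, 1]), (25, [1, 3, 3, 1]), (5, [1,
    3, 3, 1]), (1, [1, 3, 3, 1])]), (4345495808, [(625, [1, 3, 3, 1]), (125, [0, 1, 2, 1]), (25,
    [1, 3, 3, 1]), (5, [1, 3, 3, 1]), (1, [0, 1, 2, 1])]), (4362470401, [(625, [1, 3, 3, 1]),
    (125, [0, 1, 2, 1]), (25, [1, 3, 3, 1]), (5, [1, 3, 3, 1]), (1, [0, 0, 1, 1])]), (4345495808,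
    [(625, [1, 3, 3, 1]), (125, [0, 1, 2, 1]), (25, [1, 3, 3, 1]), (5, [0, 1, 2, 1]), (1, [1, 3,
    3, 1])]), (4362470401, [(625, [1, 3, 3, 1]), (125, [0, 1, 2, 1]), (25, [1, 3, 3, 1]), (5, [0,
    1, 2, 1]), (1, [0, 1, 2, 1])]), (4362470401, [(625, [1, 3, 3, 1]), (125, [0, 1, 2, 1]), (25,
    [1, 3, 3, 1]), (5, [0, 0, 1, 1]), (1, [1, 3, 3, 1])]), (4345495808, [(625, [1, 3, 3, 1]),
    (125, [0, 1, 2, 1]), (25, [0, 1, 2, 1]), (5, [1, 3, 3, 1]), (1, [1, 3, 3, 1])]), (4362470401,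
    [(625, [1, 3, 3, 1]), (125, [0, 1, 2, 1]), (25, [0, 1, 2, 1]), (5, [1, 3, 3, 1]), (1, [0, 1,
    2, 1])]), (4362470401, [(625, [1, 3, 3, 1]), (125, [0, 1, 2, 1]), (25, [0, 1, 2, 1]), (5, [0,
    1, 2, 1]), (1, [1, 3, 3, 1])]), (4362470401, [(625, [1, 3, 3, 1]), (125, [0, 1, 2, 1]), (25,
    [0, 0, 1, 1]), (5, [1, 3, 3, 1]), (1, [1, 3, 3, 1])]), (4345495808, [(625, [1, 3, 3, 1]),
    (125, [0, 0, 1, 1]), (25, [1, 3, 3, 1]), (5, [1, 3, 3, 1]), (1, [1, 3, 3, 1])]), (4362470401,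
    [(625, [1, 3, 3, 1]), (125, [0, 0, 1, 1]), (25, [1, 3, 3, 1]), (5, [1, 3, 3, 1]), (1, [0, 1,
    2, 1])]), (4362470401, [(625, [1, 3, 3, 1]), (125, [0, 0, 1, 1]), (25, [1, 3, 3, 1]), (5, [0,
    1, 2, 1]), (1, [1, 3, 3, 1])]), (4362470401, [(625, [1, 3, 3, 1]), (125, [0, 0, 1, 1]), (25,
    [0, 1, 2, 1]), (5, [1, 3, 3, 1]), (1, [1, 3, 3, 1])]), (4362470401, [(625, [1, 3, 3, 1]),
    (125, [0, 0, 0, 1]), (25, [1, 3, 3, 1]), (5, [1, 3, 3, 1]), (1, [1, 3, 3, 1])]), (4328587264,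
    [(625, [0, 1, 2, 1]), (125, [1, 3, 3, 1]), (25, [1, 3, 3, 1]), (5, [1, 3, 3, 1]), (1, [1, 3,
    3, 1])]), (4345495808, [(625, [0, 1, 2, 1]), (125, [1, 3, 3, 1]), (25, [1, 3, 3, 1]), (5, [1,
    3, 3, 1]), (1, [0, 1, 2, 1])]), (4362470401, [(625, [0, 1, 2, 1]), (125, [1, 3, 3, 1]), (25,
    [1, 3, 3, 1]), (5, [1, 3, 3, 1]), (1, [0, 0, 1, 1])]), (4345495808, [(625, [0, 1, 2, 1]),
    (125, [1, 3, 3, 1]), (25, [1, 3, 3, 1]), (5, [0, 1, 2, 1]), (1, [1, 3, 3, 1])]), (4362470401,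
    [(625, [0, 1, 2, 1]), (125, [1, 3, 3, 1]), (25, [1, 3, 3, 1]), (5, [0, 1, 2, 1]), (1, [0, 1,
    2, 1])]), (4362470401, [(625, [0, 1, 2, 1]), (125, [1, 3, 3, 1]), (25, [1, 3, 3, 1]), (5, [0,
    0, 1, 1]), (1, [1, 3, 3, 1])]), (4345495808, [(625, [0, 1, 2, 1]), (125, [1, 3, 3, 1]), (25,
    [0, 1, 2, 1]), (5, [1, 3, 3, 1]), (1, [1, 3, 3, 1])]), (4362470401, [(625, [0, 1, 2, 1]),
    (125, [1, 3, 3, 1]), (25, [0, 1, 2, 1]), (5, [1, 3, 3, 1]), (1, [0, 1, 2, 1])]), (4362470401,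
    [(625, [0, 1, 2, 1]), (125, [1, 3, 3, 1]), (25, [0, 1, 2, 1]), (5, [0, 1, 2, 1]), (1, [1, 3,
    3, 1])]), (4362470401, [(625, [0, 1, 2, 1]), (125, [1, 3, 3, 1]), (25, [0, 0, 1, 1]), (5, [1,
    3, 3, 1]), (1, [1, 3, 3, 1])]), (4345495808, [(625, [0, 1, 2, 1]), (125, [0, 1, 2, 1]), (25,
    [1, 3, 3, 1]), (5, [1, 3, 3, 1]), (1, [1, 3, 3, 1])]), (4362470401, [(625, [0, 1, 2, 1]),
    (125, [0, 1, 2, 1]), (25, [1, 3, 3, 1]), (5, [1, 3, 3, 1]), (1, [0, 1, 2, 1])]), (4362470401,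
    [(625, [0, 1, 2, 1]), (125, [0, 1, 2, 1]), (25, [1, 3, 3, 1]), (5, [0, 1, 2, 1]), (1, [1, 3,
    3, 1])]), (4362470401, [(625, [0, 1, 2, 1]), (125, [0, 1, 2, 1]), (25, [0, 1, 2, 1]), (5, [1,
    3, 3, 1]), (1, [1, 3, 3, 1])]), (4362470401, [(625, [0, 1, 2, 1]), (125, [0, 0, 1, 1]), (25,
    [1, 3, 3, 1]), (5, [1, 3, 3, 1]), (1, [1, 3, 3, 1])]), (4345495808, [(625, [0, 0, 1, 1]),
    (125, [1, 3, 3, 1]), (25, [1, 3, 3, 1]), (5, [1, 3, 3, 1]), (1, [1, 3, 3, 1])]), (4362470401,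
    [(625, [0, 0, 1, 1]), (125, [1, 3, 3, 1]), (25, [1, 3, 3, 1]), (5, [1, 3, 3, 1]), (1, [0, 1,
    2, 1])]), (4362470401, [(625, [0, 0, 1, 1]), (125, [1, 3, 3, 1]), (25, [1, 3, 3, 1]), (5, [0,
    1, 2, 1]), (1, [1, 3, 3, 1])]), (4362470401, [(625, [0, 0, 1, 1]), (125, [1, 3, 3, 1]), (25,
    [0, 1, 2, 1]), (5, [1, 3, 3, 1]), (1, [1, 3, 3, 1])]), (4362470401, [(625, [0, 0, 1, 1]),
    (125, [0, 1, 2, 1]), (25, [1, 3, 3, 1]), (5, [1, 3, 3, 1]), (1, [1, 3, 3, 1])]), (4362470401,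
    [(625, [0, 0, 0, 1]), (125, [1, 3, 3, 1]), (25, [1, 3, 3, 1]), (5, [1, 3, 3, 1]), (1, [1, 3,
    3, 1])])]

theorem L19_8_eq : (comps [(625, 3), (125, 3), (25, 3), (5, 3), (1, 3)] 4 3).map (fun t => (pack (row 4 (lastOf [(625, 3), (125, 3), (25, 3), (5, 3), (1, 3)] t)),
    rowsOf [(625, 3), (125, 3), (25, 3), (5, 3), (1, 3)] t)) = L19_8 := by
  decide +kernel

theorem C19_8 : L19_8.all (fun q => Nat.beq (fev m19_8 q.1 q.2 8 0) 2184) = true := by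
  decide +kernel

theorem H19_8 : H 4 8 19 := by
  refine H_of_fast (by norm_num) m19_8 4 [(625, 3), (125, 3), (25, 3), (5, 3), (1, 3)] rfl 2184 ?_ ?_ L19_8 L19_8_eq C19_8
  · decide +kernel
  · decide +kernel

end Pool.Agent.Helper43.Halving
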