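import Pool.Agent.Helper43.Halv.Fast

/-!
# The root (v, k) = (19, 9)
-/

namespace Pool.Agent.Helper43.Halving

/-- sign pattern -/
def m19_9 : ℕ :=
  0x3000213000030400000000000300023080201380002d0000000000201000130c031a0a03946c0000000023130000a0c018cc20140e600000000000000000000000000000000000000000020000012800011c0112540000000002130002120013a480395ca0000000020288020a940231c80004220000000023b8601a18a039c06016c000000000000000000000000000000000000000000002000201b0031846013188000000002330c02214c002ca60354420000000002906019d6a0180a401ae00000000002b8ac0042400066220082200000000000000000000000000000000000000000212b8020b9c02158202cae20000000022902038948008a04016400000000000a564014846000c620026000000000009a0401ac2200c4000000000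

/-- rows -/
def L19_9 : List (ℕ × List (ℕ × List ℕ)) :=
  [(4311744512, [(625, [1, 3, 3, 1]), (125, [1, 3, 3, 1]), (25, [1, 3, 3, 1]), (5, [1, 3, 3, 1]),
    (1, [1, 3, 3, 1])]), (4328587264, [(625, [1, 3, 3, 1]), (125, [1, 3, 3, 1]), (25, [1, 3, 3,
    1]), (5, [1, 3, 3, 1]), (1, [0, 1, 2, 1])]), (4345495808, [(625, [1, 3, 3, 1]), (125, [1, 3,
    3, 1]), (25, [1, 3, 3, 1]), (5, [1, 3, 3, 1]), (1, [0, 0, 1, 1])]), (4362470401, [(625, [1,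
    3, 3, 1]), (125, [1, 3, 3, 1]), (25, [1, 3, 3, 1]), (5, [1, 3, 3, 1]), (1, [0, 0, 0, 1])]),
    (4328587264, [(625, [1, 3, 3, 1]), (125, [1, 3, 3, 1]), (25, [1, 3, 3, 1]), (5, [0, 1, 2,
    1]), (1, [1, 3, 3, 1])]), (4345495808, [(625, [1, 3, 3, 1]), (125, [1, 3, 3, 1]), (25, [1, 3,
    3, 1]), (5, [0, 1, 2, 1]), (1, [0, 1, 2, 1])]), (4362470401, [(625, [1, 3, 3, 1]), (125, [1,
    3, 3, 1]), (25, [1, 3, 3, 1]), (5, [0, 1, 2, 1]), (1, [0, 0, 1, 1])]), (4345495808, [(625,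
    [1, 3, 3, 1]), (125, [1, 3, 3, 1]), (25, [1, 3, 3, 1]), (5, [0, 0, 1, 1]), (1, [1, 3, 3,
    1])]), (4362470401, [(625, [1, 3, 3, 1]), (125, [1, 3, 3, 1]), (25, [1, 3, 3, 1]), (5, [0, 0,
    1, 1]), (1, [0, 1, 2, 1])]), (4362470401, [(625, [1, 3, 3, 1]), (125, [1, 3, 3, 1]), (25, [1,
    3, 3, 1]), (5, [0, 0, 0, 1]), (1, [1, 3, 3, 1])]), (4328587264, [(625, [1, 3, 3, 1]), (125,
    [1, 3, 3, 1]), (25, [0, 1, 2, 1]), (5, [1, 3, 3, 1]), (1, [1, 3, 3, 1])]), (4345495808,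
    [(625, [1, 3, 3, 1]), (125, [1, 3, 3, 1]), (25, [0, 1, 2, 1]), (5, [1, 3, 3, 1]), (1, [0, 1,
    2, 1])]), (4362470401, [(625, [1, 3, 3, 1]), (125, [1, 3, 3, 1]), (25, [0, 1, 2, 1]), (5, [1,
    3, 3, 1]), (1, [0, 0, 1, 1])]), (4345495808, [(625, [1, 3, 3, 1]), (125, [1, 3, 3, 1]), (25,
    [0, 1, 2, 1]), (5, [0, 1, 2, 1]), (1, [1, 3, 3, 1])]), (4362470401, [(625, [1, 3, 3, 1]),
    (125, [1, 3, 3, 1]), (25, [0, 1, 2, 1]), (5, [0, 1, 2, 1]), (1, [0, 1, 2, 1])]), (4362470401,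
    [(625, [1, 3, 3, 1]), (125, [1, 3, 3, 1]), (25, [0, 1, 2, 1]), (5, [0, 0, 1, 1]), (1, [1, 3,
    3, 1])]), (4345495808, [(625, [1, 3, 3, 1]), (125, [1, 3, 3, 1]), (25, [0, 0, 1, 1]), (5, [1,
    3, 3, 1]), (1, [1, 3, 3, 1])]), (4362470401, [(625, [1, 3, 3, 1]), (125, [1, 3, 3, 1]), (25,
    [0, 0, 1, 1]), (5, [1, 3, 3, 1]), (1, [0, 1, 2, 1])]), (4362470401, [(625, [1, 3, 3, 1]),
    (125, [1, 3, 3, 1]), (25, [0, 0, 1, 1]), (5, [0, 1, 2, 1]), (1, [1, 3, 3, 1])]), (4362470401,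
    [(625, [1, 3, 3, 1]), (125, [1, 3, 3, 1]), (25, [0, 0, 0, 1]), (5, [1, 3, 3, 1]), (1, [1, 3,
    3, 1])]), (4328587264, [(625, [1, 3, 3, 1]), (125, [0, 1, 2, 1]), (25, [1, 3, 3, 1]), (5, [1,
    3, 3, 1]), (1, [1, 3, 3, 1])]), (4345495808, [(625, [1, 3, 3, 1]), (125, [0, 1, 2, 1]), (25,
    [1, 3, 3, 1]), (5, [1, 3, 3, 1]), (1, [0, 1, 2, 1])]), (4362470401, [(625, [1, 3, 3, 1]),
    (125, [0, 1, 2, 1]), (25, [1, 3, 3, 1]), (5, [1, 3, 3, 1]), (1, [0, 0, 1, 1])]), (4345495808,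
    [(625, [1, 3, 3, 1]), (125, [0, 1, 2, 1]), (25, [1, 3, 3, 1]), (5, [0, 1, 2, 1]), (1, [1, 3,
    3, 1])]), (4362470401, [(625, [1, 3, 3, 1]), (125, [0, 1, 2, 1]), (25, [1, 3, 3, 1]), (5, [0,
    1, 2, 1]), (1, [0, 1, 2, 1])]), (4362470401, [(625, [1, 3, 3, 1]), (125, [0, 1, 2, 1]), (25,
    [1, 3, 3, 1]), (5, [0, 0, 1, 1]), (1, [1, 3, 3, 1])]), (4345495808, [(625, [1, 3, 3, 1]),
    (125, [0, 1, 2, 1]), (25, [0, 1, 2, 1]), (5, [1, 3, 3, 1]), (1, [1, 3, 3, 1])]), (4362470401,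
    [(625, [1, 3, 3, 1]), (125, [0, 1, 2, 1]), (25, [0, 1, 2, 1]), (5, [1, 3, 3, 1]), (1, [0, 1,
    2, 1])]), (4362470401, [(625, [1, 3, 3, 1]), (125, [0, 1, 2, 1]), (25, [0, 1, 2, 1]), (5, [0,
    1, 2, 1]), (1, [1, 3, 3, 1])]), (4362470401, [(625, [1, 3, 3, 1]), (125, [0, 1, 2, 1]), (25,
    [0, 0, 1, 1]), (5, [1, 3, 3, 1]), (1, [1, 3, 3, 1])]), (4345495808, [(625, [1, 3, 3, 1]),
    (125, [0, 0, 1, 1]), (25, [1, 3, 3, 1]), (5, [1, 3, 3, 1]), (1, [1, 3, 3, 1])]), (4362470401,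
    [(625, [1, 3, 3, 1]), (125, [0, 0, 1, 1]), (25, [1, 3, 3, 1]), (5, [1, 3, 3, 1]), (1, [0, 1,
    2, 1])]), (4362470401, [(625, [1, 3, 3, 1]), (125, [0, 0, 1, 1]), (25, [1, 3, 3, 1]), (5, [0,
    1, 2, 1]), (1, [1, 3, 3, 1])]), (4362470401, [(625, [1, 3, 3, 1]), (125, [0, 0, 1, 1]), (25,
    [0, 1, 2, 1]), (5, [1, 3, 3, 1]), (1, [1, 3, 3, 1])]), (4362470401, [(625, [1, 3, 3, 1]),
    (125, [0, 0, 0, 1]), (25, [1, 3, 3, 1]), (5, [1, 3, 3, 1]), (1, [1, 3, 3, 1])]), (4328587264,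
    [(625, [0, 1, 2, 1]), (125, [1, 3, 3, 1]), (25, [1, 3, 3, 1]), (5, [1, 3, 3, 1]), (1, [1, 3,
    3, 1])]), (4345495808, [(625, [0, 1, 2, 1]), (125, [1, 3, 3, 1]), (25, [1, 3, 3, 1]), (5, [1,
    3, 3, 1]), (1, [0, 1, 2, 1])]), (4362470401, [(625, [0, 1, 2, 1]), (125, [1, 3, 3, 1]), (25,
    [1, 3, 3, 1]), (5, [1, 3, 3, 1]), (1, [0, 0, 1, 1])]), (4345495808, [(625, [0, 1, 2, 1]),
    (125, [1, 3, 3, 1]), (25, [1, 3, 3, 1]), (5, [0, 1, 2, 1]), (1, [1, 3, 3, 1])]), (4362470401,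
    [(625, [0, 1, 2, 1]), (125, [1, 3, 3, 1]), (25, [1, 3, 3, 1]), (5, [0, 1, 2, 1]), (1, [0, 1,
    2, 1])]), (4362470401, [(625, [0, 1, 2, 1]), (125, [1, 3, 3, 1]), (25, [1, 3, 3, 1]), (5, [0,
    0, 1, 1]), (1, [1, 3, 3, 1])]), (4345495808, [(625, [0, 1, 2, 1]), (125, [1, 3, 3, 1]), (25,
    [0, 1, 2, 1]), (5, [1, 3, 3, 1]), (1, [1, 3, 3, 1])]), (4362470401, [(625, [0, 1, 2, 1]),
    (125, [1, 3, 3, 1]), (25, [0, 1, 2, 1]), (5, [1, 3, 3, 1]), (1, [0, 1, 2, 1])]), (4362470401,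
    [(625, [0, 1, 2, 1]), (125, [1, 3, 3, 1]), (25, [0, 1, 2, 1]), (5, [0, 1, 2, 1]), (1, [1, 3,
    3, 1])]), (4362470401, [(625, [0, 1, 2, 1]), (125, [1, 3, 3, 1]), (25, [0, 0, 1, 1]), (5, [1,
    3, 3, 1]), (1, [1, 3, 3, 1])]), (4345495808, [(625, [0, 1, 2, 1]), (125, [0, 1, 2, 1]), (25,
    [1, 3, 3, 1]), (5, [1, 3, 3, 1]), (1, [1, 3, 3, 1])]), (4362470401, [(625, [0, 1, 2, 1]),
    (125, [0, 1, 2, 1]), (25, [1, 3, 3, 1]), (5, [1, 3, 3, 1]), (1, [0, 1, 2, 1])]), (4362470401,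
    [(625, [0, 1, 2, 1]), (125, [0, 1, 2, 1]), (25, [1, 3, 3, 1]), (5, [0, 1, 2, 1]), (1, [1, 3,
    3, 1])]), (4362470401, [(625, [0, 1, 2, 1]), (125, [0, 1, 2, 1]), (25, [0, 1, 2, 1]), (5, [1,
    3, 3, 1]), (1, [1, 3, 3, 1])]), (4362470401, [(625, [0, 1, 2, 1]), (125, [0, 0, 1, 1]), (25,
    [1, 3, 3, 1]), (5, [1, 3, 3, 1]), (1, [1, 3, 3, 1])]), (4345495808, [(625, [0, 0, 1, 1]),
    (125, [1, 3, 3, 1]), (25, [1, 3, 3, 1]), (5, [1, 3, 3, 1]), (1, [1, 3, 3, 1])]), (4362470401,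
    [(625, [0, 0, 1, 1]), (125, [1, 3, 3, 1]), (25, [1, 3, 3, 1]), (5, [1, 3, 3, 1]), (1, [0, 1,
    2, 1])]), (4362470401, [(625, [0, 0, 1, 1]), (125, [1, 3, 3, 1]), (25, [1, 3, 3, 1]), (5, [0,
    1, 2, 1]), (1, [1, 3, 3, 1])]), (4362470401, [(625, [0, 0, 1, 1]), (125, [1, 3, 3, 1]), (25,
    [0, 1, 2, 1]), (5, [1, 3, 3, 1]), (1, [1, 3, 3, 1])]), (4362470401, [(625, [0, 0, 1, 1]),
    (125, [0, 1, 2, 1]), (25, [1, 3, 3, 1]), (5, [1, 3, 3, 1]), (1, [1, 3, 3, 1])]), (4362470401,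
    [(625, [0, 0, 0, 1]), (125, [1, 3, 3, 1]), (25, [1, 3, 3, 1]), (5, [1, 3, 3, 1]), (1, [1, 3,
    3, 1])])]

theorem L19_9_eq : (comps [(625, 3), (125, 3), (25, 3), (5, 3), (1, 3)] 4 3).map (fun t => (pack (row 4 (lastOf [(625, 3), (125, 3), (25, 3), (5, 3), (1, 3)] t)),
    rowsOf [(625, 3), (125, 3), (25, 3), (5, 3), (1, 3)] t)) = L19_9 := by
  decide +kernel

theorem C19_9 : L19_9.all (fun q => Nat.beq (fev m19_9 q.1 q.2 9 0) 4004) = true := by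
  decide +kernel

theorem H19_9 : H 4 9 19 := by
  refine H_of_fast (by norm_num) m19_9 4 [(625, 3), (125, 3), (25, 3), (5, 3), (1, 3)] rfl 4004 ?_ ?_ L19_9 L19_9_eq C19_9
  · decide +kernel
  · decide +kernel

end Pool.Agent.Helper43.Halving
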