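import Pool.Agent.Helper43.Halv.Zero

/-!
# Root halvings from a good start and disjoint gadgets
-/

open Finset

namespace Pool.Agent.Helper43.Halving

open Tg in
theorem root_general {v k E : ℕ} (hv : 6 ≤ v) (hk : 4 ≤ k) (hE : Even E)
    (hpar : ∀ i ≤ 3, Even ((v - i).choose (k - i)))
    (hbig : 8 * (241 * (v + 1) ^ 3 * E) ≤ (v - 6).choose (k - 3))
    (hpig : ∀ F : Finset (Finset ℕ), (∀ B ∈ F, B ⊆ range v) → ∃ x : Finset ℕ → ℤ,
      (∀ B ∈ F, x B = 1 ∨ x B = -1) ∧ ∀ T : Finset ℕ, T.card ≤ 3 → |eS F x T| ≤ E) :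
    H 4 k v := by
  classical
  set K := powersetCard k (range v) with hK
  set I : Finset ((_ : Tg) × ℕ) := (targets v).sigma (fun t => range (M v E t)) with hI
  have hIv : ∀ i ∈ I, Valid v i.1 := fun i hi => mem_targets.1 (mem_sigma.1 hi).1
  have hIcard : I.card ≤ 241 * (v + 1) ^ 3 * E := by
    rw [hI, card_sigma]
    simp only [card_range]
    exact sum_targets v E
  obtain ⟨C, hC1, hC2⟩ := exists_pool hv (by omega : 3 ≤ k) (fun i : (_ : Tg) × ℕ => prs i.1) I
    (fun i hi => ⟨good_prs (hIv i hi), length_prs _, supp_prs hv (hIv i hi)⟩) (by omega)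
  set G : ((_ : Tg) × ℕ) → Finset (Finset ℕ) := fun i => fam (prs i.1) (C i) with hG
  have hdisC : ∀ i ∈ I, Disjoint (C i) (supp (prs i.1)) := by
    intro i hi
    rw [disjoint_left]
    intro a ha
    exact (mem_sdiff.1 ((mem_powersetCard.1 (hC1 i hi)).1 ha)).2
  have hGK : ∀ i ∈ I, G i ⊆ K := by
    intro i hi B hB
    have h1 := subset_of_mem_fam hB
    have h2 := card_of_mem_fam (good_prs (hIv i hi)) (hdisC i hi) hB
    have h3 := mem_powersetCard.1 (hC1 i hi)
    rw [hK, mem_powersetCard]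
    refine ⟨h1.2.trans (union_subset (h3.1.trans sdiff_subset) (supp_prs hv (hIv i hi))), ?_⟩
    rw [h2, h3.2]
    have := length_prs i.1
    omega
  set R : Finset (Finset ℕ) := K \ I.biUnion G with hR
  have hRG : ∀ i ∈ I, Disjoint R (G i) := by
    intro i hi
    rw [disjoint_left]
    intro B hB hB'
    exact (mem_sdiff.1 hB).2 (mem_biUnion.2 ⟨i, hi, hB'⟩)
  have hRK : R ∪ I.biUnion G = K := by
    rw [hR]
    exact sdiff_union_of_subset (biUnion_subset.2 hGK)
  obtain ⟨xr, hxr1, hxr2⟩ := hpig R (fun B hB =>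
    (mem_powersetCard.1 (mem_sdiff.1 hB).1).1)
  -- evenness
  have heven : ∀ T : Finset ℕ, T ⊆ range v → T.card ≤ 3 →
      Even (K.filter (fun B => T ⊆ B)).card := by
    intro T hT hT3
    rw [hK, card_above hT (by omega)]
    exact hpar _ hT3
  have hSv : ∀ t, Valid v t → S t ⊆ range v := fun t ht => S_subset hv ht
  have hSc : ∀ t, Valid v t → (S t).card ≤ 3 := fun t ht => by
    rw [card_S ht]
    exact length_prs t
  obtain ⟨s, hs1, hs2⟩ := choose_signs (targets v) (M v E) rk (fun t => eS R xr (S t))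
    (fun t m t' => eS (fam (prs t) (C ⟨t, m⟩)) (sgn (prs t)) (S t'))
    (fun t _ => M_even hE t)
    (by
      intro t ht m hm
      have hi : (⟨t, m⟩ : (_ : Tg) × ℕ) ∈ I := mem_sigma.2 ⟨ht, hm⟩
      have ho := own (mem_targets.1 ht)
      exact eS_fam_one (good_prs (mem_targets.1 ht)) (hdisC _ hi) ho.1 ho.2)
    (by
      intro t ht t' ht' hne hr m hm
      have hi : (⟨t', m⟩ : (_ : Tg) × ℕ) ∈ I := mem_sigma.2 ⟨ht', hm⟩
      exact eS_fam_zero (good_prs (mem_targets.1 ht')) (hdisC _ hi)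
        (not_hit (mem_targets.1 ht) (mem_targets.1 ht') hne hr))
    (by
      intro t ht
      obtain ⟨x, hx1, hx2⟩ := assemble R xr hxr1 G (fun i => sgn (prs i.1)) I hC2 hRG
        (fun i _ B _ => sgn_or _ B)
      rw [hRK] at hx1 hx2
      have h1 := eS_parity hx1 (S t) (heven _ (hSv t (mem_targets.1 ht)) (hSc t (mem_targets.1 ht)))
      rw [hx2, hI, sum_sigma] at h1
      exact h1)
    (by
      intro t ht
      have hval := mem_targets.1 ht
      have h1 : |eS R xr (S t)| ≤ E := hxr2 _ (hSc t hval)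
      have h2 : ∑ t' ∈ (targets v).filter (fun t' => rk t' < rk t), ∑ m ∈ range (M v E t'),
          |eS (fam (prs t') (C ⟨t', m⟩)) (sgn (prs t')) (S t)| ≤
          ∑ t' ∈ U v t, (M v E t' : ℤ) := by
        have h3 : ∑ t' ∈ (targets v).filter (fun t' => rk t' < rk t), ∑ m ∈ range (M v E t'),
          |eS (fam (prs t') (C ⟨t', m⟩)) (sgn (prs t')) (S t)| =
          ∑ t' ∈ ((targets v).filter (fun t' => rk t' < rk t)).filter
            (fun t' => Hit (prs t') (S t)), ∑ m ∈ range (M v E t'),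
            |eS (fam (prs t') (C ⟨t', m⟩)) (sgn (prs t')) (S t)| := by
          symm
          refine sum_subset (filter_subset _ _) fun t' ht' hn => ?_
          refine sum_eq_zero fun m hm => ?_
          have hnh : ¬ Hit (prs t') (S t) := fun hh => hn (mem_filter.2 ⟨ht', hh⟩)
          have hi : (⟨t', m⟩ : (_ : Tg) × ℕ) ∈ I :=
            mem_sigma.2 ⟨(mem_filter.1 ht').1, hm⟩
          rw [eS_fam_zero (good_prs (mem_targets.1 (mem_filter.1 ht').1)) (hdisC _ hi) hnh, abs_zero]
        rw [h3]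
        refine (sum_le_sum (g := fun t' => (M v E t' : ℤ)) fun t' ht' => ?_).trans ?_
        · have ht'' := (mem_filter.1 (mem_filter.1 ht').1).1
          calc ∑ m ∈ range (M v E t'), |eS (fam (prs t') (C ⟨t', m⟩)) (sgn (prs t')) (S t)|
              ≤ ∑ m ∈ range (M v E t'), (1 : ℤ) := by
                refine sum_le_sum fun m hm => ?_
                have hi : (⟨t', m⟩ : (_ : Tg) × ℕ) ∈ I := mem_sigma.2 ⟨ht'', hm⟩
                exact eS_fam_abs (good_prs (mem_targets.1 ht'')) (hdisC _ hi) _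
            _ = M v E t' := by simp
        · refine sum_le_sum_of_subset_of_nonneg ?_ (fun _ _ _ => by positivity)
          intro t' ht'
          rw [mem_filter, mem_filter] at ht'
          exact hits_U hval (mem_targets.1 ht'.1.1) ht'.1.2 ht'.2
      have h4 := sum_U v E t
      have h5 : (E : ℤ) + ∑ t' ∈ U v t, (M v E t' : ℤ) ≤ M v E t := by exact_mod_cast h4
      linarith)
  -- the final signing
  obtain ⟨x, hx1, hx2⟩ := assemble R xr hxr1 G (fun i B => s i.1 i.2 * sgn (prs i.1) B) I hC2 hRG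
    (fun i _ B _ => by
      rcases hs1 i.1 i.2 with h | h <;> rcases sgn_or (prs i.1) B with h' | h' <;>
        rw [h, h'] <;> simp)
  rw [hRK] at hx1 hx2
  refine ⟨x, hx1, zero_of_targets hv x fun t ht => ?_⟩
  rw [← hK, hx2, hI, sum_sigma, ← hs2 t (mem_targets.2 ht)]
  congr 1
  refine sum_congr rfl fun t' _ => sum_congr rfl fun m _ => ?_
  exact eS_smul _ _ _ _

end Pool.Agent.Helper43.Halving
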