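import Pool.Agent.Helper43.Halv.Gadget

/-!
# Targets of the correction process
-/

open Finset

namespace Pool.Agent.Helper43.Halving

/-- labels of the sets `T` that are corrected -/
inductive Tg
  | t0 : Tg
  | t1 (p : ℕ) : Tg
  | t2a (p q : ℕ) : Tg
  | t2b (q : ℕ) : Tg
  | t3a (p q s : ℕ) : Tg
  | t3b (q s : ℕ) : Tg
  | t3c (q s : ℕ) : Tg
  | t3d (s : ℕ) : Tg
  | t3e (s : ℕ) : Tg
  deriving DecidableEq

namespace Tg

/-- admissible labels -/
def Valid (v : ℕ) : Tg → Prop
  | t0 => True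
  | t1 p => 1 ≤ p ∧ p < v
  | t2a p q => 2 ≤ p ∧ p < q ∧ q < v
  | t2b q => 3 ≤ q ∧ q < v
  | t3a p q s => 3 ≤ p ∧ p < q ∧ q < s ∧ s < v
  | t3b q s => 4 ≤ q ∧ q < s ∧ s < v
  | t3c q s => 4 ≤ q ∧ q < s ∧ s < v
  | t3d s => 5 ≤ s ∧ s < v
  | t3e s => 5 ≤ s ∧ s < v

/-- the set to be corrected -/
def S : Tg → Finset ℕ
  | t0 => ∅
  | t1 p => {p}
  | t2a p q => {p, q}
  | t2b q => {1, q}
  | t3a p q s => {p, q, s}
  | t3b q s => {2, q, s}
  | t3c q s => {1, q, s}
  | t3d s => {2, 3, s}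
  | t3e s => {1, 3, s}

/-- the type of the gadgets used for the correction -/
def prs : Tg → List (ℕ × ℕ)
  | t0 => []
  | t1 p => [(p, 0)]
  | t2a p q => [(p, 0), (q, 1)]
  | t2b q => [(1, 0), (q, 2)]
  | t3a p q s => [(p, 0), (q, 1), (s, 2)]
  | t3b q s => [(2, 0), (q, 1), (s, 3)]
  | t3c q s => [(1, 0), (q, 2), (s, 3)]
  | t3d s => [(2, 0), (3, 1), (s, 4)]
  | t3e s => [(1, 0), (3, 2), (s, 4)]

/-- stage -/
def rk : Tg → ℕ
  | t0 => 0
  | t1 _ => 1
  | t2a _ _ => 2
  | t2b _ => 3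
  | t3a _ _ _ => 4
  | t3b _ _ => 5
  | t3c _ _ => 5
  | t3d _ => 6
  | t3e _ => 6

/-- number of gadgets -/
def M (v E : ℕ) : Tg → ℕ
  | t0 => E
  | t1 _ => 2 * E
  | t2a _ _ => 6 * E
  | t2b _ => 6 * (v * E) + 6 * E
  | t3a _ _ _ => 26 * E
  | t3b _ _ => 50 * (v * E) + 50 * E
  | t3c _ _ => 50 * (v * E) + 50 * E
  | t3d _ => 50 * (v * (v * E)) + 100 * (v * E) + 50 * E
  | t3e _ => 50 * (v * (v * E)) + 100 * (v * E) + 50 * E

theorem M_even {v E : ℕ} (hE : Even E) (t : Tg) : Even (M v E t) := by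
  obtain ⟨e, rfl⟩ := hE
  cases t
  case t0 => exact ⟨e, rfl⟩
  case t1 => exact ⟨2 * e, by unfold M; ring⟩
  case t2a => exact ⟨6 * e, by unfold M; ring⟩
  case t2b => exact ⟨6 * (v * e) + 6 * e, by unfold M; ring⟩
  case t3a => exact ⟨26 * e, by unfold M; ring⟩
  case t3b => exact ⟨50 * (v * e) + 50 * e, by unfold M; ring⟩
  case t3c => exact ⟨50 * (v * e) + 50 * e, by unfold M; ring⟩
  case t3d => exact ⟨50 * (v * (v * e)) + 100 * (v * e) + 50 * e, by unfold M; ring⟩
  case t3e => exact ⟨50 * (v * (v * e)) + 100 * (v * e) + 50 * e, by unfold M; ring⟩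

theorem good_prs {v : ℕ} {t : Tg} (h : Valid v t) : Good (prs t) := by
  cases t <;> simp only [Valid] at h <;>
    simp only [prs, Good, supp, mem_insert, notMem_empty, or_false, not_false_eq_true, and_true,
      not_or, ne_eq] <;> omega

theorem length_prs (t : Tg) : (prs t).length ≤ 3 := by
  cases t <;> simp [prs]

theorem supp_prs {v : ℕ} (hv : 6 ≤ v) {t : Tg} (h : Valid v t) : supp (prs t) ⊆ range v := by
  cases t <;> simp only [Valid] at h <;>
    simp only [prs, supp, insert_subset_iff, mem_range, empty_subset, and_true] <;> omega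

theorem S_subset {v : ℕ} (hv : 6 ≤ v) {t : Tg} (h : Valid v t) : S t ⊆ range v := by
  cases t <;> simp only [Valid] at h <;>
    simp only [S, insert_subset_iff, singleton_subset_iff, mem_range, empty_subset] <;> omega

theorem card_S {v : ℕ} {t : Tg} (h : Valid v t) : (S t).card = (prs t).length := by
  cases t <;> simp only [Valid] at h
  · rfl
  · rfl
  · exact card_pair (by omega)
  · exact card_pair (by omega)
  · exact card_eq_three.2 ⟨_, _, _, by omega, by omega, by omega, rfl⟩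
  · exact card_eq_three.2 ⟨_, _, _, by omega, by omega, by omega, rfl⟩
  · exact card_eq_three.2 ⟨_, _, _, by omega, by omega, by omega, rfl⟩
  · exact card_eq_three.2 ⟨_, _, _, by omega, by omega, by omega, rfl⟩
  · exact card_eq_three.2 ⟨_, _, _, by omega, by omega, by omega, rfl⟩

theorem own {v : ℕ} {t : Tg} (h : Valid v t) :
    (∀ p ∈ prs t, p.1 ∈ S t ∧ p.2 ∉ S t) ∧ S t ⊆ supp (prs t) := by
  cases t <;> simp only [Valid] at h
  case t0 => simp [prs, S, supp]
  all_goals
    constructor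
    · intro x hx
      simp only [prs, List.mem_cons, List.not_mem_nil, or_false] at hx
      simp only [S, mem_insert, mem_singleton, not_or]
      first
        | (rcases hx with hx | hx | hx <;> subst hx <;> simp <;> omega)
        | (rcases hx with hx | hx <;> subst hx <;> simp <;> omega)
        | (subst hx; simp; omega)
    · intro x hx
      simp only [S, mem_insert, mem_singleton] at hx
      simp only [prs, supp, mem_insert, notMem_empty, or_false]
      tauto

end Tg

end Pool.Agent.Helper43.Halving
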