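import Pool.Agent.Helper43.Halv.Assemble

/-!
# Vanishing on the targets implies vanishing everywhere
-/

open Finset

namespace Pool.Agent.Helper43.Halving

private theorem sort2 (v : ℕ) (g : ℕ → ℕ → ℤ) (h1 : ∀ a b, g a b = g b a)
    (Q : ℕ → ℕ → Prop) (h : ∀ a b, a < b → b < v → Q a b → g a b = 0)
    (hQ : ∀ a b, Q a b → Q b a) :
    ∀ a b, a < v → b < v → a ≠ b → Q a b → g a b = 0 := by
  intro a b ha hb hab hq
  rcases Nat.lt_or_gt_of_ne hab with h' | h'
  · exact h a b h' hb hq
  · rw [h1]
    exact h b a h' ha (hQ a b hq)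

private theorem sort3 (v : ℕ) (g : ℕ → ℕ → ℕ → ℤ) (h1 : ∀ a b c, g a b c = g b a c)
    (h2 : ∀ a b c, g a b c = g a c b) (Q : ℕ → ℕ → ℕ → Prop)
    (hQ1 : ∀ a b c, Q a b c → Q b a c) (hQ2 : ∀ a b c, Q a b c → Q a c b)
    (h : ∀ a b c, a < b → b < c → c < v → Q a b c → g a b c = 0) :
    ∀ a b c, a < v → b < v → c < v → a ≠ b → a ≠ c → b ≠ c → Q a b c → g a b c = 0 := by
  intro a b c ha hb hc hab hac hbc hq
  rcases Nat.lt_or_gt_of_ne hab with k1 | k1 <;> rcases Nat.lt_or_gt_of_ne hac with k2 | k2 <;>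
    rcases Nat.lt_or_gt_of_ne hbc with k3 | k3
  · exact h a b c k1 k3 hc hq
  · rw [h2]; exact h a c b k2 k3 hb (hQ2 _ _ _ hq)
  · omega
  · rw [h2, h1]; exact h c a b k2 k1 hb (hQ1 _ _ _ (hQ2 _ _ _ hq))
  · rw [h1]; exact h b a c k1 k2 hc (hQ1 _ _ _ hq)
  · omega
  · rw [h1, h2]; exact h b c a k3 k2 ha (hQ2 _ _ _ (hQ1 _ _ _ hq))
  · rw [h1, h2, h1]; exact h c b a k3 k1 ha (hQ1 _ _ _ (hQ2 _ _ _ (hQ1 _ _ _ hq)))

theorem zero_of_targets {v k : ℕ} (hv : 6 ≤ v) (x : Finset ℕ → ℤ)
    (h : ∀ t, Tg.Valid v t → eS (powersetCard k (range v)) x (Tg.S t) = 0) :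
    ∀ T : Finset ℕ, T.card < 4 → eS (powersetCard k (range v)) x T = 0 := by
  set f : Finset ℕ → ℤ := fun T => eS (powersetCard k (range v)) x T with hf
  have key : ∀ {S A : Finset ℕ}, f S = 0 → A ⊆ range v \ S →
      (∀ a ∈ range v, a ∉ S → a ∉ A → f (insert a S) = 0) →
      ∑ a ∈ A, f (insert a S) = 0 := fun h1 h2 h3 => null_rel' x h1 h2 h3
  -- level 0
  have f0 : f ∅ = 0 := h Tg.t0 trivial
  -- level 1
  have f1' : ∀ p, 1 ≤ p → p < v → f {p} = 0 := fun p h1 h2 => h (Tg.t1 p) ⟨h1, h2⟩
  have f10 : f {0} = 0 := by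
    have := key (S := ∅) (A := {0}) f0 (by simp; omega) (fun a ha _ ha0 => by
      rw [mem_singleton] at ha0
      have e : insert a (∅ : Finset ℕ) = {a} := rfl
      rw [e]
      exact f1' a (by omega) (mem_range.1 ha))
    rw [sum_singleton] at this
    exact this
  have f1 : ∀ p, p < v → f {p} = 0 := by
    intro p hp
    rcases Nat.eq_zero_or_pos p with rfl | h0
    · exact f10
    · exact f1' p h0 hp
  -- level 2
  set g : ℕ → ℕ → ℤ := fun a b => f {a, b} with hg
  have gs : ∀ a b, g a b = g b a := fun a b => by simp only [hg, pair_comm a b]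
  have key2 : ∀ (q : ℕ) (A : Finset ℕ), q < v → A ⊆ range v \ {q} →
      (∀ a, a < v → a ≠ q → a ∉ A → g a q = 0) → ∑ a ∈ A, g a q = 0 := by
    intro q A hq hA h0
    refine key (f1 q hq) hA fun a ha ha' ha'' => ?_
    exact h0 a (mem_range.1 ha) (by simpa using ha') ha''
  have g1 : ∀ a b, a < v → b < v → a ≠ b → (1 ≤ a ∧ 1 ≤ b ∧ (3 ≤ a ∨ 3 ≤ b)) → g a b = 0 := by
    refine sort2 v g gs _ ?_ ?_
    · intro a b hab hb hq
      rcases Nat.lt_or_ge a 2 with h' | h'
      · have : a = 1 := by omega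
        subst this
        exact h (Tg.t2b b) ⟨by omega, hb⟩
      · exact h (Tg.t2a a b) ⟨h', hab, hb⟩
    · intro a b hq
      exact ⟨hq.2.1, hq.1, hq.2.2.symm⟩
  have g2 : ∀ q, 3 ≤ q → q < v → g 0 q = 0 := by
    intro q h3 hq
    have := key2 q {0} hq (by simp; omega) (fun a ha haq ha0 => by
      rw [mem_singleton] at ha0
      exact g1 a q ha hq haq ⟨by omega, by omega, Or.inr h3⟩)
    rw [sum_singleton] at this
    exact this
  have g3 : ∀ a b, a < v → b < v → a ≠ b → (3 ≤ a ∨ 3 ≤ b) → g a b = 0 := by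
    refine sort2 v g gs _ ?_ ?_
    · intro a b hab hb hq
      rcases Nat.eq_zero_or_pos a with rfl | h0
      · exact g2 b (by omega) hb
      · exact g1 a b (by omega) hb (by omega) ⟨h0, by omega, hq⟩
    · intro a b hq
      exact hq.symm
  have r0 : g 1 0 + g 2 0 = 0 := by
    have := key2 0 {1, 2} (by omega) (by
      intro a ha
      simp only [mem_insert, mem_singleton] at ha
      simp only [mem_sdiff, mem_range, mem_singleton]
      omega) (fun a ha haq ha0 => by
      simp only [mem_insert, mem_singleton, not_or] at ha0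
      exact g3 a 0 ha (by omega) haq (by omega))
    rw [sum_pair (by norm_num)] at this
    exact this
  have r1 : g 0 1 + g 2 1 = 0 := by
    have := key2 1 {0, 2} (by omega) (by
      intro a ha
      simp only [mem_insert, mem_singleton] at ha
      simp only [mem_sdiff, mem_range, mem_singleton]
      omega) (fun a ha haq ha0 => by
      simp only [mem_insert, mem_singleton, not_or] at ha0
      exact g3 a 1 ha (by omega) haq (by omega))
    rw [sum_pair (by norm_num)] at this
    exact this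
  have r2 : g 0 2 + g 1 2 = 0 := by
    have := key2 2 {0, 1} (by omega) (by
      intro a ha
      simp only [mem_insert, mem_singleton] at ha
      simp only [mem_sdiff, mem_range, mem_singleton]
      omega) (fun a ha haq ha0 => by
      simp only [mem_insert, mem_singleton, not_or] at ha0
      exact g3 a 2 ha (by omega) haq (by omega))
    rw [sum_pair (by norm_num)] at this
    exact this
  have g4 : ∀ a b, a < v → b < v → a ≠ b → True → g a b = 0 := by
    refine sort2 v g gs _ ?_ (fun _ _ _ => trivial)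
    intro a b hab hb _
    rcases Nat.lt_or_ge b 3 with h' | h'
    · have s1 := gs 1 0
      have s2 := gs 2 0
      have s3 := gs 2 1
      rw [s1, s2] at r0
      rw [s3] at r1
      have hcase : (a = 0 ∧ b = 1) ∨ (a = 0 ∧ b = 2) ∨ (a = 1 ∧ b = 2) := by omega
      rcases hcase with ⟨rfl, rfl⟩ | ⟨rfl, rfl⟩ | ⟨rfl, rfl⟩ <;> omega
    · exact g3 a b (by omega) hb (by omega) (by omega)
  -- level 3
  set w : ℕ → ℕ → ℕ → ℤ := fun a b c => f {a, b, c} with hw
  have ws1 : ∀ a b c, w a b c = w b a c := fun a b c => by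
    simp only [hw, Finset.insert_comm a b]
  have ws2 : ∀ a b c, w a b c = w a c b := fun a b c => by
    simp only [hw, pair_comm b c]
  have key3 : ∀ (q s : ℕ) (A : Finset ℕ), q < v → s < v → q ≠ s → A ⊆ range v \ {q, s} →
      (∀ a, a < v → a ≠ q → a ≠ s → a ∉ A → w a q s = 0) → ∑ a ∈ A, w a q s = 0 := by
    intro q s A hq hs hqs hA h0
    refine key (g4 q s hq hs hqs trivial) hA fun a ha ha' ha'' => ?_
    simp only [mem_insert, mem_singleton, not_or] at ha'
    exact h0 a (mem_range.1 ha) ha'.1 ha'.2 ha''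
  have w1 : ∀ a b c, a < v → b < v → c < v → a ≠ b → a ≠ c → b ≠ c →
      (1 ≤ a ∧ 1 ≤ b ∧ 1 ≤ c ∧ (3 ≤ a ∨ 3 ≤ b) ∧ (3 ≤ a ∨ 3 ≤ c) ∧ (3 ≤ b ∨ 3 ≤ c) ∧
        (5 ≤ a ∨ 5 ≤ b ∨ 5 ≤ c)) → w a b c = 0 := by
    refine sort3 v w ws1 ws2 _ ?_ ?_ ?_
    · intro a b c hq
      omega
    · intro a b c hq
      omega
    · intro a b c hab hbc hc hq
      rcases Nat.lt_or_ge a 2 with h' | h'
      · have : a = 1 := by omega
        subst this
        rcases Nat.lt_or_ge b 4 with h4 | h4
        · have : b = 3 := by omega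
          subst this
          exact h (Tg.t3e c) ⟨by omega, hc⟩
        · exact h (Tg.t3c b c) ⟨h4, hbc, hc⟩
      · rcases Nat.lt_or_ge a 3 with h3 | h3
        · have : a = 2 := by omega
          subst this
          rcases Nat.lt_or_ge b 4 with h4 | h4
          · have : b = 3 := by omega
            subst this
            exact h (Tg.t3d c) ⟨by omega, hc⟩
          · exact h (Tg.t3b b c) ⟨h4, hbc, hc⟩
        · exact h (Tg.t3a a b c) ⟨h3, hab, hbc, hc⟩
  have w2 : ∀ q s, 3 ≤ q → q < s → 5 ≤ s → s < v → w 0 q s = 0 := by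
    intro q s h3 hqs h5 hs
    have := key3 q s {0} (by omega) hs (by omega) (by
      intro a ha
      simp only [mem_insert, mem_singleton] at ha
      simp only [mem_sdiff, mem_range, mem_insert, mem_singleton]
      omega) (fun a ha haq has ha0 => by
      simp only [mem_singleton] at ha0
      exact w1 a q s ha (by omega) hs haq has (by omega) (by omega))
    rw [sum_singleton] at this
    exact this
  have w3 : ∀ a b c, a < v → b < v → c < v → a ≠ b → a ≠ c → b ≠ c →
      ((3 ≤ a ∨ 3 ≤ b) ∧ (3 ≤ a ∨ 3 ≤ c) ∧ (3 ≤ b ∨ 3 ≤ c) ∧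
        (5 ≤ a ∨ 5 ≤ b ∨ 5 ≤ c)) → w a b c = 0 := by
    refine sort3 v w ws1 ws2 _ ?_ ?_ ?_
    · intro a b c hq
      omega
    · intro a b c hq
      omega
    · intro a b c hab hbc hc hq
      rcases Nat.eq_zero_or_pos a with rfl | h0
      · exact w2 b c (by omega) hbc (by omega) hc
      · exact w1 a b c (by omega) (by omega) hc (by omega) (by omega) (by omega) (by omega)
  have w4 : ∀ s, 5 ≤ s → s < v → w 0 1 s = 0 ∧ w 0 2 s = 0 ∧ w 1 2 s = 0 := by
    intro s h5 hs
    have q0 : w 1 0 s + w 2 0 s = 0 := by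
      have := key3 0 s {1, 2} (by omega) hs (by omega) (by
        intro a ha
        simp only [mem_insert, mem_singleton] at ha
        simp only [mem_sdiff, mem_range, mem_insert, mem_singleton]
        omega) (fun a ha haq has ha0 => by
        simp only [mem_insert, mem_singleton, not_or] at ha0
        exact w3 a 0 s ha (by omega) hs haq has (by omega) (by omega))
      rw [sum_pair (by norm_num)] at this
      exact this
    have q1 : w 0 1 s + w 2 1 s = 0 := by
      have := key3 1 s {0, 2} (by omega) hs (by omega) (by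
        intro a ha
        simp only [mem_insert, mem_singleton] at ha
        simp only [mem_sdiff, mem_range, mem_insert, mem_singleton]
        omega) (fun a ha haq has ha0 => by
        simp only [mem_insert, mem_singleton, not_or] at ha0
        exact w3 a 1 s ha (by omega) hs haq has (by omega) (by omega))
      rw [sum_pair (by norm_num)] at this
      exact this
    have q2 : w 0 2 s + w 1 2 s = 0 := by
      have := key3 2 s {0, 1} (by omega) hs (by omega) (by
        intro a ha
        simp only [mem_insert, mem_singleton] at ha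
        simp only [mem_sdiff, mem_range, mem_insert, mem_singleton]
        omega) (fun a ha haq has ha0 => by
        simp only [mem_insert, mem_singleton, not_or] at ha0
        exact w3 a 2 s ha (by omega) hs haq has (by omega) (by omega))
      rw [sum_pair (by norm_num)] at this
      exact this
    rw [ws1 1 0 s, ws1 2 0 s] at q0
    rw [ws1 2 1 s] at q1
    refine ⟨by omega, by omega, by omega⟩
  have w5 : ∀ a b c, a < v → b < v → c < v → a ≠ b → a ≠ c → b ≠ c →
      (5 ≤ a ∨ 5 ≤ b ∨ 5 ≤ c) → w a b c = 0 := by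
    refine sort3 v w ws1 ws2 _ ?_ ?_ ?_
    · intro a b c hq
      omega
    · intro a b c hq
      omega
    · intro a b c hab hbc hc hq
      have h5 : 5 ≤ c := by omega
      obtain ⟨u1, u2, u3⟩ := w4 c h5 hc
      rcases Nat.lt_or_ge b 3 with h' | h'
      · have hcase : (a = 0 ∧ b = 1) ∨ (a = 0 ∧ b = 2) ∨ (a = 1 ∧ b = 2) := by omega
        rcases hcase with ⟨rfl, rfl⟩ | ⟨rfl, rfl⟩ | ⟨rfl, rfl⟩
        · exact u1
        · exact u2
        · exact u3
      · exact w3 a b c (by omega) (by omega) hc (by omega) (by omega) (by omega) (by omega)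
  -- the ten small triples
  have small : ∀ q s a b c, q < 5 → s < 5 → q ≠ s → a ≠ b → a ≠ c → b ≠ c → a < 5 → b < 5 →
      c < 5 → a ≠ q → a ≠ s → b ≠ q → b ≠ s → c ≠ q → c ≠ s →
      w a q s + w b q s + w c q s = 0 := by
    intro q s a b c hq hs hqs hab hac hbc ha hb hc a1 a2 b1 b2 c1 c2
    have := key3 q s {a, b, c} (by omega) (by omega) (by omega) (by
      intro y hy
      simp only [mem_insert, mem_singleton] at hy
      simp only [mem_sdiff, mem_range, mem_insert, mem_singleton]
      omega) (fun y hy hyq hys hy0 => by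
      simp only [mem_insert, mem_singleton, not_or] at hy0
      exact w5 y q s hy (by omega) (by omega) hyq hys (by omega) (by omega))
    rw [sum_insert (by simp only [mem_insert, mem_singleton]; omega), sum_pair hbc] at this
    omega
  have e01 := small 0 1 2 3 4 (by omega) (by omega) (by omega) (by omega) (by omega) (by omega)
    (by omega) (by omega) (by omega) (by omega) (by omega) (by omega) (by omega) (by omega)
    (by omega)
  have e02 := small 0 2 1 3 4 (by omega) (by omega) (by omega) (by omega) (by omega) (by omega)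
    (by omega) (by omega) (by omega) (by omega) (by omega) (by omega) (by omega) (by omega)
    (by omega)
  have e03 := small 0 3 1 2 4 (by omega) (by omega) (by omega) (by omega) (by omega) (by omega)
    (by omega) (by omega) (by omega) (by omega) (by omega) (by omega) (by omega) (by omega)
    (by omega)
  have e04 := small 0 4 1 2 3 (by omega) (by omega) (by omega) (by omega) (by omega) (by omega)
    (by omega) (by omega) (by omega) (by omega) (by omega) (by omega) (by omega) (by omega)
    (by omega)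
  have e12 := small 1 2 0 3 4 (by omega) (by omega) (by omega) (by omega) (by omega) (by omega)
    (by omega) (by omega) (by omega) (by omega) (by omega) (by omega) (by omega) (by omega)
    (by omega)
  have e13 := small 1 3 0 2 4 (by omega) (by omega) (by omega) (by omega) (by omega) (by omega)
    (by omega) (by omega) (by omega) (by omega) (by omega) (by omega) (by omega) (by omega)
    (by omega)
  have e14 := small 1 4 0 2 3 (by omega) (by omega) (by omega) (by omega) (by omega) (by omega)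
    (by omega) (by omega) (by omega) (by omega) (by omega) (by omega) (by omega) (by omega)
    (by omega)
  have e23 := small 2 3 0 1 4 (by omega) (by omega) (by omega) (by omega) (by omega) (by omega)
    (by omega) (by omega) (by omega) (by omega) (by omega) (by omega) (by omega) (by omega)
    (by omega)
  have e24 := small 2 4 0 1 3 (by omega) (by omega) (by omega) (by omega) (by omega) (by omega)
    (by omega) (by omega) (by omega) (by omega) (by omega) (by omega) (by omega) (by omega)
    (by omega)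
  have e34 := small 3 4 0 1 2 (by omega) (by omega) (by omega) (by omega) (by omega) (by omega)
    (by omega) (by omega) (by omega) (by omega) (by omega) (by omega) (by omega) (by omega)
    (by omega)
  -- normalise
  rw [ws1 2 0 1, ws2 0 2 1, ws1 3 0 1, ws2 0 3 1, ws1 4 0 1, ws2 0 4 1] at e01
  rw [ws1 1 0 2, ws1 3 0 2, ws2 0 3 2, ws1 4 0 2, ws2 0 4 2] at e02
  rw [ws1 1 0 3, ws1 2 0 3, ws1 4 0 3, ws2 0 4 3] at e03
  rw [ws1 1 0 4, ws1 2 0 4, ws1 3 0 4] at e04
  rw [ws1 3 1 2, ws2 1 3 2, ws1 4 1 2, ws2 1 4 2] at e12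
  rw [ws1 2 1 3, ws1 4 1 3, ws2 1 4 3] at e13
  rw [ws1 2 1 4, ws1 3 1 4] at e14
  rw [ws1 4 2 3, ws2 2 4 3] at e23
  rw [ws1 3 2 4] at e24
  have w6 : ∀ a b c, a < v → b < v → c < v → a ≠ b → a ≠ c → b ≠ c → True → w a b c = 0 := by
    refine sort3 v w ws1 ws2 _ (fun _ _ _ _ => trivial) (fun _ _ _ _ => trivial) ?_
    intro a b c hab hbc hc _
    rcases Nat.lt_or_ge c 5 with h' | h'
    · have hcase : (a = 0 ∧ b = 1 ∧ c = 2) ∨ (a = 0 ∧ b = 1 ∧ c = 3) ∨ (a = 0 ∧ b = 1 ∧ c = 4) ∨
        (a = 0 ∧ b = 2 ∧ c = 3) ∨ (a = 0 ∧ b = 2 ∧ c = 4) ∨ (a = 0 ∧ b = 3 ∧ c = 4) ∨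
        (a = 1 ∧ b = 2 ∧ c = 3) ∨ (a = 1 ∧ b = 2 ∧ c = 4) ∨ (a = 1 ∧ b = 3 ∧ c = 4) ∨
        (a = 2 ∧ b = 3 ∧ c = 4) := by omega
      rcases hcase with ⟨rfl, rfl, rfl⟩ | ⟨rfl, rfl, rfl⟩ | ⟨rfl, rfl, rfl⟩ | ⟨rfl, rfl, rfl⟩ |
        ⟨rfl, rfl, rfl⟩ | ⟨rfl, rfl, rfl⟩ | ⟨rfl, rfl, rfl⟩ | ⟨rfl, rfl, rfl⟩ |
        ⟨rfl, rfl, rfl⟩ | ⟨rfl, rfl, rfl⟩ <;> linarith
    · exact w5 a b c (by omega) (by omega) hc (by omega) (by omega) (by omega) (by omega)
  -- conclusion
  intro T hT
  by_cases hTv : T ⊆ range v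
  · have hT' : T.card = 0 ∨ T.card = 1 ∨ T.card = 2 ∨ T.card = 3 := by omega
    rcases hT' with hT' | hT' | hT' | hT'
    · rw [card_eq_zero] at hT'
      rw [hT']
      exact f0
    · rw [card_eq_one] at hT'
      obtain ⟨p, rfl⟩ := hT'
      exact f1 p (by simpa using hTv)
    · rw [card_eq_two] at hT'
      obtain ⟨p, q, hpq, rfl⟩ := hT'
      simp only [insert_subset_iff, singleton_subset_iff, mem_range] at hTv
      exact g4 p q hTv.1 hTv.2 hpq trivial
    · rw [card_eq_three] at hT'
      obtain ⟨p, q, s, hpq, hps, hqs, rfl⟩ := hT'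
      simp only [insert_subset_iff, singleton_subset_iff, mem_range] at hTv
      exact w6 p q s hTv.1 hTv.2.1 hTv.2.2 hpq hps hqs trivial
  · show eS (powersetCard k (range v)) x T = 0
    unfold eS
    rw [filter_eq_empty_iff.2, sum_empty]
    intro B hB hTB
    exact hTv (hTB.trans (mem_powersetCard.1 hB).1)

end Pool.Agent.Helper43.Halving
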